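import Pool.Agent.Lib_helper80.OB.ODefs

/-!
# Refutations by oblivious branching programs and linear inequalities: definitions

Clauses, CNFs and OBDDs are those of `Pool.Agent.Lib_helper80.OB.ODefs`.
-/

set_option autoImplicit false

namespace Pool.Agent.DAQ

open Finset Pool.Agent.OB

/-! ## Refutations -/

/-- The state of an oblivious branching program with `w` states after `t` steps on the input `x`.
At time `t` it reads the variable `σ t`; the next state depends on the time, the present state and
the value read. -/
def run {V : Type*} {w : ℕ} (δ : ℕ → Fin w → Bool → Fin w) (σ : ℕ → V) (q : Fin w)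
    (x : V → Bool) : ℕ → Fin w
  | 0 => q
  | t + 1 => δ t (run δ σ q x t) (x (σ t))

/-- The function `f` is computed by an oblivious branching program of width `w` which reads the
variables `σ 0, …, σ (T - 1)` in this order and then tests a linear inequality, which may depend on
the last state. The coefficients are arbitrary real numbers. -/
def Prog {V : Type*} [Fintype V] (σ : ℕ → V) (T w : ℕ) (f : (V → Bool) → Bool) : Prop :=
  ∃ (δ : ℕ → Fin w → Bool → Fin w) (q : Fin w) (a : Fin w → V → ℝ) (b : Fin w → ℝ), ∀ x,
    f x = true ↔ b (run δ σ q x T) ≤ ∑ v, if x v = true then a (run δ σ q x T) v else 0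

/-- The function `f` is a linear inequality with real coefficients. -/
def Ineq {V : Type*} [Fintype V] (f : (V → Bool) → Bool) : Prop :=
  ∃ (a : V → ℝ) (b : ℝ), ∀ x, f x = true ↔ b ≤ ∑ v, if x v = true then a v else 0

/-- The functions with an OBDD of at most `s` nodes for one of the `l` orders `ord k` of all
variables, and the linear inequalities. -/
def Mixed {V : Type*} [Fintype V] {l : ℕ} (ord : Fin l → (V ≃ Fin (Fintype.card V))) (s : ℕ)
    (f : (V → Bool) → Bool) : Prop :=
  (∃ k, ∃ s' ≤ s, HasOBDD (ord k) s' f) ∨ Ineq f

/-- `Ref F κ A L`: there is a DAG-like refutation of the CNF `F` with `L` lines in the class `A` of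
functions. Each line is implied by at most `κ` clauses of `F` together with at most `κ` earlier lines
(which may be used arbitrarily often), and some line is the constant false. -/
def Ref {V : Type*} (F : CNF V) (κ : ℕ) (A : ((V → Bool) → Bool) → Prop) (L : ℕ) : Prop :=
  ∃ f : ℕ → (V → Bool) → Bool,
    (∀ k < L, A (f k) ∧ ∃ (E : CNF V) (S : Finset ℕ), E ⊆ F ∧ E.card ≤ κ ∧ S.card ≤ κ ∧
      (∀ i ∈ S, i < k) ∧ ∀ x, (∀ C ∈ E, Sat x C) → (∀ i ∈ S, f i x = true) → f k x = true) ∧
    ∃ k < L, ∀ x, f k x = false

/-! ## The formulas -/

/-- The pigeonhole principle for `m + 1` pigeons and `m` holes, with clauses of width 3. Variables: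
`(i, inl j)`: pigeon `i` sits in the hole `j`; `(i, inr j)`: the hole of the pigeon `i` is smaller
than `j`. -/
def php (m : ℕ) : CNF (Fin (m + 1) × (Fin m ⊕ Fin (m + 1))) :=
  (univ.image fun i : Fin (m + 1) => {((i, Sum.inr 0), false)}) ∪
  (univ.image fun i : Fin (m + 1) => {((i, Sum.inr (Fin.last m)), true)}) ∪
  (univ.image fun v : Fin (m + 1) × Fin m =>
    {((v.1, Sum.inr v.2.succ), false), ((v.1, Sum.inr v.2.castSucc), true),
      ((v.1, Sum.inl v.2), true)}) ∪
  ((univ.filter fun v : Fin (m + 1) × Fin (m + 1) × Fin m => v.1 ≠ v.2.1).image fun v =>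
    {((v.1, Sum.inl v.2.2), false), ((v.2.1, Sum.inl v.2.2), false)})

/-- The formula `G` with the variables replaced by table entries: there is a pointer in
`{0, …, M - 1}` for each variable `i` of `G`, and the value of `i` is the entry of the table of `i`
at this pointer. Variables: `(0, i, q)`: the pointer of `i` is `q`; `(1, i, q)`: the pointer of `i`
is smaller than `q`; `(2, i, q)`: the entry `q` of the table of `i`. -/
def idx {I : Type*} [Fintype I] [DecidableEq I] (M : ℕ) (G : CNF I) :
    CNF (Fin 3 × I × Fin (M + 1)) :=
  (univ.image fun i : I => {((1, i, 0), false)}) ∪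
  (univ.image fun i : I => {((1, i, Fin.last M), true)}) ∪
  (univ.image fun v : I × Fin M =>
    {((1, v.1, v.2.succ), false), ((1, v.1, v.2.castSucc), true), ((0, v.1, v.2.castSucc), true)}) ∪
  G.biUnion fun C => univ.image fun p : I → Fin (M + 1) =>
    (C.image fun l => ((0, l.1, p l.1), false)) ∪ C.image fun l => ((2, l.1, p l.1), l.2)

open Classical in
/-- The formula `H` with all variables `a` addressed indirectly: `a` is replaced by the variable
`inl y` of a pool, where `y` is the address in the `g` variables `inr (a, j)`. (For each clause and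
all values `s` of the addresses there is one clause; tautologies are omitted.) -/
noncomputable def adr {A : Type*} [Fintype A] [DecidableEq A] (g : ℕ) (H : CNF A) :
    CNF ((Fin g → Bool) ⊕ (A × Fin g)) :=
  (H.biUnion fun D => univ.image fun s : A → Fin g → Bool =>
    (D.biUnion fun l => univ.image fun j : Fin g => (Sum.inr (l.1, j), !(s l.1 j))) ∪
      D.image fun l => (Sum.inl (s l.1), l.2)).filter fun C => ¬ Taut C

/-- The pointers have `bits n` bits if `G` has `n` variables. -/
def bits (n : ℕ) : ℕ := 4 * Nat.clog 2 (2 ^ 16 * n ^ 8)

/-- The variables of the lifted formula, if `I` is the set of the variables of `G`. -/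
abbrev LV (I : Type) [Fintype I] : Type :=
  (Fin (3 * bits (Fintype.card I)) → Bool) ⊕
    ((Fin 3 × I × Fin (2 ^ bits (Fintype.card I) + 1)) × Fin (3 * bits (Fintype.card I)))

/-- The lifted formula: the formula `G` with the variables replaced by table entries, all variables
addressed indirectly. -/
noncomputable def lift {I : Type} [Fintype I] [DecidableEq I] (G : CNF I) : CNF (LV I) :=
  adr (3 * bits (Fintype.card I)) (idx (2 ^ bits (Fintype.card I)) G)

/-! ## Resolution -/

/-- `Res G W C`: the clause `C` has a resolution derivation from `G` in which all resolvents have at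
most `W` literals. -/
inductive Res {V : Type} [DecidableEq V] (G : CNF V) (W : ℕ) : Clause V → Prop
  | ax {C : Clause V} : C ∈ G → Res G W C
  | res {C D : Clause V} {v : V} : Res G W C → Res G W D → (v, true) ∈ C → (v, false) ∈ D →
      (C.erase (v, true) ∪ D.erase (v, false)).card ≤ W →
      Res G W (C.erase (v, true) ∪ D.erase (v, false))

/-- The formula `G` has a resolution refutation of width `W`. -/
def Refutable {V : Type} [DecidableEq V] (G : CNF V) (W : ℕ) : Prop := Res G W ∅

end Pool.Agent.DAQ
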