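import Pool.Agent.DAO.ADR
import Pool.Agent.DAQ.Defs

/-!
# Project DAQ, module ADB: the indirectly addressed formula (clauses of any width)

Adapted from `Pool/Agent/DAO/ADR.lean`.
-/

set_option autoImplicit false

namespace Pool.Agent.DAQ

open Finset Pool.Agent.OB Pool.Agent.DGO DAO.MADR

namespace MADB

variable {A : Type} [DecidableEq A]

theorem card_imB [Fintype A] (g b : ℕ) (D : Clause A) (hD : D.card ≤ b) :
    (univ.image fun s : A → Fin g → Bool => cl g D s).card ≤ 2 ^ (b * g) := by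
  have hsub : (univ.image fun s : A → Fin g → Bool => cl g D s) ⊆
      univ.image fun u : {a // a ∈ D.image Prod.fst} → Fin g → Bool =>
        cl g D (ex g (D.image Prod.fst) u) := by
    intro C hC
    obtain ⟨s, -, rfl⟩ := mem_image.1 hC
    refine mem_image.2 ⟨fun a => s a.1, mem_univ _, ?_⟩
    refine cl_congr g D _ _ fun a ha => ?_
    unfold ex
    rw [dif_pos ha]
  refine (card_le_card hsub).trans (card_image_le.trans ?_)
  rw [card_univ, Fintype.card_fun, Fintype.card_fun, Fintype.card_bool, Fintype.card_fin,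
    Fintype.card_coe, ← pow_mul]
  refine Nat.pow_le_pow_right (by norm_num) ?_
  have h6 : (D.image Prod.fst).card ≤ b := card_image_le.trans hD
  calc g * (D.image Prod.fst).card ≤ g * b := Nat.mul_le_mul_left _ h6
    _ = b * g := Nat.mul_comm _ _

end MADB

/-- ADB: the indirectly addressed formula. -/
theorem t_ADB (A : Type) [Fintype A] [DecidableEq A] (g b : ℕ) (H : CNF A)
    (hH : ∀ D ∈ H, D.card ≤ b) :
    (∀ C ∈ DAO.adr g H, ¬ Taut C ∧ C.card ≤ b * (g + 1)) ∧
    (DAO.adr g H).card ≤ H.card * 2 ^ (b * g) := by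
  refine ⟨?_, ?_⟩
  · intro C hC
    obtain ⟨⟨D, hD, s, rfl⟩, hT⟩ := (adr_eq g H C).1 hC
    exact ⟨hT, (card_cl g D s).trans (Nat.mul_le_mul_right _ (hH D hD))⟩
  · classical
    unfold DAO.adr
    refine (card_filter_le _ _).trans ?_
    refine card_biUnion_le_card_mul _ _ _ fun D hD => ?_
    exact MADB.card_imB g b D (hH D hD)

/-- The formula is unsatisfiable. -/
theorem adr_unsat (A : Type) [Fintype A] [DecidableEq A] (g : ℕ) (H : CNF A) (hU : Unsat H) :
    Unsat (DAO.adr g H) := by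
  intro b
  obtain ⟨D, hD, hS⟩ := hU fun a => b (Sum.inl fun j => b (Sum.inr (a, j)))
  have hC : ¬ Sat b (cl g D fun a j => b (Sum.inr (a, j))) := by
    rintro ⟨l, hl, hb⟩
    rw [mem_cl] at hl
    rcases hl with ⟨l', hl', j, rfl⟩ | ⟨l', hl', rfl⟩
    · have hb' : b (Sum.inr (l'.1, j)) = !(b (Sum.inr (l'.1, j))) := hb
      cases hx : b (Sum.inr (l'.1, j)) <;> rw [hx] at hb' <;> cases hb'
    · exact hS ⟨l', hl', hb⟩
  exact ⟨_, (adr_eq g H _).2 ⟨⟨D, hD, _, rfl⟩, not_taut b _ hC⟩, hC⟩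

end Pool.Agent.DAQ
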