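import Pool.Agent.DAQ.St

/-!
# Project DAQ, module FUL: no strategy with full memory
-/

set_option autoImplicit false

namespace Pool.Agent.DAQ

open Finset Pool.Agent.OB Pool.Agent.DGO

theorem t_FUL : S_FUL := by
  classical
  intro I _ _ G W H hstr hu
  by_contra hcon
  rw [not_lt] at hcon
  have key : ∀ k ≤ Fintype.card I, ∃ (Q : Finset I) (z : I → Bool), Q.card = k ∧ H Q z := by
    intro k
    induction k with
    | zero => exact fun _ => ⟨∅, fun _ => false, rfl, hstr.emp _⟩
    | succ k ih =>
      intro hk
      obtain ⟨Q, z, hQ, hH⟩ := ih (by omega)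
      have hne : ∃ i, i ∉ Q := by
        by_contra hall
        push Not at hall
        have : Q = univ := Finset.eq_univ_iff_forall.2 hall
        rw [this, Finset.card_univ] at hQ
        omega
      obtain ⟨i, hi⟩ := hne
      obtain ⟨b, hb⟩ := hstr.ext Q z i hH (by omega) hi
      exact ⟨insert i Q, Function.update z i b, by rw [Finset.card_insert_of_notMem hi, hQ], hb⟩
  obtain ⟨Q, z, hQ, hH⟩ := key _ le_rfl
  have hQu : Q = univ := (Finset.card_eq_iff_eq_univ Q).1 hQ
  obtain ⟨C, hC, hns⟩ := hu z
  exact hns (hstr.good Q z C hH hC fun l _ => by rw [hQu]; exact Finset.mem_univ _)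

end Pool.Agent.DAQ
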