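import Pool.Agent.DAQ.Defs

/-!
# Hardness of the lifted formula: the definition
-/

set_option autoImplicit false

namespace Pool.Agent.DAQ

open Finset Pool.Agent.OB

/-- `Hard G κ ε B`: each refutation of `lift G` (a formula with `N` variables) in which each line is
implied by at most `κ` clauses of `lift G` and at most `κ` earlier lines is large, in the following
sense. (a) If all lines are computed by oblivious branching programs of width `w` which read the same
sequence of `T ≤ ε N log N` variables and then test a linear inequality depending on the last state,
then the maximum of `w` and the number `L` of the lines is at least `B (T / N)`. (b) If all lines are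
linear inequalities or have OBDDs with at most `s` nodes for one of `l ≤ ε log N` orders, then the
maximum of `s` and `L` is at least `B l`. -/
def Hard {I : Type} [Fintype I] [DecidableEq I] (G : CNF I) (κ : ℕ) (ε : ℝ) (B : ℝ → ℝ) : Prop :=
  ∀ N : ℕ, N = Fintype.card (LV I) →
    (∀ (σ : ℕ → LV I) (T w L : ℕ), (T : ℝ) ≤ ε * N * Real.logb 2 N →
      Ref (lift G) κ (Prog σ T w) L → B (T / N) ≤ (max w L : ℕ)) ∧
    ∀ (l s L : ℕ) (ord : Fin l → (LV I ≃ Fin (Fintype.card (LV I)))),
      (l : ℝ) ≤ ε * Real.logb 2 N → Ref (lift G) κ (Mixed ord s) L → B l ≤ (max s L : ℕ)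

end Pool.Agent.DAQ
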