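import Pool.Agent.DAO.IDX
import Pool.Agent.DAQ.Defs

/-!
# Project DAQ, module IDB: the formula with tables (clauses of any width)

Adapted from `Pool/Agent/DAO/IDX.lean`.
-/

set_option autoImplicit false

namespace Pool.Agent.DAQ

open Finset Pool.Agent.OB Pool.Agent.DGO

namespace MIDB

variable {I : Type} [Fintype I] [DecidableEq I] {M : ℕ}

open DAO DAO.MIDX

theorem widthB {G : CNF I} {b : ℕ} (hb : 2 ≤ b) (hG : ∀ C ∈ G, C.card ≤ b) :
    ∀ D ∈ DAO.idx M G, D.card ≤ 2 * b := by
  intro D hD
  rcases mem_idx.1 hD with ⟨i, rfl⟩ | ⟨i, rfl⟩ | ⟨i, j, rfl⟩ | ⟨C, hC, p, rfl⟩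
  · rw [card_singleton]
    omega
  · rw [card_singleton]
    omega
  · refine (card_insert_le _ _).trans ?_
    have h1 := card_insert_le ((1, i, j.castSucc), true)
      ({((0, i, j.castSucc), true)} : Clause (Fin 3 × I × Fin (M + 1)))
    rw [card_singleton] at h1
    omega
  · have h1 := hG C hC
    unfold cl
    refine (card_union_le _ _).trans ?_
    have h2 : (C.image fun l => (((0 : Fin 3), l.1, p l.1), false)).card ≤ C.card := card_image_le
    have h3 : (C.image fun l => (((2 : Fin 3), l.1, p l.1), l.2)).card ≤ C.card := card_image_le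
    omega

theorem count_clB (C : Clause I) {b : ℕ} (hC : C.card ≤ b) :
    ((univ : Finset (I → Fin (M + 1))).image fun p => cl C p).card ≤ (M + 1) ^ b := by
  obtain ⟨S, hS⟩ : ∃ S : Finset I, S = C.image Prod.fst := ⟨_, rfl⟩
  have hSc : S.card ≤ b := by
    rw [hS]
    exact card_image_le.trans hC
  have hsub : ((univ : Finset (I → Fin (M + 1))).image fun p => cl C p) ⊆
      (univ : Finset ({i // i ∈ S} → Fin (M + 1))).image
        fun r => cl C fun i => if h : i ∈ S then r ⟨i, h⟩ else 0 := by
    intro D hD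
    obtain ⟨p, -, rfl⟩ := mem_image.1 hD
    refine mem_image.2 ⟨fun i => p i.1, mem_univ _, ?_⟩
    have hp : ∀ l ∈ C, (if h : l.1 ∈ S then p l.1 else 0) = p l.1 := by
      intro l hl
      have h : l.1 ∈ S := by
        rw [hS]
        exact mem_image_of_mem Prod.fst hl
      rw [dif_pos h]
    unfold cl
    congr 1
    · refine image_congr fun l hl => ?_
      show (((0 : Fin 3), l.1, (if h : l.1 ∈ S then p l.1 else 0)), false) = _
      rw [hp l hl]
    · refine image_congr fun l hl => ?_
      show (((2 : Fin 3), l.1, (if h : l.1 ∈ S then p l.1 else 0)), l.2) = _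
      rw [hp l hl]
  calc ((univ : Finset (I → Fin (M + 1))).image fun p => cl C p).card
      ≤ ((univ : Finset ({i // i ∈ S} → Fin (M + 1))).image
        fun r => cl C fun i => if h : i ∈ S then r ⟨i, h⟩ else 0).card := card_le_card hsub
    _ ≤ (univ : Finset ({i // i ∈ S} → Fin (M + 1))).card := card_image_le
    _ = (M + 1) ^ S.card := by
      rw [card_univ, Fintype.card_fun, Fintype.card_fin, Fintype.card_coe]
    _ ≤ (M + 1) ^ b := Nat.pow_le_pow_right (by omega) hSc

theorem countB {G : CNF I} {b : ℕ} (hG : ∀ C ∈ G, C.card ≤ b) : (DAO.idx M G).card ≤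
    2 * Fintype.card I + Fintype.card I * M + G.card * (M + 1) ^ b := by
  unfold DAO.idx
  refine (card_union_le _ _).trans ?_
  refine add_le_add ?_ (card_biUnion_le_card_mul _ _ _ fun C hC => count_clB C (hG C hC))
  refine (card_union_le _ _).trans ?_
  refine add_le_add ?_ ?_
  · refine (card_union_le _ _).trans ?_
    rw [two_mul]
    exact add_le_add (card_image_le.trans (le_of_eq card_univ))
      (card_image_le.trans (le_of_eq card_univ))
  · refine card_image_le.trans (le_of_eq ?_)
    rw [card_univ, Fintype.card_prod, Fintype.card_fin]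

end MIDB

/-- IDB: the formula with tables. -/
theorem t_IDB (I : Type) [Fintype I] [DecidableEq I] (M b : ℕ) (G : CNF I) (hb : 2 ≤ b)
    (hG : ∀ C ∈ G, C.card ≤ b) : (Unsat G → Unsat (DAO.idx M G)) ∧
    (∀ D ∈ DAO.idx M G, D.card ≤ 2 * b) ∧
    (DAO.idx M G).card ≤ 2 * Fintype.card I + Fintype.card I * M + G.card * (M + 1) ^ b :=
  ⟨DAO.MIDX.unsat, MIDB.widthB hb hG, MIDB.countB hG⟩

end Pool.Agent.DAQ
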