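import Pool.Agent.DAQ.St
import Pool.Agent.DAP.Main0

/-!
# Project DAQ: the assembly
-/

set_option autoImplicit false

namespace Pool.Agent.DAQ

open Finset Pool.Agent.OB Pool.Agent.DGO

theorem lift_eq {I : Type} [Fintype I] [DecidableEq I] (G : CNF I) :
    lift G = DAO.adr (3 * bits (Fintype.card I)) (DAO.idx (2 ^ bits (Fintype.card I)) G) := rfl

theorem card_LV (I : Type) [Fintype I] : Fintype.card (LV I) =
    2 ^ (3 * bits (Fintype.card I)) +
      3 * (Fintype.card I * (2 ^ bits (Fintype.card I) + 1)) * (3 * bits (Fintype.card I)) := by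
  simp only [LV, Fintype.card_sum, Fintype.card_prod, Fintype.card_fin, Fintype.card_fun,
    Fintype.card_bool]

theorem run_eq {V : Type*} {w : ℕ} (δ : ℕ → Fin w → Bool → Fin w) (σ : ℕ → V) (q : Fin w)
    (x : V → Bool) (t : ℕ) : DAP.run δ σ q x t = run δ σ q x t := by
  induction t with
  | zero => rfl
  | succ t ih =>
    show δ t (DAP.run δ σ q x t) _ = δ t (run δ σ q x t) _
    rw [ih]

theorem prog_dap {V : Type*} [Fintype V] {σ : ℕ → V} {T w : ℕ} {f : (V → Bool) → Bool}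
    (h : Prog σ T w f) : DAP.Prog σ T w f := by
  obtain ⟨δ, q, a, b, hf⟩ := h
  refine ⟨δ, q, a, b, fun x => ?_⟩
  rw [run_eq]
  exact hf x

theorem ref_dap {V : Type*} {F : CNF V} {κ κ' : ℕ} (h : κ ≤ κ')
    {A A' : ((V → Bool) → Bool) → Prop} (hA : ∀ f, A f → A' f) {L : ℕ} (hr : Ref F κ A L) :
    DAP.Ref F κ' A' L := by
  obtain ⟨f, hf, hlast⟩ := hr
  refine ⟨f, fun k hk => ?_, hlast⟩
  obtain ⟨h1, E, S, h2, h3, h4, h5, h6⟩ := hf k hk
  exact ⟨hA _ h1, E, S, h2, h3.trans h, h4.trans h, h5, h6⟩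

theorem ref_mono {V : Type*} {F : CNF V} {κ κ' : ℕ} (h : κ ≤ κ')
    {A : ((V → Bool) → Bool) → Prop} {L : ℕ} (hr : Ref F κ A L) : Ref F κ' A L := by
  obtain ⟨f, hf, hlast⟩ := hr
  refine ⟨f, fun k hk => ?_, hlast⟩
  obtain ⟨h1, E, S, h2, h3, h4, h5, h6⟩ := hf k hk
  exact ⟨h1, E, S, h2, h3.trans h, h4.trans h, h5, h6⟩

theorem t_CORE (hREF : DAP.S_REF) (hNUG : S_NUG) (hNUI : S_NUI) (hNUK : S_NUK)
    (hNUB : DAO.S_NUB) (hOBD : DAO.S_OBD) (hOBM : DAO.S_OBM) : S_CORE := by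
  classical
  intro I _ _ G H n N W κ hn hN hn2 hu hC3 hstr hWn hκ
  subst hn
  set a := Nat.clog 2 (2 ^ 16 * Fintype.card I ^ 8) with ha
  have hbits : bits (Fintype.card I) = 4 * a := rfl
  have hN' : N = 2 ^ (3 * (4 * a)) +
      3 * (Fintype.card I * (2 ^ (4 * a) + 1)) * (3 * (4 * a)) := by
    rw [hN, card_LV, hbits]
  obtain ⟨h1, h2, h3, h4, -, h6, h7, h8, h9, h10⟩ :=
    hNUG (Fintype.card I) a (4 * a) N 0 hn2 ha rfl hN'
  obtain ⟨hbT, hbl⟩ := hNUB a (4 * a) N h7 rfl h4 h10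
  have h3' : 2 ^ (12 * a) ≤ N := by
    have : 12 * a = 3 * (4 * a) := by ring
    rw [this]
    exact h3
  have hne : G.Nonempty := by
    obtain ⟨C, hC, -⟩ := hu fun _ => false
    exact ⟨C, hC⟩
  have hpart1 : ∀ (σ : ℕ → LV I) (T w L : ℕ), (T : ℝ) ≤ 1 / 64 * N * Real.logb 2 N →
      DAP.Ref (lift G) κ (DAP.Prog σ T w) L →
      (W : ℝ) ≤ 500 * (κ : ℝ) ^ 2 * Real.logb 2 N * Real.logb 2 ((max w L : ℕ) + 1) := by
    intro σ T w L hT href
    have hL : 1 ≤ L := by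
      obtain ⟨f, -, k, hk, -⟩ := href
      omega
    refine hNUK (Fintype.card I) a N W κ w L hn2 ha h3' hWn hκ hL ?_
    rcases Nat.lt_or_ge 256 (Fintype.card I) with hbig | hsmall
    · right
      rcases Nat.lt_or_ge W (3 * max κ 2) with hW3 | hW3
      · exact Or.inl hW3
      right
      rcases Nat.lt_or_ge (2 ^ (Fintype.card I * a)) ((L + 1) *
        2 ^ ((max κ 2 + 1) * ((4 * a ^ 2 + 1) * Nat.clog 2 w) + 1)) with hlt | hge
      · exact Or.inl hlt
      right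
      obtain ⟨hi1, hi2⟩ := hNUI (Fintype.card I) a
        (Fintype.card I * (4 * a) + 3 * Fintype.card I + 1 + Fintype.card I * a) hbig.le ha rfl
      have hr : (max κ 2 + 1) * ((W - 3 * max κ 2) / (max κ 2 + 1)) + 3 * max κ 2 ≤ W := by
        have := Nat.mul_div_le (W - 3 * max κ 2) (max κ 2 + 1)
        omega
      exact hREF I (3 * (4 * a)) a T w L a
        (Fintype.card I * (4 * a) + 3 * Fintype.card I + 1 + Fintype.card I * a)
        ((W - 3 * max κ 2) / (max κ 2 + 1)) W (Fintype.card I * a) (max κ 2)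
        G H σ h7 h8 (hbT T hT) h9 (le_trans (by norm_num) hbig.le) hi1 hi2 rfl hge
        (le_max_right _ _) hne hstr hr hC3 (DAP.ref_mono (le_max_left _ _) (fun _ h => h) href)
    · exact Or.inl hsmall
  refine ⟨fun σ T w L hT href => hpart1 σ T w L hT (ref_dap le_rfl (fun _ h => prog_dap h) href),
    fun l s L ord hl href => ?_⟩
  have hL : 1 ≤ L := by
    obtain ⟨f, -, k, hk, -⟩ := href
    omega
  have hVpos : 0 < Fintype.card (LV I) := by rw [← hN]; omega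
  let ord' : Fin (l + 1) → (LV I ≃ Fin (Fintype.card (LV I))) :=
    Fin.cons (Fintype.equivFin (LV I)) ord
  let σ : ℕ → LV I := fun τ =>
    (ord' (Fin.ofNat (l + 1) (τ / Fintype.card (LV I)))).symm
      ⟨τ % Fintype.card (LV I), Nat.mod_lt _ hVpos⟩
  have hσ : ∀ (k : Fin (l + 1)) (j : Fin (Fintype.card (LV I))),
      σ (k * Fintype.card (LV I) + j) = (ord' k).symm j := by
    intro k j
    have e1 : ((k : ℕ) * Fintype.card (LV I) + j) / Fintype.card (LV I) = k := by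
      rw [Nat.mul_comm, Nat.mul_add_div hVpos, Nat.div_eq_of_lt j.2, Nat.add_zero]
    have e2 : ((k : ℕ) * Fintype.card (LV I) + j) % Fintype.card (LV I) = j := by
      rw [Nat.mul_comm, Nat.mul_add_mod, Nat.mod_eq_of_lt j.2]
    have e3 : Fin.ofNat (l + 1) (((k : ℕ) * Fintype.card (LV I) + j) / Fintype.card (LV I)) = k := by
      rw [e1]
      exact DAO.ofNat_val k
    have e4 : (⟨((k : ℕ) * Fintype.card (LV I) + j) % Fintype.card (LV I),
        Nat.mod_lt _ hVpos⟩ : Fin (Fintype.card (LV I))) = j := Fin.ext e2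
    show (ord' (Fin.ofNat (l + 1) (((k : ℕ) * Fintype.card (LV I) + j) /
      Fintype.card (LV I)))).symm _ = _
    rw [e3, e4]
  have href' : DAP.Ref (lift G) κ (DAP.Prog σ ((l + 1) * Fintype.card (LV I)) (max s 1)) L := by
    refine ref_dap le_rfl (fun f hf => ?_) href
    rcases hf with ⟨i, s', hs', hob⟩ | hin
    · refine DAP.prog_of_obl (hOBM _ σ _ s (max s 1) f (le_max_left _ _) ?_)
      exact hOBD _ (l + 1) s s' ord' i.succ f σ hs'
        (by rw [show ord' i.succ = ord i from Fin.cons_succ _ _ _]; exact hob) hσ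
    · exact DAP.prog_of_ineq (le_max_right _ _) hin
  have hT := hbl l hl
  have key := hpart1 σ ((l + 1) * Fintype.card (LV I)) (max s 1) L
    (by rw [← hN]; exact hT) href'
  have hmax : max (max s 1) L = max s L := by omega
  rw [hmax] at key
  exact key

theorem t_LIFT (hCORE : S_CORE) (hSTR : S_STR) (hFUL : S_FUL) (hIDX : DAO.S_IDX)
    (hADR : DAO.S_ADR) (hNUG : S_NUG) : S_LIFT := by
  classical
  intro I _ _ G n N hn hN hn2 hu hC3
  subst hn
  have hN' : N = 2 ^ (3 * bits (Fintype.card I)) +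
      3 * (Fintype.card I * (2 ^ bits (Fintype.card I) + 1)) * (3 * bits (Fintype.card I)) := by
    rw [hN, card_LV]
  obtain ⟨h1, h2, h3, h4, h5, h6, -⟩ :=
    hNUG (Fintype.card I) (Nat.clog 2 (2 ^ 16 * Fintype.card I ^ 8)) (bits (Fintype.card I)) N
      G.card hn2 rfl rfl hN'
  obtain ⟨hi1, hi2, hi3⟩ := hIDX I (2 ^ bits (Fintype.card I)) G hC3
  obtain ⟨hd1, hd2, hd3⟩ := hADR _ (3 * bits (Fintype.card I))
    (DAO.idx (2 ^ bits (Fintype.card I)) G) hi2
  refine ⟨h1, h2, hd1 (hi1 hu), hd3.trans ((Nat.mul_le_mul_right _ hi3).trans h5), ?_, ?_⟩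
  · intro C hC
    obtain ⟨q1, q2⟩ := hd2 C hC
    exact ⟨q2.trans h6, q1⟩
  · intro W hW κ hκ
    obtain ⟨H, hH⟩ := hSTR I G W hW
    exact hCORE I G H _ N W κ rfl hN hn2 hu hC3 hH (hFUL I G W H hH hu).le hκ

theorem t_PART2 (hCORE : S_CORE) (hPHP : Pool.Agent.DGO.S_PHP) (hIDX : DAO.S_IDX)
    (hADR : DAO.S_ADR) (hNUE : DAP.S_NUE) (hNUJ : S_NUJ) : S_PART2 := by
  classical
  obtain ⟨m₁, hm₁⟩ := hNUJ
  refine ⟨max m₁ 10, fun m hm N hN => ?_⟩
  have hm1 : m₁ ≤ m := (le_max_left _ _).trans hm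
  have hm10 : 10 ≤ m := (le_max_right _ _).trans hm
  obtain ⟨hu, hw3, hcnt, hcard, H, hH⟩ := hPHP m (le_trans (by norm_num) hm10)
  have hN' : N = 2 ^ (3 * bits (Fintype.card (PV m))) +
      3 * (Fintype.card (PV m) * (2 ^ bits (Fintype.card (PV m)) + 1)) *
        (3 * bits (Fintype.card (PV m))) := by
    rw [hN, card_LV]
  obtain ⟨h1, h2, h3, h4, h5, h6, -⟩ :=
    hNUE m (Fintype.card (PV m)) (Nat.clog 2 (2 ^ 16 * Fintype.card (PV m) ^ 8))
      (bits (Fintype.card (PV m))) N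
      (Fintype.card (PV m) * (4 * Nat.clog 2 (2 ^ 16 * Fintype.card (PV m) ^ 8)) +
        3 * Fintype.card (PV m) + 1 + m) hm10 hcard rfl rfl hN' rfl
  obtain ⟨hi1, hi2, hi3⟩ := hIDX _ (2 ^ bits (Fintype.card (PV m))) (EPHP m) hw3
  obtain ⟨hd1, hd2, hd3⟩ := hADR _ (3 * bits (Fintype.card (PV m)))
    (DAO.idx (2 ^ bits (Fintype.card (PV m))) (EPHP m)) hi2
  refine ⟨h1, h2, hd1 (hi1 hu), hd3.trans ((Nat.mul_le_mul_right _ (hi3.trans
      (Nat.add_le_add_left (Nat.mul_le_mul_right _ hcnt) _))).trans h5), ?_, fun κ hκ => ?_⟩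
  · intro C hC
    obtain ⟨q1, q2⟩ := hd2 C hC
    exact ⟨q2.trans h6, q1⟩
  · have hNpos : (1 : ℝ) ≤ (N : ℝ) := by
      have : 1 ≤ N := le_trans (le_trans (by norm_num) hm10) h1
      exact_mod_cast this
    have hκ1 : ((max κ 1 : ℕ) : ℝ) ≤ (N : ℝ) ^ (1 / 8000 : ℝ) := by
      rw [Nat.cast_max, Nat.cast_one]
      exact max_le hκ (Real.one_le_rpow hNpos (by norm_num))
    have hn2 : 2 ≤ Fintype.card (PV m) := by
      rw [hcard]
      nlinarith
    have hmn : m ≤ Fintype.card (PV m) := by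
      rw [hcard]
      nlinarith
    obtain ⟨hc1, hc2⟩ := hCORE (PV m) (php m) H _ N m (max κ 1)
      rfl hN hn2 hu hw3 hH hmn (le_max_right _ _)
    refine ⟨fun σ T w L hT href => ?_, fun l s L ord hl href => ?_⟩
    · have hL : 1 ≤ L := by
        obtain ⟨f, -, k, hk, -⟩ := href
        omega
      exact hm₁ m hm1 N (max κ 1) (max w L) h1 h2 (hL.trans (le_max_right _ _)) hκ1
        (hc1 σ T w L hT (ref_mono (le_max_left _ _) href))
    · have hL : 1 ≤ L := by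
        obtain ⟨f, -, k, hk, -⟩ := href
        omega
      exact hm₁ m hm1 N (max κ 1) (max s L) h1 h2 (hL.trans (le_max_right _ _)) hκ1
        (hc2 l s L ord hl (ref_mono (le_max_left _ _) href))

end Pool.Agent.DAQ
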