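import Pool.Agent.DAQ.NUG
import Pool.Agent.DAQ.IDB
import Pool.Agent.DAQ.ADB
import Pool.Agent.DAQ.Main0

/-!
# Project DAQ, module LIB: the lifted formula
-/

set_option autoImplicit false

namespace Pool.Agent.DAQ

open Finset Pool.Agent.OB

/-- The number of the clauses. -/
theorem clausesB {n t N b : ℕ} (g : ℕ) (hb : 1 ≤ b) (ht : 4 ≤ t) (hn : n ≤ 2 ^ t)
    (hN : 2 ^ (3 * t) ≤ N) :
    (2 * n + n * 2 ^ t + g * (2 ^ t + 1) ^ b) * 2 ^ (2 * b * (3 * t)) ≤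
      (g + 1) * N ^ (3 * b) := by
  have hX : 16 ≤ 2 ^ t := by
    calc 16 = 2 ^ 4 := by norm_num
      _ ≤ 2 ^ t := Nat.pow_le_pow_right (by norm_num) ht
  have hN1 : 1 ≤ N := le_trans (Nat.one_le_two_pow) hN
  have e3 : 2 ^ (3 * t) = (2 ^ t) ^ 3 := by
    rw [← pow_mul]
    congr 1
    ring
  have h1 : 2 ^ (2 * b * (3 * t)) ≤ N ^ (2 * b) := by
    calc 2 ^ (2 * b * (3 * t)) = (2 ^ (3 * t)) ^ (2 * b) := by
          rw [← pow_mul]
          congr 1
          ring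
      _ ≤ N ^ (2 * b) := Nat.pow_le_pow_left hN _
  have h2 : 2 * n + n * 2 ^ t ≤ N ^ b := by
    have h3 : 2 * n + n * 2 ^ t ≤ 2 ^ (3 * t) := by
      rw [e3]
      generalize 2 ^ t = X at *
      calc 2 * n + n * X ≤ 2 * X + X * X := Nat.add_le_add (Nat.mul_le_mul_left _ hn)
            (Nat.mul_le_mul_right _ hn)
        _ ≤ X * X + X * X := Nat.add_le_add_right (Nat.mul_le_mul_right _ (by omega)) _
        _ = 2 * (X * X) := by ring
        _ ≤ X * (X * X) := Nat.mul_le_mul_right _ (by omega)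
        _ = X ^ 3 := by ring
    exact (h3.trans hN).trans (Nat.le_self_pow (by omega) N)
  have h4 : (2 ^ t + 1) ^ b ≤ N ^ b := by
    refine Nat.pow_le_pow_left (le_trans ?_ hN) _
    rw [e3]
    generalize 2 ^ t = X at *
    calc X + 1 ≤ X * X := by nlinarith
      _ ≤ X * X * X := Nat.le_mul_of_pos_right _ (by omega)
      _ = X ^ 3 := by ring
  calc (2 * n + n * 2 ^ t + g * (2 ^ t + 1) ^ b) * 2 ^ (2 * b * (3 * t))
      ≤ (N ^ b + g * N ^ b) * N ^ (2 * b) :=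
        Nat.mul_le_mul (Nat.add_le_add h2 (Nat.mul_le_mul_left _ h4)) h1
    _ = (g + 1) * N ^ (3 * b) := by
        rw [show 3 * b = b + 2 * b by ring, pow_add]
        ring

/-- The lifted formula. -/
theorem t_LIB (I : Type) [Fintype I] [DecidableEq I] (G : CNF I) (n N b : ℕ)
    (hn : n = Fintype.card I) (hN : N = Fintype.card (LV I)) (hn2 : 2 ≤ n) (hb : 2 ≤ b)
    (hu : Unsat G) (hC : ∀ C ∈ G, C.card ≤ b) :
    n ≤ N ∧ N ≤ n ^ 500 ∧ Unsat (lift G) ∧ (lift G).card ≤ (G.card + 1) * N ^ (3 * b) ∧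
    ∀ C ∈ lift G, C.card ≤ 4 * b * Nat.log 2 N ∧ ¬ Taut C := by
  classical
  subst hn
  have hN' : N = 2 ^ (3 * bits (Fintype.card I)) +
      3 * (Fintype.card I * (2 ^ bits (Fintype.card I) + 1)) * (3 * bits (Fintype.card I)) := by
    rw [hN, card_LV]
  obtain ⟨h1, h2, h3, -, -, -, ha, -⟩ :=
    t_NUG (Fintype.card I) (Nat.clog 2 (2 ^ 16 * Fintype.card I ^ 8)) (bits (Fintype.card I)) N
      G.card hn2 rfl rfl hN'
  have hbits : bits (Fintype.card I) = 4 * Nat.clog 2 (2 ^ 16 * Fintype.card I ^ 8) := rfl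
  have ht4 : 4 ≤ bits (Fintype.card I) := by omega
  have hnt : Fintype.card I ≤ 2 ^ bits (Fintype.card I) := by
    have := (MNUG.basic hn2 (rfl : Nat.clog 2 (2 ^ 16 * Fintype.card I ^ 8) = _)).n_le
    exact this.trans (Nat.pow_le_pow_right (by norm_num) (by omega))
  obtain ⟨hi1, hi2, hi3⟩ := t_IDB I (2 ^ bits (Fintype.card I)) b G hb hC
  obtain ⟨hd2, hd3⟩ := t_ADB _ (3 * bits (Fintype.card I)) (2 * b)
    (DAO.idx (2 ^ bits (Fintype.card I)) G) hi2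
  refine ⟨h1, h2, adr_unsat _ _ _ (hi1 hu), hd3.trans ((Nat.mul_le_mul_right _ hi3).trans
    (clausesB G.card (by omega) ht4 hnt h3)), ?_⟩
  intro C hC'
  obtain ⟨q1, q2⟩ := hd2 C hC'
  refine ⟨q2.trans ?_, q1⟩
  have h5 : 3 * bits (Fintype.card I) ≤ Nat.log 2 N := Nat.le_log_of_pow_le one_lt_two h3
  calc 2 * b * (3 * bits (Fintype.card I) + 1) ≤ 2 * b * (2 * Nat.log 2 N) :=
        Nat.mul_le_mul_left _ (by omega)
    _ = 4 * b * Nat.log 2 N := by ring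

end Pool.Agent.DAQ
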