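import Pool.Agent.DAQ.St

/-!
# Project DAQ, module NUG: the numbers, part 1
-/

set_option autoImplicit false

namespace Pool.Agent.DAQ

namespace MNUG

theorem four_mul_le {a : ℕ} (h : 4 ≤ a) : 4 * a ≤ 2 ^ a := by
  induction a, h using Nat.le_induction with
  | base => norm_num
  | succ k hk ih =>
    rw [pow_succ]
    omega

/-- The basic facts. -/
structure Basic (n a : ℕ) : Prop where
  hn : 2 ≤ n
  lo : 2 ^ 16 * n ^ 8 ≤ 2 ^ a
  up : 2 ^ a ≤ 2 ^ 17 * n ^ 8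
  n_le : n ≤ 2 ^ a
  a_ge : 24 ≤ a

theorem basic {n a : ℕ} (hn : 2 ≤ n) (ha : a = Nat.clog 2 (2 ^ 16 * n ^ 8)) : Basic n a := by
  have hlo : 2 ^ 16 * n ^ 8 ≤ 2 ^ a := by rw [ha]; exact Nat.le_pow_clog one_lt_two _
  have hn8 : n ≤ n ^ 8 := Nat.le_self_pow (by norm_num) n
  have hn28 : 2 ^ 8 ≤ n ^ 8 := Nat.pow_le_pow_left hn 8
  have hage : 24 ≤ a := by
    by_contra h
    have h1 : (2 : ℕ) ^ a ≤ 2 ^ 23 := Nat.pow_le_pow_right (by norm_num) (by omega)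
    have h2 : (2 : ℕ) ^ 23 = 8388608 := by norm_num
    have h3 : (2 : ℕ) ^ 16 = 65536 := by norm_num
    have h4 : (2 : ℕ) ^ 8 = 256 := by norm_num
    omega
  have hup : 2 ^ a ≤ 2 ^ 17 * n ^ 8 := by
    have h1 : 2 ^ (Nat.clog 2 (2 ^ 16 * n ^ 8)).pred < 2 ^ 16 * n ^ 8 :=
      Nat.pow_pred_clog_lt_self one_lt_two (by omega)
    rw [← ha] at h1
    obtain ⟨b, rfl⟩ : ∃ b, a = b + 1 := ⟨a - 1, by omega⟩
    rw [Nat.pred_succ] at h1
    rw [pow_succ]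
    omega
  exact
    { hn := hn
      lo := hlo
      up := hup
      n_le := by omega
      a_ge := hage }

section

variable {n a : ℕ} (h : Basic n a)

include h

omit h in
/-- `X = 2 ^ (4 a)` is large. -/
theorem X_ge : 2 ^ a ≤ 2 ^ (4 * a) := Nat.pow_le_pow_right (by norm_num) (by omega)

theorem four_a : 4 * a ≤ 2 ^ a := four_mul_le (by have := h.a_ge; omega)

theorem pow_ge : 512 ≤ 2 ^ a := by
  calc 512 = 2 ^ 9 := by norm_num
    _ ≤ 2 ^ a := Nat.pow_le_pow_right (by norm_num) (by have := h.a_ge; omega)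

/-- The second summand of `N`. -/
theorem second : 3 * (n * (2 ^ (4 * a) + 1)) * (3 * (4 * a)) ≤ 2 ^ (3 * (4 * a)) := by
  have h1 := four_a h
  have h2 := h.n_le
  have h3 : 2 ^ (4 * a) + 1 ≤ 2 * 2 ^ (4 * a) := by
    have := Nat.one_le_two_pow (n := 4 * a)
    omega
  have h4 := h.a_ge
  calc 3 * (n * (2 ^ (4 * a) + 1)) * (3 * (4 * a))
      ≤ 3 * (2 ^ a * (2 * 2 ^ (4 * a))) * (3 * 2 ^ a) := by gcongr
    _ = 18 * 2 ^ (6 * a) := by
        rw [show 6 * a = a + 4 * a + a by ring, pow_add, pow_add]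
        ring
    _ ≤ 2 ^ 5 * 2 ^ (6 * a) := by gcongr; norm_num
    _ = 2 ^ (5 + 6 * a) := by rw [pow_add]
    _ ≤ 2 ^ (3 * (4 * a)) := Nat.pow_le_pow_right (by norm_num) (by omega)

/-- `2 ^ (3 t + 1) ≤ n ^ 500` -/
theorem upper : 2 ^ (3 * (4 * a) + 1) ≤ n ^ 500 := by
  have hn := h.hn
  calc 2 ^ (3 * (4 * a) + 1) = 2 * (2 ^ a) ^ 12 := by
        rw [← pow_mul, pow_succ]
        ring
    _ ≤ 2 * (2 ^ 17 * n ^ 8) ^ 12 := by
        gcongr
        exact h.up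
    _ = 2 ^ 205 * n ^ 96 := by ring
    _ ≤ n ^ 205 * n ^ 96 := by gcongr
    _ = n ^ 301 := by ring
    _ ≤ n ^ 500 := Nat.pow_le_pow_right (by omega) (by norm_num)

/-- The number of the clauses. -/
theorem clauses (g : ℕ) : (2 * n + n * 2 ^ (4 * a) + g * (2 ^ (4 * a) + 1) ^ 3) *
    2 ^ (6 * (3 * (4 * a))) ≤ (g + 1) * (2 ^ (3 * (4 * a))) ^ 500 := by
  have h1 : n ≤ 2 ^ (4 * a) := h.n_le.trans X_ge
  have h3 : 512 ≤ 2 ^ (4 * a) := (pow_ge h).trans X_ge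
  have e1 : 2 ^ (6 * (3 * (4 * a))) = (2 ^ (4 * a)) ^ 18 := by
    rw [← pow_mul]
    congr 1
    ring
  have e2 : (2 ^ (4 * a)) ^ 22 ≤ (2 ^ (3 * (4 * a))) ^ 500 := by
    rw [← pow_mul, ← pow_mul]
    exact Nat.pow_le_pow_right (by norm_num) (by omega)
  refine le_trans ?_ (Nat.mul_le_mul_left _ e2)
  rw [e1]
  clear e1 e2
  generalize 2 ^ (4 * a) = X at *
  have hX1 : 1 ≤ X := by omega
  have g1 : 2 * n + n * X + g * (X + 1) ^ 3 ≤ (g + 1) * X ^ 4 := by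
    have g2 : X ≤ X ^ 3 := Nat.le_self_pow (by norm_num) X
    have g3 : X * X ≤ X ^ 3 := by
      calc X * X = X ^ 2 := by ring
        _ ≤ X ^ 3 := Nat.pow_le_pow_right hX1 (by norm_num)
    have g5 : 8 * X ^ 3 ≤ X ^ 4 := by
      calc 8 * X ^ 3 ≤ X * X ^ 3 := Nat.mul_le_mul_right _ (by omega)
        _ = X ^ 4 := by ring
    have g4 : g * (X + 1) ^ 3 ≤ g * X ^ 4 := by
      refine Nat.mul_le_mul_left _ ?_
      calc (X + 1) ^ 3 ≤ (2 * X) ^ 3 := Nat.pow_le_pow_left (by omega) 3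
        _ = 8 * X ^ 3 := by ring
        _ ≤ X ^ 4 := g5
    have g6 : n * X ≤ X * X := Nat.mul_le_mul_right _ h1
    rw [Nat.add_mul, Nat.one_mul]
    omega
  calc (2 * n + n * X + g * (X + 1) ^ 3) * X ^ 18 ≤ (g + 1) * X ^ 4 * X ^ 18 := by gcongr
    _ = (g + 1) * X ^ 22 := by ring

theorem eight : 2 ^ (2 * a + 5) * (2 * n * (2 ^ (4 * a) + 1)) ≤ 2 ^ (3 * (4 * a)) := by
  have h2 := h.n_le
  have h3 : 2 ^ (4 * a) + 1 ≤ 2 * 2 ^ (4 * a) := by
    have := Nat.one_le_two_pow (n := 4 * a)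
    omega
  have h4 := h.a_ge
  calc 2 ^ (2 * a + 5) * (2 * n * (2 ^ (4 * a) + 1))
      ≤ 2 ^ (2 * a + 5) * (2 * 2 ^ a * (2 * 2 ^ (4 * a))) := by gcongr
    _ = 2 ^ (2 * a + 5) * 2 ^ a * 2 ^ (4 * a) * 2 ^ 2 := by ring
    _ = 2 ^ (7 * a + 7) := by
        rw [← pow_add, ← pow_add, ← pow_add]
        congr 1
        ring
    _ ≤ 2 ^ (3 * (4 * a)) := Nat.pow_le_pow_right (by norm_num) (by omega)

end

end MNUG

open MNUG

theorem t_NUG : S_NUG := by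
  intro n a t N g hn ha ht hN
  have h := basic hn ha
  subst ht
  have h1 := second h
  have hlo : 2 ^ (3 * (4 * a)) ≤ N := by
    rw [hN]
    exact Nat.le_add_right _ _
  have hup : N ≤ 2 ^ (3 * (4 * a) + 1) := by
    rw [hN, pow_succ]
    omega
  have hage := h.a_ge
  have h2a : 2 ^ a ≤ 2 ^ (3 * (4 * a)) := Nat.pow_le_pow_right (by norm_num) (by omega)
  have h4a := four_a h
  refine ⟨?_, hup.trans (upper h), hlo, hup, ?_, ?_, by omega, ?_, eight h, ?_⟩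
  · have := h.n_le
    omega
  · exact (clauses h g).trans (Nat.mul_le_mul_left _ (Nat.pow_le_pow_left hlo _))
  · have h2 : 3 * (4 * a) ≤ Nat.log 2 N := Nat.le_log_of_pow_le one_lt_two hlo
    omega
  · have h3 : 2 ^ (a + 1) ≤ 2 ^ (3 * (4 * a)) := Nat.pow_le_pow_right (by norm_num) (by omega)
    rw [pow_succ] at h3
    omega
  · exact (Nat.pow_le_pow_right (by norm_num) (by omega)).trans hlo

end Pool.Agent.DAQ
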