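import Pool.Agent.DAQ.St

/-!
# Project DAQ, module NUI: the numbers, part 2
-/

set_option autoImplicit false

namespace Pool.Agent.DAQ

namespace MNUI

/-- The bound for `a`. -/
theorem a_le {n a : ℕ} (ha : a = Nat.clog 2 (2 ^ 16 * n ^ 8)) : a ≤ 24 + 8 * Nat.log 2 n := by
  have h1 : n < 2 ^ (Nat.log 2 n + 1) := Nat.lt_pow_succ_log_self one_lt_two n
  have h4 : 2 ^ 16 * n ^ 8 ≤ 2 ^ (24 + 8 * Nat.log 2 n) := by
    calc 2 ^ 16 * n ^ 8 ≤ 2 ^ 16 * (2 ^ (Nat.log 2 n + 1)) ^ 8 := by gcongr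
      _ = 2 ^ (24 + 8 * Nat.log 2 n) := by
          rw [← pow_mul, ← pow_add]
          congr 1
          ring
  rw [ha]
  exact Nat.clog_le_of_le_pow h4

theorem log_small (F : ℕ) (hF : 8 ≤ F) : 247 + 80 * F ≤ 4 * 2 ^ F := by
  induction F, hF using Nat.le_induction with
  | base => norm_num
  | succ k hk ih =>
    rw [pow_succ]
    omega

theorem depth {n a : ℕ} (hn : 256 ≤ n) (ha : a = Nat.clog 2 (2 ^ 16 * n ^ 8)) :
    2 * (n * (4 * a) + 3 * n + 1 + n * a) + 1 ≤ 4 * n ^ 2 := by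
  have hF : 8 ≤ Nat.log 2 n := Nat.le_log_of_pow_le one_lt_two (by norm_num; exact hn)
  have h1 := log_small _ hF
  have h2 : 2 ^ Nat.log 2 n ≤ n := Nat.pow_log_le_self 2 (by omega)
  have h3 := a_le ha
  have h4 : 10 * a + 7 ≤ 4 * n := by omega
  calc 2 * (n * (4 * a) + 3 * n + 1 + n * a) + 1 ≤ n * (10 * a + 7) := by nlinarith
    _ ≤ n * (4 * n) := Nat.mul_le_mul_left _ h4
    _ = 4 * n ^ 2 := by ring

/-- The condition for the counting of the protocols. -/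
theorem protocols {n a d : ℕ} (hn : 256 ≤ n) (hlo : 2 ^ 16 * n ^ 8 ≤ 2 ^ a)
    (h10 : 2 ^ 14 * n ^ 6 * (2 * d + 1) ≤ 2 ^ a) (hd : 2 * d + 1 ≤ 4 * n ^ 2) :
    16 * n * (2 ^ 11 * n ^ 6 * (2 * d + 1)) ^ n * 4 ^ d ≤ 2 ^ ((2 ^ a) ^ 2 / 2) := by
  have h1 : 2 ^ 11 * n ^ 6 * (2 * d + 1) ≤ 2 ^ a := by
    refine le_trans ?_ h10
    gcongr
    · norm_num
    · norm_num
  have h2 : n ≤ 2 ^ n := Nat.lt_two_pow_self.le
  have h3 : a ≤ 2 ^ a := Nat.lt_two_pow_self.le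
  calc 16 * n * (2 ^ 11 * n ^ 6 * (2 * d + 1)) ^ n * 4 ^ d
      ≤ 16 * 2 ^ n * (2 ^ a) ^ n * 4 ^ d := by gcongr
    _ = 2 ^ (4 + n + a * n + 2 * d) := by
        rw [pow_add 2 _ (2 * _), pow_add 2 _ (a * n), pow_add 2 4 n, pow_mul 2 a n,
          pow_mul 2 2 d]
        norm_num
    _ ≤ 2 ^ ((2 ^ a) ^ 2 / 2) := by
        refine Nat.pow_le_pow_right (by norm_num) ?_
        rw [Nat.le_div_iff_mul_le (by norm_num)]
        have g1 : n ≤ n ^ 8 := Nat.le_self_pow (by norm_num) n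
        have g2 : 65536 * n ≤ 2 ^ a := by
          have h4 : (2 : ℕ) ^ 16 = 65536 := by norm_num
          omega
        have g3 : 65536 ≤ 2 ^ a := by omega
        generalize 2 ^ a = Y at *
        have k1 : 65536 * (a * n) ≤ Y ^ 2 := by
          calc 65536 * (a * n) = a * (65536 * n) := by ring
            _ ≤ Y * Y := Nat.mul_le_mul h3 g2
            _ = Y ^ 2 := by ring
        have k2 : 65536 * n ≤ Y ^ 2 := by nlinarith
        have k3 : 65536 * n ^ 2 ≤ Y ^ 2 := by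
          have : n ≤ Y := by omega
          calc 65536 * n ^ 2 = n * (65536 * n) := by ring
            _ ≤ Y * Y := Nat.mul_le_mul this g2
            _ = Y ^ 2 := by ring
        have k4 : 65536 * 65536 ≤ Y ^ 2 := by nlinarith
        omega

end MNUI

open MNUI

theorem t_NUI : S_NUI := by
  intro n a d hn ha hd
  have hlo : 2 ^ 16 * n ^ 8 ≤ 2 ^ a := by rw [ha]; exact Nat.le_pow_clog one_lt_two _
  have hdep := depth hn ha
  rw [← hd] at hdep
  have h10 : 2 ^ 14 * n ^ 6 * (2 * d + 1) ≤ 2 ^ a := by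
    calc 2 ^ 14 * n ^ 6 * (2 * d + 1) ≤ 2 ^ 14 * n ^ 6 * (4 * n ^ 2) := Nat.mul_le_mul_left _ hdep
      _ = 2 ^ 16 * n ^ 8 := by ring
      _ ≤ 2 ^ a := hlo
  exact ⟨h10, protocols hn hlo h10 hdep⟩

end Pool.Agent.DAQ
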