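import Pool.Agent.DAQ.St

/-!
# Project DAQ, module NUJ: the numbers for the pigeonhole principle
-/

set_option autoImplicit false

namespace Pool.Agent.DAQ

theorem t_NUJ : S_NUJ := by
  refine ⟨2 ^ 48, fun m hm N κ S hmN hN hS hκ h => ?_⟩
  have hmR : ((2 : ℝ) ^ 48) ≤ (m : ℝ) := by exact_mod_cast hm
  have hmpos : (0 : ℝ) < m := lt_of_lt_of_le (by positivity) hmR
  obtain ⟨x, hx⟩ : ∃ x, x = (m : ℝ) ^ (1 / 16 : ℝ) := ⟨_, rfl⟩
  have hx16 : x ^ 16 = (m : ℝ) := by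
    rw [hx, ← Real.rpow_natCast, ← Real.rpow_mul hmpos.le]
    norm_num
  have hx8 : 8 ≤ x := by
    have h1 : (8 : ℝ) = ((2 : ℝ) ^ 48) ^ (1 / 16 : ℝ) := by
      rw [show ((2 : ℝ) ^ 48) = (8 : ℝ) ^ (16 : ℕ) by norm_num, ← Real.rpow_natCast,
        ← Real.rpow_mul (by norm_num)]
      norm_num
    rw [h1, hx]
    exact Real.rpow_le_rpow (by positivity) hmR (by norm_num)
  have hxpos : (0 : ℝ) < x := by linarith
  obtain ⟨E, hE⟩ : ∃ E, E = (N : ℝ) ^ (1 / 8000 : ℝ) := ⟨_, rfl⟩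
  have hN1 : (1 : ℝ) ≤ N := by
    have h1 : (m : ℝ) ≤ N := by exact_mod_cast hmN
    have h2 : (1 : ℝ) ≤ (2 : ℝ) ^ 48 := one_le_pow₀ (by norm_num)
    linarith
  have hNm : (N : ℝ) ≤ (m : ℝ) ^ 500 := by exact_mod_cast hN
  have hEx : E ≤ x := by
    rw [hE, hx]
    calc (N : ℝ) ^ (1 / 8000 : ℝ) ≤ ((m : ℝ) ^ 500) ^ (1 / 8000 : ℝ) :=
          Real.rpow_le_rpow (by linarith) hNm (by norm_num)
      _ = (m : ℝ) ^ (1 / 16 : ℝ) := by
          rw [← Real.rpow_natCast, ← Real.rpow_mul hmpos.le]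
          norm_num
  have hE1 : 1 ≤ E := by
    rw [hE]
    exact Real.one_le_rpow hN1 (by norm_num)
  have hlog2 : (1 / 2 : ℝ) ≤ Real.log 2 := by
    have := Real.log_two_gt_d9
    linarith
  have hlogm : Real.log m ≤ 16 * x := by
    have h1 := Real.log_le_rpow_div hmpos.le (show (0 : ℝ) < 1 / 16 by norm_num)
    rw [← hx] at h1
    calc Real.log m ≤ x / (1 / 16) := h1
      _ = 16 * x := by ring
  have hlogN : Real.logb 2 N ≤ 16000 * x := by
    have h1 : Real.log N ≤ 500 * Real.log m := by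
      have := Real.log_le_log (by linarith) hNm
      rw [Real.log_pow] at this
      push_cast at this
      exact this
    rw [Real.logb, div_le_iff₀ (by linarith)]
    have h2 : 8000 * x ≤ 16000 * x * Real.log 2 := by nlinarith
    linarith
  have hlogN0 : 0 ≤ Real.logb 2 N := Real.logb_nonneg (by norm_num) hN1
  have hSR : (1 : ℝ) ≤ S := by exact_mod_cast hS
  obtain ⟨s, hs⟩ : ∃ s, s = Real.logb 2 ((S : ℝ) + 1) := ⟨_, rfl⟩
  have hs0 : 0 ≤ s := by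
    rw [hs]
    exact Real.logb_nonneg (by norm_num) (by linarith)
  rw [← hs] at h
  rw [← hE] at hκ ⊢
  have hκx : (κ : ℝ) ^ 2 ≤ x ^ 2 := pow_le_pow_left₀ (Nat.cast_nonneg _) (hκ.trans hEx) 2
  have h1 : x ^ 16 ≤ 8000000 * x ^ 3 * s := by
    rw [hx16]
    calc (m : ℝ) ≤ 500 * (κ : ℝ) ^ 2 * Real.logb 2 N * s := h
      _ ≤ 500 * x ^ 2 * (16000 * x) * s := by gcongr
      _ = 8000000 * x ^ 3 * s := by ring
  have h2 : x ^ 13 ≤ 8000000 * s := by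
    have h3 : x ^ 13 * x ^ 3 ≤ (8000000 * s) * x ^ 3 := by
      calc x ^ 13 * x ^ 3 = x ^ 16 := by ring
        _ ≤ 8000000 * x ^ 3 * s := h1
        _ = (8000000 * s) * x ^ 3 := by ring
    exact le_of_mul_le_mul_right h3 (by positivity)
  have h3 : 16000000 * x ≤ x ^ 13 := by
    have h4 : (8 : ℝ) ^ 12 ≤ x ^ 12 := pow_le_pow_left₀ (by norm_num) hx8 12
    have h5 : (16000000 : ℝ) ≤ (8 : ℝ) ^ 12 := by norm_num
    calc 16000000 * x ≤ x ^ 12 * x := mul_le_mul_of_nonneg_right (h5.trans h4) hxpos.le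
      _ = x ^ 13 := by ring
  have h4 : 2 * E ≤ s := by linarith
  have hS2 : (2 : ℝ) ^ s = (S : ℝ) + 1 := by
    rw [hs]
    exact Real.rpow_logb (by norm_num) (by norm_num) (by linarith)
  have h5 : (2 : ℝ) ^ (2 * E) ≤ (S : ℝ) + 1 := by
    rw [← hS2]
    exact Real.rpow_le_rpow_of_exponent_le (by norm_num) h4
  have h6 : (2 : ℝ) ≤ (2 : ℝ) ^ E := by
    calc (2 : ℝ) = (2 : ℝ) ^ (1 : ℝ) := (Real.rpow_one 2).symm
      _ ≤ (2 : ℝ) ^ E := Real.rpow_le_rpow_of_exponent_le (by norm_num) hE1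
  have h7 : (2 : ℝ) ^ (2 * E) = (2 : ℝ) ^ E * (2 : ℝ) ^ E := by
    rw [two_mul, Real.rpow_add (by norm_num)]
  rw [h7] at h5
  nlinarith

end Pool.Agent.DAQ
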