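import Pool.Agent.DAQ.St

/-!
# Project DAQ, module NUK: the numbers, part 3
-/

set_option autoImplicit false

namespace Pool.Agent.DAQ

namespace MNUK

theorem logb_two_two_pow (k : ℕ) : Real.logb 2 ((2 : ℝ) ^ k) = k := by
  rw [← Real.rpow_natCast, Real.logb_rpow (by norm_num) (by norm_num)]

/-- The logarithm of a natural power of two. -/
theorem logb_mono {x y : ℝ} (hx : 0 < x) (h : x ≤ y) : Real.logb 2 x ≤ Real.logb 2 y :=
  Real.logb_le_logb_of_le (by norm_num) hx h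

/-- `clog 2 w ≤ 2 logb 2 (S + 1)` for `w ≤ S`, `1 ≤ S`. -/
theorem clog_le {w S : ℕ} (hw : w ≤ S) (hS : 1 ≤ S) :
    (Nat.clog 2 w : ℝ) ≤ 2 * Real.logb 2 ((S : ℝ) + 1) := by
  have hs : (1 : ℝ) ≤ Real.logb 2 ((S : ℝ) + 1) := by
    have h1 : (1 : ℝ) = Real.logb 2 2 := (Real.logb_self_eq_one (by norm_num)).symm
    rw [h1]
    refine logb_mono (by norm_num) ?_
    have : (1 : ℝ) ≤ S := Nat.one_le_cast.2 hS
    linarith
  rcases Nat.lt_or_ge w 2 with h2 | h2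
  · have : Nat.clog 2 w = 0 := Nat.clog_of_right_le_one (by omega) 2
    rw [this]
    push_cast
    linarith
  · have h3 : 2 ^ (Nat.clog 2 w).pred < w := Nat.pow_pred_clog_lt_self one_lt_two (by omega)
    have h4 : 0 < Nat.clog 2 w := Nat.clog_pos one_lt_two h2
    have h5 : ((2 : ℝ) ^ (Nat.clog 2 w).pred) ≤ (S : ℝ) + 1 := by
      have : 2 ^ (Nat.clog 2 w).pred ≤ S + 1 := by omega
      exact_mod_cast this
    have h6 := logb_mono (by positivity) h5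
    rw [logb_two_two_pow] at h6
    have h7 : (Nat.clog 2 w : ℝ) = ((Nat.clog 2 w).pred : ℝ) + 1 := by
      have : Nat.clog 2 w = (Nat.clog 2 w).pred + 1 := (Nat.succ_pred_eq_of_pos h4).symm
      exact_mod_cast this
    rw [h7]
    linarith

/-- `a ≤ 25 logb 2 n` -/
theorem a_le_log {n a : ℕ} (hn : 2 ≤ n) (ha : a = Nat.clog 2 (2 ^ 16 * n ^ 8)) :
    (a : ℝ) ≤ 25 * Real.logb 2 n := by
  have hn8 : n ≤ n ^ 8 := Nat.le_self_pow (by norm_num) n
  have hbig : 2 ≤ 2 ^ 16 * n ^ 8 := by omega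
  have h3 : 2 ^ (Nat.clog 2 (2 ^ 16 * n ^ 8)).pred < 2 ^ 16 * n ^ 8 :=
    Nat.pow_pred_clog_lt_self one_lt_two (by omega)
  rw [← ha] at h3
  have h4 : 0 < a := by rw [ha]; exact Nat.clog_pos one_lt_two hbig
  have h5 : ((2 : ℝ) ^ a.pred) ≤ (2 : ℝ) ^ 16 * (n : ℝ) ^ 8 := by
    exact_mod_cast h3.le
  have hnpos : (0 : ℝ) < n := by
    have : 0 < n := by omega
    exact_mod_cast this
  have h6 := logb_mono (by positivity) h5
  rw [logb_two_two_pow, Real.logb_mul (by positivity) (by positivity), logb_two_two_pow,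
    Real.logb_pow] at h6
  have h7 : (a : ℝ) = (a.pred : ℝ) + 1 := by
    have : a = a.pred + 1 := (Nat.succ_pred_eq_of_pos h4).symm
    exact_mod_cast this
  have h8 : (1 : ℝ) ≤ Real.logb 2 n := by
    have h1 : (1 : ℝ) = Real.logb 2 2 := (Real.logb_self_eq_one (by norm_num)).symm
    rw [h1]
    refine logb_mono (by norm_num) ?_
    exact_mod_cast hn
  push_cast at h6
  rw [h7]
  linarith

theorem main {n a N W κ w L : ℕ} (hn : 2 ≤ n) (ha : a = Nat.clog 2 (2 ^ 16 * n ^ 8))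
    (hN : 2 ^ (12 * a) ≤ N) (hW : W ≤ n) (hκ : 1 ≤ κ) (hL : 1 ≤ L)
    (h : n ≤ 256 ∨ W < 3 * max κ 2 ∨
      2 ^ (n * a) < (L + 1) * 2 ^ ((max κ 2 + 1) * ((4 * a ^ 2 + 1) * Nat.clog 2 w) + 1) ∨
      n ^ ((W - 3 * max κ 2) / (max κ 2 + 1)) ≤
        (L + 1) * 2 ^ ((max κ 2 + 1) * ((4 * a ^ 2 + 1) * Nat.clog 2 w) + 1)) :
    (W : ℝ) ≤ 500 * (κ : ℝ) ^ 2 * Real.logb 2 N * Real.logb 2 ((max w L : ℕ) + 1) := by
  obtain ⟨S, hS⟩ : ∃ S, S = max w L := ⟨_, rfl⟩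
  rw [← hS]
  have hS1 : 1 ≤ S := by omega
  have hwS : w ≤ S := by omega
  have hLS : L ≤ S := by omega
  obtain ⟨s, hs⟩ : ∃ s, s = Real.logb 2 ((S : ℝ) + 1) := ⟨_, rfl⟩
  obtain ⟨l, hl⟩ : ∃ l, l = Real.logb 2 (N : ℝ) := ⟨_, rfl⟩
  have hclog := clog_le hwS hS1
  have hs1 : (1 : ℝ) ≤ s := by
    rw [hs]
    have h1 : (1 : ℝ) = Real.logb 2 2 := (Real.logb_self_eq_one (by norm_num)).symm
    rw [h1]
    refine logb_mono (by norm_num) ?_
    have : (1 : ℝ) ≤ S := Nat.one_le_cast.2 hS1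
    linarith
  have ha24 : 24 ≤ a := by
    have hn28 : 2 ^ 8 ≤ n ^ 8 := Nat.pow_le_pow_left hn 8
    have h1 : 2 ^ 24 ≤ 2 ^ 16 * n ^ 8 := by
      calc 2 ^ 24 = 2 ^ 16 * 2 ^ 8 := by norm_num
        _ ≤ 2 ^ 16 * n ^ 8 := Nat.mul_le_mul_left _ hn28
    have h2 : 2 ^ 16 * n ^ 8 ≤ 2 ^ a := by rw [ha]; exact Nat.le_pow_clog one_lt_two _
    exact (Nat.pow_le_pow_iff_right one_lt_two).1 (h1.trans h2)
  have hlge : 12 * (a : ℝ) ≤ l := by
    have h1 : ((2 : ℝ) ^ (12 * a)) ≤ (N : ℝ) := by exact_mod_cast hN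
    have h2 := logb_mono (by positivity) h1
    rw [logb_two_two_pow, ← hl] at h2
    push_cast at h2
    exact h2
  have haR : (24 : ℝ) ≤ a := by exact_mod_cast ha24
  have hκR : (1 : ℝ) ≤ κ := by exact_mod_cast hκ
  rw [← hs, ← hl]
  rw [← hs] at hclog
  -- it is enough to show the bound with `a`
  have hred : (W : ℝ) ≤ 2409 * (κ : ℝ) ^ 2 * a * s →
      (W : ℝ) ≤ 500 * (κ : ℝ) ^ 2 * l * s := by
    intro h1
    refine h1.trans ?_
    have h2 : 2409 * (a : ℝ) ≤ 500 * l := by linarith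
    have h3 : (0 : ℝ) ≤ (κ : ℝ) ^ 2 * s := by positivity
    calc 2409 * (κ : ℝ) ^ 2 * a * s = (2409 * (a : ℝ)) * ((κ : ℝ) ^ 2 * s) := by ring
      _ ≤ (500 * l) * ((κ : ℝ) ^ 2 * s) := mul_le_mul_of_nonneg_right h2 h3
      _ = 500 * (κ : ℝ) ^ 2 * l * s := by ring
  apply hred
  have hκ2 : (1 : ℝ) ≤ (κ : ℝ) ^ 2 := one_le_pow₀ hκR
  have hκκ : (κ : ℝ) ≤ (κ : ℝ) ^ 2 := by nlinarith
  have has : (24 : ℝ) ≤ a * s := by nlinarith
  have hκas : (24 : ℝ) ≤ (κ : ℝ) ^ 2 * (a * s) := by nlinarith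
  -- the large number
  have hM : Real.logb 2 (((L + 1) * 2 ^ ((max κ 2 + 1) * ((4 * a ^ 2 + 1) * Nat.clog 2 w) + 1) :
      ℕ) : ℝ) ≤ 32 * κ * a ^ 2 * s := by
    push_cast
    rw [Real.logb_mul (by positivity) (by positivity), logb_two_two_pow]
    push_cast
    have h1 : Real.logb 2 ((L : ℝ) + 1) ≤ s := by
      rw [hs]
      refine logb_mono (by positivity) ?_
      have : (L : ℝ) ≤ S := by exact_mod_cast hLS
      linarith
    have h2 : max (κ : ℝ) 2 + 1 ≤ 3 * κ := by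
      have : max (κ : ℝ) 2 ≤ 2 * κ := max_le (by linarith) (by linarith)
      linarith
    have h3 : 4 * (a : ℝ) ^ 2 + 1 ≤ 5 * (a : ℝ) ^ 2 := by nlinarith
    have h4 : (4 * (a : ℝ) ^ 2 + 1) * (Nat.clog 2 w : ℝ) ≤ 5 * (a : ℝ) ^ 2 * (2 * s) :=
      mul_le_mul h3 hclog (Nat.cast_nonneg _) (by positivity)
    have h5 : (max (κ : ℝ) 2 + 1) * ((4 * (a : ℝ) ^ 2 + 1) * (Nat.clog 2 w : ℝ)) ≤
        3 * κ * (5 * (a : ℝ) ^ 2 * (2 * s)) :=
      mul_le_mul h2 h4 (by positivity) (by positivity)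
    have h6 : 2 * s ≤ 2 * κ * (a : ℝ) ^ 2 * s := by
      have h7 : (1 : ℝ) ≤ κ * (a : ℝ) ^ 2 := by nlinarith
      nlinarith
    calc Real.logb 2 ((L : ℝ) + 1) +
          ((max (κ : ℝ) 2 + 1) * ((4 * (a : ℝ) ^ 2 + 1) * (Nat.clog 2 w : ℝ)) + 1)
        ≤ s + (3 * κ * (5 * (a : ℝ) ^ 2 * (2 * s)) + s) := by linarith
      _ = 30 * κ * (a : ℝ) ^ 2 * s + 2 * s := by ring
      _ ≤ 30 * κ * (a : ℝ) ^ 2 * s + 2 * κ * (a : ℝ) ^ 2 * s := by linarith
      _ = 32 * κ * a ^ 2 * s := by ring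
  set M := (L + 1) * 2 ^ ((max κ 2 + 1) * ((4 * a ^ 2 + 1) * Nat.clog 2 w) + 1) with hMdef
  clear_value M
  have hapos : (0 : ℝ) < a := by linarith
  rcases h with h | h | h | h
  · -- small `n`
    have h1 : (W : ℝ) ≤ 256 := by
      have : W ≤ 256 := hW.trans h
      exact_mod_cast this
    calc (W : ℝ) ≤ 256 := h1
      _ ≤ 2409 * ((κ : ℝ) ^ 2 * (a * s)) := by linarith
      _ = 2409 * (κ : ℝ) ^ 2 * a * s := by ring
  · -- small `W`
    have h1 : (W : ℝ) ≤ 6 * κ := by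
      have : W ≤ 6 * κ := by omega
      exact_mod_cast this
    have h2 : (κ : ℝ) ^ 2 ≤ (κ : ℝ) ^ 2 * (a * s) := by nlinarith
    calc (W : ℝ) ≤ 6 * κ := h1
      _ ≤ 6 * (κ : ℝ) ^ 2 := by linarith
      _ ≤ 2409 * ((κ : ℝ) ^ 2 * (a * s)) := by nlinarith
      _ = 2409 * (κ : ℝ) ^ 2 * a * s := by ring
  · -- `2 ^ (n a) < M`
    have h1 : ((2 : ℝ) ^ (n * a)) ≤ (M : ℝ) := by exact_mod_cast h.le
    have h2 := (logb_mono (by positivity) h1).trans hM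
    rw [logb_two_two_pow] at h2
    push_cast at h2
    have h3 : (n : ℝ) ≤ 32 * κ * a * s := by
      have : (n : ℝ) * a ≤ (32 * κ * a * s) * a := by
        calc (n : ℝ) * a ≤ 32 * κ * a ^ 2 * s := h2
          _ = (32 * κ * a * s) * a := by ring
      exact le_of_mul_le_mul_right this hapos
    calc (W : ℝ) ≤ n := by exact_mod_cast hW
      _ ≤ 32 * (κ * (a * s)) := by linarith
      _ ≤ 32 * ((κ : ℝ) ^ 2 * (a * s)) := by
          have : (κ : ℝ) * (a * s) ≤ (κ : ℝ) ^ 2 * (a * s) :=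
            mul_le_mul_of_nonneg_right hκκ (by linarith)
          linarith
      _ ≤ 2409 * ((κ : ℝ) ^ 2 * (a * s)) := by linarith
      _ = 2409 * (κ : ℝ) ^ 2 * a * s := by ring
  · -- `n ^ r ≤ M`
    set r := (W - 3 * max κ 2) / (max κ 2 + 1) with hr
    have h1 : ((n : ℝ) ^ r) ≤ (M : ℝ) := by exact_mod_cast h
    have hnpos : (0 : ℝ) < n := by
      have : 0 < n := by omega
      exact_mod_cast this
    have h2 := (logb_mono (by positivity) h1).trans hM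
    rw [Real.logb_pow] at h2
    have h3 := a_le_log hn ha
    have h4 : (r : ℝ) * a ≤ 25 * (32 * κ * a ^ 2 * s) := by
      calc (r : ℝ) * a ≤ r * (25 * Real.logb 2 n) :=
            mul_le_mul_of_nonneg_left h3 (Nat.cast_nonneg _)
        _ = 25 * (r * Real.logb 2 n) := by ring
        _ ≤ 25 * (32 * κ * a ^ 2 * s) := by linarith
    have h5 : (r : ℝ) ≤ 800 * κ * a * s := by
      have : (r : ℝ) * a ≤ (800 * κ * a * s) * a := by
        calc (r : ℝ) * a ≤ 25 * (32 * κ * a ^ 2 * s) := h4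
          _ = (800 * κ * a * s) * a := by ring
      exact le_of_mul_le_mul_right this hapos
    have h6 : W ≤ (max κ 2 + 1) * (r + 1) + 3 * max κ 2 := by
      have h7 : W - 3 * max κ 2 < (max κ 2 + 1) * (r + 1) := by
        have := Nat.lt_mul_div_succ (W - 3 * max κ 2) (show 0 < max κ 2 + 1 by omega)
        rw [← hr] at this
        exact this
      omega
    have h7 : (max κ 2 + 1) * (r + 1) + 3 * max κ 2 ≤ 3 * κ * (r + 1) + 6 * κ := by
      have h8 : max κ 2 + 1 ≤ 3 * κ := by omega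
      have h9 : 3 * max κ 2 ≤ 6 * κ := by omega
      exact Nat.add_le_add (Nat.mul_le_mul_right _ h8) h9
    have h8 : (W : ℝ) ≤ 3 * κ * (r + 1) + 6 * κ := by exact_mod_cast h6.trans h7
    have h9 : (κ : ℝ) * r ≤ κ * (800 * κ * a * s) :=
      mul_le_mul_of_nonneg_left h5 (by linarith)
    have h10 : (κ : ℝ) ≤ (κ : ℝ) ^ 2 * (a * s) := by nlinarith
    calc (W : ℝ) ≤ 3 * κ * (r + 1) + 6 * κ := h8
      _ = 3 * (κ * r) + 9 * κ := by ring
      _ ≤ 3 * (κ * (800 * κ * a * s)) + 9 * ((κ : ℝ) ^ 2 * (a * s)) := by linarith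
      _ = 2409 * (κ : ℝ) ^ 2 * a * s := by ring

end MNUK

theorem t_NUK : S_NUK := by
  intro n a N W κ w L hn ha hN hW hκ hL h
  exact MNUK.main hn ha hN hW hκ hL h

end Pool.Agent.DAQ
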