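import Pool.Agent.DAQ.St

/-!
# Project DAQ, module STR: resolution width and strategies
-/

set_option autoImplicit false

namespace Pool.Agent.DAQ

open Finset Pool.Agent.OB Pool.Agent.DGO

theorem t_STR : S_STR := by
  classical
  intro V _ _ G W hG
  refine ⟨fun Q z => ∀ C, Res G W C → (∀ l ∈ C, l.1 ∈ Q) → Sat z C, ?_, ?_, ?_, ?_, ?_⟩
  · -- emp
    intro z C hC hv
    exfalso
    apply hG
    have : C = ∅ := by
      rw [Finset.eq_empty_iff_forall_notMem]
      intro l hl
      exact absurd (hv l hl) (Finset.notMem_empty _)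
    rw [this] at hC
    exact hC
  · -- mono
    intro Q Q' z h hQ C hC hv
    exact h C hC fun l hl => hQ (hv l hl)
  · -- congr
    intro Q z z' h hz C hC hv
    obtain ⟨l, hl, hs⟩ := h C hC hv
    exact ⟨l, hl, by rw [← hz l.1 (hv l hl)]; exact hs⟩
  · -- ext
    intro Q z i h hQ hi
    by_contra hcon
    rw [not_exists] at hcon
    have h1 := hcon true
    have h2 := hcon false
    simp only [not_forall] at h1 h2
    obtain ⟨C, hC, hCv, hCs⟩ := h1
    obtain ⟨D, hD, hDv, hDs⟩ := h2
    have up_ne : ∀ (b : Bool) (j : V), j ≠ i → Function.update z i b j = z j :=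
      fun b j hj => Function.update_of_ne hj _ _
    -- a clause which is not satisfied by the update contains the literal of `i`
    have key : ∀ (E : Clause V) (b : Bool), Res G W E → (∀ l ∈ E, l.1 ∈ insert i Q) →
        ¬ Sat (Function.update z i b) E → (i, !b) ∈ E ∧ ∀ l ∈ E, l ≠ (i, !b) → l.1 ∈ Q ∧
          z l.1 = !l.2 := by
      intro E b hE hEv hEs
      have hlit : ∀ l ∈ E, l ≠ (i, !b) → l.1 ∈ Q ∧ z l.1 = !l.2 := by
        intro l hl hne
        have hli : l.1 ≠ i := by
          intro hli
          have hl2 : l.2 ≠ !b := by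
            intro h2
            exact hne (Prod.ext hli h2)
          have hl3 : l.2 = b := by
            cases h4 : l.2 <;> cases b <;> simp_all
          apply hEs
          refine ⟨l, hl, ?_⟩
          rw [hli, Function.update_self]
          exact hl3.symm
        refine ⟨Finset.mem_of_mem_insert_of_ne (hEv l hl) hli, ?_⟩
        by_contra hz
        apply hEs
        refine ⟨l, hl, ?_⟩
        rw [up_ne b l.1 hli]
        cases h4 : l.2 <;> cases h5 : z l.1 <;> simp_all
      refine ⟨?_, hlit⟩
      by_contra hni
      have hall : ∀ l ∈ E, l.1 ∈ Q ∧ z l.1 = !l.2 := fun l hl =>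
        hlit l hl fun he => hni (he ▸ hl)
      obtain ⟨l, hl, hs⟩ := h E hE fun l hl => (hall l hl).1
      have := (hall l hl).2
      rw [hs] at this
      revert this
      generalize l.2 = b'
      cases b' <;> simp
    obtain ⟨c1, c2⟩ := key C true hC hCv hCs
    obtain ⟨d1, d2⟩ := key D false hD hDv hDs
    have hR : ∀ l ∈ D.erase (i, true) ∪ C.erase (i, false), l.1 ∈ Q ∧ z l.1 = !l.2 := by
      intro l hl
      rcases Finset.mem_union.1 hl with hl | hl
      · exact d2 l (Finset.mem_of_mem_erase hl) (Finset.ne_of_mem_erase hl)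
      · exact c2 l (Finset.mem_of_mem_erase hl) (Finset.ne_of_mem_erase hl)
    have hcard : (D.erase (i, true) ∪ C.erase (i, false)).card ≤ W := by
      refine le_trans ?_ hQ.le
      refine (Finset.card_le_card (t := Q.image fun j => (j, !z j)) ?_).trans
        Finset.card_image_le
      intro l hl
      obtain ⟨q1, q2⟩ := hR l hl
      refine Finset.mem_image.2 ⟨l.1, q1, ?_⟩
      rw [q2, Bool.not_not]
    have hres : Res G W (D.erase (i, true) ∪ C.erase (i, false)) :=
      Res.res hD hC d1 c1 hcard
    obtain ⟨l, hl, hs⟩ := h _ hres fun l hl => (hR l hl).1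
    have := (hR l hl).2
    rw [hs] at this
    revert this
    generalize l.2 = b'
    cases b' <;> simp
  · -- good
    intro Q z C h hC hv
    exact h C (Res.ax hC) hv

end Pool.Agent.DAQ
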