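import Pool.Agent.DAQ.Main0
import Pool.Agent.DAQ.STR
import Pool.Agent.DAQ.FUL
import Pool.Agent.DAQ.NUG
import Pool.Agent.DAQ.NUI
import Pool.Agent.DAQ.NUK
import Pool.Agent.DAQ.NUJ
import Pool.Agent.DAP.Main

/-!
# Project DAQ: the theorem
-/

set_option autoImplicit false

namespace Pool.Agent.DAQ

open Pool.Agent.DGO

theorem core : S_CORE :=
  t_CORE DAP.ref t_NUG t_NUI t_NUK DAO.t_NUB (DAO.t_OBD t_OST) DAO.t_OBM

theorem lifting : S_LIFT := t_LIFT core t_STR t_FUL DAO.t_IDX DAO.t_ADR t_NUG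

theorem part2 : S_PART2 := t_PART2 core t_PHP DAO.t_IDX DAO.t_ADR DAP.t_NUE t_NUJ

end Pool.Agent.DAQ
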