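import Pool.Agent.DAQ.NUK

/-!
# Project DAQ, module NUS: the numbers for a reading sequence of any length
-/

set_option autoImplicit false

namespace Pool.Agent.DAQ

/-- NUS: the numbers, with the parameter `k`. -/
def S_NUS : Prop := ∀ n a N W κ w L k b : ℕ, 2 ≤ n → 1 ≤ b → a = Nat.clog 2 (2 ^ 16 * n ^ 8) →
  2 ^ (12 * a) ≤ N → N ≤ 2 ^ (12 * a + 1) → W ≤ n → 1 ≤ κ → 1 ≤ L → 1 ≤ k →
  (n ≤ 256 ∨ W < b * max κ 2 ∨
    2 ^ (n * a) < (L + 1) * 2 ^ ((max κ 2 + 1) * ((2 * k + 1) * Nat.clog 2 w) + 1) ∨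
    n ^ ((W - b * max κ 2) / (max κ 2 + 1)) ≤
      (L + 1) * 2 ^ ((max κ 2 + 1) * ((2 * k + 1) * Nat.clog 2 w) + 1)) →
  ((W : ℝ) - 5 * b * κ) * Real.logb 2 N ≤
    1000000 * (κ : ℝ) ^ 2 * (k : ℝ) * Real.logb 2 ((max w L : ℕ) + 1)

namespace MNUS

open MNUK

theorem main {n a N W κ w L k b : ℕ} (hn : 2 ≤ n) (hb : 1 ≤ b) (ha : a = Nat.clog 2 (2 ^ 16 * n ^ 8))
    (hN : 2 ^ (12 * a) ≤ N) (hN' : N ≤ 2 ^ (12 * a + 1)) (hW : W ≤ n) (hκ : 1 ≤ κ) (hL : 1 ≤ L)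
    (hk : 1 ≤ k)
    (h : n ≤ 256 ∨ W < b * max κ 2 ∨
      2 ^ (n * a) < (L + 1) * 2 ^ ((max κ 2 + 1) * ((2 * k + 1) * Nat.clog 2 w) + 1) ∨
      n ^ ((W - b * max κ 2) / (max κ 2 + 1)) ≤
        (L + 1) * 2 ^ ((max κ 2 + 1) * ((2 * k + 1) * Nat.clog 2 w) + 1)) :
    ((W : ℝ) - 5 * b * κ) * Real.logb 2 N ≤
      1000000 * (κ : ℝ) ^ 2 * (k : ℝ) * Real.logb 2 ((max w L : ℕ) + 1) := by
  obtain ⟨S, hS⟩ : ∃ S, S = max w L := ⟨_, rfl⟩
  rw [← hS]
  have hS1 : 1 ≤ S := by omega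
  have hwS : w ≤ S := by omega
  have hLS : L ≤ S := by omega
  obtain ⟨s, hs⟩ : ∃ s, s = Real.logb 2 ((S : ℝ) + 1) := ⟨_, rfl⟩
  obtain ⟨l, hl⟩ : ∃ l, l = Real.logb 2 (N : ℝ) := ⟨_, rfl⟩
  have hclog := clog_le hwS hS1
  have hs1 : (1 : ℝ) ≤ s := by
    rw [hs]
    have h1 : (1 : ℝ) = Real.logb 2 2 := (Real.logb_self_eq_one (by norm_num)).symm
    rw [h1]
    refine logb_mono (by norm_num) ?_
    have : (1 : ℝ) ≤ S := Nat.one_le_cast.2 hS1
    linarith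
  have ha24 : 24 ≤ a := by
    have hn28 : 2 ^ 8 ≤ n ^ 8 := Nat.pow_le_pow_left hn 8
    have h1 : 2 ^ 24 ≤ 2 ^ 16 * n ^ 8 := by
      calc 2 ^ 24 = 2 ^ 16 * 2 ^ 8 := by norm_num
        _ ≤ 2 ^ 16 * n ^ 8 := Nat.mul_le_mul_left _ hn28
    have h2 : 2 ^ 16 * n ^ 8 ≤ 2 ^ a := by rw [ha]; exact Nat.le_pow_clog one_lt_two _
    exact (Nat.pow_le_pow_iff_right one_lt_two).1 (h1.trans h2)
  have haR : (24 : ℝ) ≤ a := by exact_mod_cast ha24
  have hNpos : (0 : ℝ) < N := by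
    have : 0 < N := lt_of_lt_of_le (by positivity) hN
    exact_mod_cast this
  have hlge : 12 * (a : ℝ) ≤ l := by
    have h1 : ((2 : ℝ) ^ (12 * a)) ≤ (N : ℝ) := by exact_mod_cast hN
    have h2 := logb_mono (by positivity) h1
    rw [logb_two_two_pow, ← hl] at h2
    push_cast at h2
    exact h2
  have hlle : l ≤ 13 * (a : ℝ) := by
    have h1 : (N : ℝ) ≤ (2 : ℝ) ^ (12 * a + 1) := by exact_mod_cast hN'
    have h2 := logb_mono hNpos h1
    rw [logb_two_two_pow, ← hl] at h2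
    push_cast at h2
    linarith
  have hl0 : 0 ≤ l := by linarith
  have hκR : (1 : ℝ) ≤ κ := by exact_mod_cast hκ
  have hbR : (1 : ℝ) ≤ b := by exact_mod_cast hb
  have hbκ : (κ : ℝ) ≤ b * κ := by nlinarith
  have hkR : (1 : ℝ) ≤ k := by exact_mod_cast hk
  have hκ2 : (1 : ℝ) ≤ (κ : ℝ) ^ 2 := one_le_pow₀ hκR
  have hκκ : (κ : ℝ) ≤ (κ : ℝ) ^ 2 := by nlinarith
  rw [← hs, ← hl]
  rw [← hs] at hclog
  obtain ⟨B, hB⟩ : ∃ B, B = (κ : ℝ) ^ 2 * (k : ℝ) * s := ⟨_, rfl⟩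
  have hks : 1 ≤ (k : ℝ) * s := by nlinarith
  have hB1 : (1 : ℝ) ≤ B := by
    rw [hB, mul_assoc]
    nlinarith
  have hgoal : 1000000 * (κ : ℝ) ^ 2 * (k : ℝ) * s = 1000000 * B := by rw [hB]; ring
  rw [hgoal]
  have hκks : (κ : ℝ) * ((k : ℝ) * s) ≤ B := by
    rw [hB, mul_assoc]
    exact mul_le_mul_of_nonneg_right hκκ (by linarith)
  -- the large number
  have hM : Real.logb 2 (((L + 1) * 2 ^ ((max κ 2 + 1) * ((2 * k + 1) * Nat.clog 2 w) + 1) :
      ℕ) : ℝ) ≤ 20 * κ * k * s := by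
    push_cast
    rw [Real.logb_mul (by positivity) (by positivity), logb_two_two_pow]
    push_cast
    have h1 : Real.logb 2 ((L : ℝ) + 1) ≤ s := by
      rw [hs]
      refine logb_mono (by positivity) ?_
      have : (L : ℝ) ≤ S := by exact_mod_cast hLS
      linarith
    have h2 : max (κ : ℝ) 2 + 1 ≤ 3 * κ := by
      have : max (κ : ℝ) 2 ≤ 2 * κ := max_le (by linarith) (by linarith)
      linarith
    have h3 : 2 * (k : ℝ) + 1 ≤ 3 * (k : ℝ) := by linarith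
    have h4 : (2 * (k : ℝ) + 1) * (Nat.clog 2 w : ℝ) ≤ 3 * (k : ℝ) * (2 * s) :=
      mul_le_mul h3 hclog (Nat.cast_nonneg _) (by positivity)
    have h5 : (max (κ : ℝ) 2 + 1) * ((2 * (k : ℝ) + 1) * (Nat.clog 2 w : ℝ)) ≤
        3 * κ * (3 * (k : ℝ) * (2 * s)) :=
      mul_le_mul h2 h4 (by positivity) (by positivity)
    have h6 : 2 * s ≤ 2 * κ * (k : ℝ) * s := by
      have h7 : (1 : ℝ) ≤ κ * (k : ℝ) := by nlinarith
      nlinarith
    calc Real.logb 2 ((L : ℝ) + 1) +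
          ((max (κ : ℝ) 2 + 1) * ((2 * (k : ℝ) + 1) * (Nat.clog 2 w : ℝ)) + 1)
        ≤ s + (3 * κ * (3 * (k : ℝ) * (2 * s)) + s) := by linarith
      _ = 18 * κ * (k : ℝ) * s + 2 * s := by ring
      _ ≤ 18 * κ * (k : ℝ) * s + 2 * κ * (k : ℝ) * s := by linarith
      _ = 20 * κ * k * s := by ring
  set M := (L + 1) * 2 ^ ((max κ 2 + 1) * ((2 * k + 1) * Nat.clog 2 w) + 1) with hMdef
  clear_value M
  have hapos : (0 : ℝ) < a := by linarith
  rcases h with h | h | h | h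
  · -- small `n`
    have ha80 : a ≤ 80 := by
      rw [ha]
      refine Nat.clog_le_of_le_pow ?_
      calc 2 ^ 16 * n ^ 8 ≤ 2 ^ 16 * 256 ^ 8 := Nat.mul_le_mul_left _ (Nat.pow_le_pow_left h 8)
        _ = 2 ^ 80 := by norm_num
    have ha80R : (a : ℝ) ≤ 80 := by exact_mod_cast ha80
    have h1 : (W : ℝ) ≤ 256 := by
      have : W ≤ 256 := hW.trans h
      exact_mod_cast this
    have h2 : ((W : ℝ) - 5 * b * κ) * l ≤ 256 * l :=
      mul_le_mul_of_nonneg_right (by linarith) hl0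
    linarith
  · -- small `W`
    have h1 : (W : ℝ) ≤ 2 * b * κ := by
      have h2 : b * max κ 2 ≤ b * (2 * κ) := Nat.mul_le_mul_left _ (by omega)
      have : W ≤ 2 * b * κ := by
        calc W ≤ b * max κ 2 := h.le
          _ ≤ b * (2 * κ) := h2
          _ = 2 * b * κ := by ring
      exact_mod_cast this
    have h2 : ((W : ℝ) - 5 * b * κ) * l ≤ 0 :=
      mul_nonpos_of_nonpos_of_nonneg (by linarith) hl0
    linarith
  · -- `2 ^ (n a) < M`
    have h1 : ((2 : ℝ) ^ (n * a)) ≤ (M : ℝ) := by exact_mod_cast h.le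
    have h2 := (logb_mono (by positivity) h1).trans hM
    rw [logb_two_two_pow] at h2
    push_cast at h2
    have hWR : (W : ℝ) ≤ n := by exact_mod_cast hW
    have h3 : ((W : ℝ) - 5 * b * κ) * l ≤ n * (13 * a) :=
      mul_le_mul (by linarith) hlle hl0 (Nat.cast_nonneg _)
    calc ((W : ℝ) - 5 * b * κ) * l ≤ n * (13 * a) := h3
      _ = 13 * (n * a) := by ring
      _ ≤ 13 * (20 * κ * k * s) := by linarith
      _ = 260 * (κ * ((k : ℝ) * s)) := by ring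
      _ ≤ 1000000 * B := by linarith
  · -- `n ^ r ≤ M`
    set r := (W - b * max κ 2) / (max κ 2 + 1) with hr
    have h1 : ((n : ℝ) ^ r) ≤ (M : ℝ) := by exact_mod_cast h
    have hnpos : (0 : ℝ) < n := by
      have : 0 < n := by omega
      exact_mod_cast this
    have h2 := (logb_mono (by positivity) h1).trans hM
    rw [Real.logb_pow] at h2
    have h3 := a_le_log hn ha
    have h4 : (r : ℝ) * a ≤ 25 * (20 * κ * k * s) := by
      calc (r : ℝ) * a ≤ r * (25 * Real.logb 2 n) :=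
            mul_le_mul_of_nonneg_left h3 (Nat.cast_nonneg _)
        _ = 25 * (r * Real.logb 2 n) := by ring
        _ ≤ 25 * (20 * κ * k * s) := by linarith
    have h6 : W ≤ (max κ 2 + 1) * (r + 1) + b * max κ 2 := by
      have h7 : W - b * max κ 2 < (max κ 2 + 1) * (r + 1) := by
        have := Nat.lt_mul_div_succ (W - b * max κ 2) (show 0 < max κ 2 + 1 by omega)
        rw [← hr] at this
        exact this
      omega
    have h7 : (max κ 2 + 1) * (r + 1) + b * max κ 2 ≤ 3 * κ * (r + 1) + 2 * b * κ := by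
      have h8 : max κ 2 + 1 ≤ 3 * κ := by omega
      have h9 : b * max κ 2 ≤ 2 * b * κ := by
        calc b * max κ 2 ≤ b * (2 * κ) := Nat.mul_le_mul_left _ (by omega)
          _ = 2 * b * κ := by ring
      exact Nat.add_le_add (Nat.mul_le_mul_right _ h8) h9
    have h8 : (W : ℝ) ≤ 3 * κ * (r + 1) + 2 * b * κ := by exact_mod_cast h6.trans h7
    have h9 : (W : ℝ) - 5 * b * κ ≤ 3 * κ * r := by linarith
    calc ((W : ℝ) - 5 * b * κ) * l ≤ 3 * κ * r * (13 * a) :=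
          mul_le_mul h9 hlle hl0 (by positivity)
      _ = 39 * κ * (r * a) := by ring
      _ ≤ 39 * κ * (25 * (20 * κ * k * s)) := mul_le_mul_of_nonneg_left h4 (by positivity)
      _ = 19500 * ((κ : ℝ) ^ 2 * (k : ℝ) * s) := by ring
      _ = 19500 * B := by rw [hB]
      _ ≤ 1000000 * B := by linarith

end MNUS

theorem t_NUS : S_NUS := by
  intro n a N W κ w L k b hn hb ha hN hN' hW hκ hL hk h
  exact MNUS.main hn hb ha hN hN' hW hκ hL hk h

end Pool.Agent.DAQ
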