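import Pool.Agent.DAQ.RAO
import Pool.Agent.DAQ.OBZ
import Pool.Agent.DAQ.COB

/-!
# Project DAQ, module REZ: the reduction to nested families
-/

set_option autoImplicit false

namespace Pool.Agent.DAQ

open Finset Pool.Agent.OB Pool.Agent.DGO

/-- The reduction to the lower bound for nested families. -/
def S_REZ : Prop := ∀ (I : Type) [Fintype I] [DecidableEq I] (g k T w L a' d r w₀ lg κ b : ℕ)
  (G : CNF I) (H : Finset I → (I → Bool) → Prop)
  (σ : ℕ → (Fin g → Bool) ⊕ ((Fin 3 × I × Fin (2 ^ (4 * a') + 1)) × Fin g)),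
  3 ≤ g → 2 * T ≤ k * 2 ^ g →
  2 ^ (2 * k + 3) * (2 * Fintype.card I * (2 ^ (4 * a') + 1)) ≤ 2 ^ g →
  3 ≤ Fintype.card I → 2 ^ 14 * Fintype.card I ^ 6 * (2 * d + 1) ≤ 2 ^ a' →
  16 * Fintype.card I * (2 ^ 11 * Fintype.card I ^ 6 * (2 * d + 1)) ^ Fintype.card I * 4 ^ d ≤
    2 ^ ((2 ^ a') ^ 2 / 2) →
  d = Fintype.card I * (4 * a') + 3 * Fintype.card I + 1 + lg →
  (L + 1) * 2 ^ ((κ + 1) * ((2 * k + 1) * Nat.clog 2 w) + 1) ≤ 2 ^ lg → 2 ≤ κ →
  G.Nonempty → Strat G w₀ H → (κ + 1) * r + b * κ ≤ w₀ → (∀ C ∈ G, C.card ≤ b) →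
  DAP.Ref (DAO.adr g (DAO.idx (2 ^ (4 * a')) G)) κ (DAP.Prog σ T w) L →
  Fintype.card I ^ r ≤ (L + 1) * 2 ^ ((κ + 1) * ((2 * k + 1) * Nat.clog 2 w) + 1)

theorem t_REZ (hRAO : S_RAO) (hOBZ : S_OBZ) (hRDH : DAP.S_RDH) (hEMB : DAO.S_EMB)
    (hAXI : DAO.S_AXI) (hPLC : DAO.S_PLC) (hCOB : S_COB) : S_REZ := by
  classical
  intro I _ _ g k T w L a' d r w₀ lg κ b G H σ hg h2T hplace hn h14 hnum hd hlg hκ hG hstr hrw hC
    href
  obtain ⟨f, hf, k₀, hk₀, hf₀⟩ := href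
  -- the pool
  let U : Finset ((Fin g → Bool) ⊕ ((Fin 3 × I × Fin (2 ^ (4 * a') + 1)) × Fin g)) :=
    (univ : Finset (Fin g → Bool)).map ⟨Sum.inl, Sum.inl_injective⟩
  have hU : U.card = 2 ^ g := by simp [U]
  have h8U : 8 ≤ U.card := by
    rw [hU]
    calc 8 = 2 ^ 3 := by norm_num
      _ ≤ 2 ^ g := Nat.pow_le_pow_right (by norm_num) hg
  obtain ⟨J, tm, own, A, B, hAU, hBU, hAB, hJ, hA, hB, htm0, htmJ, htmono, hown⟩ :=
    hRAO _ U σ T k h8U (by rw [hU]; exact h2T)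
  let A₀ : Finset (Fin g → Bool) := univ.filter fun y => Sum.inl y ∈ A
  let B₀ : Finset (Fin g → Bool) := univ.filter fun y => Sum.inl y ∈ B
  have hcard : ∀ (S : Finset ((Fin g → Bool) ⊕ ((Fin 3 × I × Fin (2 ^ (4 * a') + 1)) × Fin g))),
      S ⊆ U → S.card ≤ ((univ : Finset (Fin g → Bool)).filter fun y => Sum.inl y ∈ S).card := by
    intro S hS
    rw [← Finset.card_map (⟨Sum.inl, Sum.inl_injective⟩ :
      (Fin g → Bool) ↪ ((Fin g → Bool) ⊕ ((Fin 3 × I × Fin (2 ^ (4 * a') + 1)) × Fin g)))]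
    apply Finset.card_le_card
    intro x hx
    obtain ⟨y, -, rfl⟩ := Finset.mem_map.1 (hS hx)
    exact Finset.mem_map.2 ⟨y, Finset.mem_filter.2 ⟨Finset.mem_univ _, hx⟩, rfl⟩
  have hbig : ∀ (S : Finset ((Fin g → Bool) ⊕ ((Fin 3 × I × Fin (2 ^ (4 * a') + 1)) × Fin g))),
      S ⊆ U → U.card ≤ 2 ^ (2 * k + 3) * S.card →
      2 * Fintype.card I * (2 ^ (4 * a') + 1) ≤
        ((univ : Finset (Fin g → Bool)).filter fun y => Sum.inl y ∈ S).card := by
    intro S hS h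
    rw [hU] at h
    exact (Nat.le_of_mul_le_mul_left (hplace.trans h) (by positivity)).trans (hcard S hS)
  have hA₀ := hbig A hAU hA
  have hB₀ := hbig B hBU hB
  have hdis : Disjoint A₀ B₀ := by
    rw [Finset.disjoint_left]
    intro y h1 h2
    exact (Finset.disjoint_left.1 hAB) (Finset.mem_filter.1 h1).2 (Finset.mem_filter.1 h2).2
  obtain ⟨pos, hpos, hpA, hpB⟩ := hPLC I (4 * a') g A₀ B₀ hdis hA₀
    (le_trans (Nat.mul_le_mul_right _ (by omega)) hB₀)
  have e : (Fin (4 * a') → Bool) ≃ Fin (2 ^ (4 * a')) :=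
    Fintype.equivFinOfCardEq (by simp)
  obtain ⟨hv, hvB, hvA⟩ := hEMB I (4 * a') g e pos A₀ B₀ hpos hpA hpB hdis
  set D := J * Nat.clog 2 w with hD
  have hDle : D ≤ (2 * k + 1) * Nat.clog 2 w := Nat.mul_le_mul_right _ hJ
  have hmono : (L + 1) * 2 ^ ((κ + 1) * D + 1) ≤
      (L + 1) * 2 ^ ((κ + 1) * ((2 * k + 1) * Nat.clog 2 w) + 1) :=
    Nat.mul_le_mul_left _ (Nat.pow_le_pow_right (by norm_num)
      (Nat.add_le_add_right (Nat.mul_le_mul_left _ hDle) _))
  have hax : ∀ C ∈ DAO.adr g (DAO.idx (2 ^ (4 * a')) G), ∃ C₀ ∈ G, ∀ p V,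
      ¬ Sat (DAO.emb e pos p V) C → ¬ Sat (fun i => V i (p i)) C₀ :=
    hAXI I (4 * a') g e pos G hG hv
  choose! ax hax1 hax2 using hax
  have hlines : ∀ j < L, DAP.TP D (fun p V => f j (DAO.emb e pos p V)) ∧
      ∃ (E : CNF I) (S : Finset ℕ), E ⊆ G ∧ E.card ≤ κ ∧ S.card ≤ κ ∧ (∀ i ∈ S, i < j) ∧
        ∀ p V, f j (DAO.emb e pos p V) = false →
          (∃ i ∈ S, f i (DAO.emb e pos p V) = false) ∨
            ∃ C ∈ E, ¬ Sat (fun i => V i (p i)) C := by
    intro j hj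
    refine ⟨hOBZ _ _ _ σ T w J tm own (fun p V => DAO.emb e pos p V) (f j) htm0 htmJ htmono ?_ ?_ ?_
      (hf j hj).1, ?_⟩
    · intro ee hee ho t ht1 ht2 p V V'
      rcases hσ : σ t with y | ⟨a, i⟩
      · refine hvB y (fun hy => ?_) p V V'
        have := (hown ee hee t ht1 ht2).2 (by rw [hσ]; exact (Finset.mem_filter.1 hy).2)
        rw [this] at ho
        exact absurd ho (by simp)
      · rfl
    · intro ee hee ho t ht1 ht2 p p' V
      rcases hσ : σ t with y | ⟨a, i⟩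
      · refine hvA y (fun hy => ?_) p p' V
        have := (hown ee hee t ht1 ht2).1 (by rw [hσ]; exact (Finset.mem_filter.1 hy).2)
        rw [this] at ho
        exact absurd ho (by simp)
      · rfl
    · intro v
      rcases v with y | ⟨a, i⟩
      · by_cases hy : y ∈ B₀
        · right
          have hyA : y ∉ A₀ := fun h => (Finset.disjoint_left.1 hdis) h hy
          intro p p' V
          exact hvA y hyA p p' V
        · left
          intro p V V'
          exact hvB y hy p V V'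
      · left
        intro p V V'
        rfl
    · obtain ⟨E, S, h1, h2, h3, h4, h5⟩ := (hf j hj).2
      refine ⟨E.image ax, S, ?_, Finset.card_image_le.trans h2, h3, h4, fun p V hfalse => ?_⟩
      · intro C hC
        obtain ⟨C', hC', rfl⟩ := Finset.mem_image.1 hC
        exact hax1 C' (h1 hC')
      · by_contra hcon
        rw [not_or] at hcon
        have : f j (DAO.emb e pos p V) = true := by
          refine h5 _ (fun C hC => ?_) (fun i hi => ?_)
          · by_contra hns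
            exact hcon.2 ⟨ax C, Finset.mem_image_of_mem _ hC, hax2 C (h1 hC) p V hns⟩
          · by_contra hns
            rw [Bool.not_eq_true] at hns
            exact hcon.1 ⟨i, hi, hns⟩
        rw [this] at hfalse
        exact absurd hfalse (by simp)
  obtain ⟨F, hF1, hF2, hF3⟩ := hRDH I (4 * a') D L κ G (fun k p V => f k (DAO.emb e pos p V)) hκ
    hlines ⟨k₀, hk₀, fun p V => hf₀ _⟩
  exact (hCOB I a' d r w₀ _ κ lg b G H F hn h14 hnum hd (hmono.trans hlg) hκ hstr hrw hC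
      hF1 hF2 hF3).trans hmono

end Pool.Agent.DAQ
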