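import Pool.Agent.DAQ.Main0
import Pool.Agent.DAQ.NUS
import Pool.Agent.DAQ.REZ

/-!
# Project DAQ: the lower bound for a formula with a strategy, for reading sequences of any length
-/

set_option autoImplicit false

namespace Pool.Agent.DAQ

open Finset Pool.Agent.OB Pool.Agent.DGO

/-- The number of blocks. -/
theorem exists_k {a N T : ℕ} (ha : 1 ≤ a) (hN1 : 1 ≤ N) (hN' : N ≤ 2 ^ (12 * a + 1))
    (hT : (T : ℝ) ≤ 1 / 64 * N * Real.logb 2 N) :
    ∃ k : ℕ, 1 ≤ k ∧ k ≤ a ∧ 2 * T ≤ k * 2 ^ (3 * (4 * a)) ∧ (k : ℝ) ≤ 4 * (1 + (T : ℝ) / N) := by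
  have hNpos : (0 : ℝ) < N := by
    have : 0 < N := by omega
    exact_mod_cast this
  have haR : (1 : ℝ) ≤ a := by exact_mod_cast ha
  have hl : Real.logb 2 (N : ℝ) ≤ 13 * a := by
    have h1 : (N : ℝ) ≤ (2 : ℝ) ^ (12 * a + 1) := by exact_mod_cast hN'
    have h2 := MNUK.logb_mono hNpos h1
    rw [MNUK.logb_two_two_pow] at h2
    push_cast at h2
    linarith
  have hx0 : (0 : ℝ) ≤ (T : ℝ) / N := by positivity
  have hx : (T : ℝ) / N ≤ 1 / 64 * (13 * a) := by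
    rw [div_le_iff₀ hNpos]
    calc (T : ℝ) ≤ 1 / 64 * N * Real.logb 2 N := hT
      _ = 1 / 64 * Real.logb 2 N * N := by ring
      _ ≤ 1 / 64 * (13 * a) * N := by gcongr
  have hceil : (⌈4 * ((T : ℝ) / N)⌉₊ : ℝ) ≤ 4 * ((T : ℝ) / N) + 1 :=
    (Nat.ceil_lt_add_one (by positivity)).le
  refine ⟨max 1 ⌈4 * ((T : ℝ) / N)⌉₊, le_max_left _ _, max_le ha ?_, ?_, ?_⟩
  · refine Nat.ceil_le.2 ?_
    linarith
  · have h1 : 4 * ((T : ℝ) / N) ≤ ((max 1 ⌈4 * ((T : ℝ) / N)⌉₊ : ℕ) : ℝ) := by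
      refine (Nat.le_ceil _).trans ?_
      exact_mod_cast le_max_right _ _
    have h2 : 4 * (T : ℝ) ≤ ((max 1 ⌈4 * ((T : ℝ) / N)⌉₊ : ℕ) : ℝ) * N := by
      calc 4 * (T : ℝ) = 4 * ((T : ℝ) / N) * N := by field_simp
        _ ≤ _ := mul_le_mul_of_nonneg_right h1 hNpos.le
    have h3 : 4 * T ≤ max 1 ⌈4 * ((T : ℝ) / N)⌉₊ * N := by exact_mod_cast h2
    have h4 : N ≤ 2 * 2 ^ (3 * (4 * a)) := by
      refine hN'.trans (le_of_eq ?_)
      rw [pow_succ, show 3 * (4 * a) = 12 * a by ring]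
      ring
    have h5 := Nat.mul_le_mul_left (max 1 ⌈4 * ((T : ℝ) / N)⌉₊) h4
    have h6 : 4 * T ≤ 2 * (max 1 ⌈4 * ((T : ℝ) / N)⌉₊ * 2 ^ (3 * (4 * a))) := by
      refine (h3.trans h5).trans (le_of_eq ?_)
      ring
    omega
  · rw [Nat.cast_max, Nat.cast_one]
    exact max_le (by linarith) (by linarith)

/-- The lower bound. -/
def S_CORS : Prop := ∀ (I : Type) [Fintype I] [DecidableEq I] (G : CNF I)
  (H : Finset I → (I → Bool) → Prop) (n N W κ b : ℕ), n = Fintype.card I →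
  N = Fintype.card (LV I) → 2 ≤ n → 1 ≤ b → Unsat G → (∀ C ∈ G, C.card ≤ b) → Strat G W H → W ≤ n → 1 ≤ κ →
  (∀ (σ : ℕ → LV I) (T w L : ℕ), (T : ℝ) ≤ 1 / 64 * N * Real.logb 2 N →
    Ref (lift G) κ (Prog σ T w) L →
    ((W : ℝ) - 5 * b * κ) * Real.logb 2 N ≤
      4000000 * (κ : ℝ) ^ 2 * (1 + (T : ℝ) / N) * Real.logb 2 ((max w L : ℕ) + 1)) ∧
  ∀ (l s L : ℕ) (ord : Fin l → (LV I ≃ Fin (Fintype.card (LV I)))),
    (l : ℝ) ≤ 1 / 128 * Real.logb 2 N → Ref (lift G) κ (Mixed ord s) L →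
    ((W : ℝ) - 5 * b * κ) * Real.logb 2 N ≤
      8000000 * (κ : ℝ) ^ 2 * (1 + (l : ℝ)) * Real.logb 2 ((max s L : ℕ) + 1)

theorem t_CORS (hREZ : S_REZ) (hNUG : S_NUG) (hNUI : S_NUI) (hNUS : S_NUS)
    (hNUB : DAO.S_NUB) (hOBD : DAO.S_OBD) (hOBM : DAO.S_OBM) : S_CORS := by
  classical
  intro I _ _ G H n N W κ b hn hN hn2 hb1 hu hC3 hstr hWn hκ
  subst hn
  set a := Nat.clog 2 (2 ^ 16 * Fintype.card I ^ 8) with ha
  have hbits : bits (Fintype.card I) = 4 * a := rfl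
  have hN' : N = 2 ^ (3 * (4 * a)) +
      3 * (Fintype.card I * (2 ^ (4 * a) + 1)) * (3 * (4 * a)) := by
    rw [hN, card_LV, hbits]
  obtain ⟨h1, h2, h3, h4, -, h6, h7, h8, h9, h10⟩ :=
    hNUG (Fintype.card I) a (4 * a) N 0 hn2 ha rfl hN'
  obtain ⟨-, hbl⟩ := hNUB a (4 * a) N h7 rfl h4 h10
  have h12 : 12 * a = 3 * (4 * a) := by ring
  have h3' : 2 ^ (12 * a) ≤ N := by
    rw [h12]
    exact h3
  have h4' : N ≤ 2 ^ (12 * a + 1) := by
    rw [h12]
    exact h4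
  have hN1 : 1 ≤ N := by omega
  have hne : G.Nonempty := by
    obtain ⟨C, hC, -⟩ := hu fun _ => false
    exact ⟨C, hC⟩
  have hpart1 : ∀ (σ : ℕ → LV I) (T w L : ℕ), (T : ℝ) ≤ 1 / 64 * N * Real.logb 2 N →
      DAP.Ref (lift G) κ (DAP.Prog σ T w) L →
      ((W : ℝ) - 5 * b * κ) * Real.logb 2 N ≤
        4000000 * (κ : ℝ) ^ 2 * (1 + (T : ℝ) / N) * Real.logb 2 ((max w L : ℕ) + 1) := by
    intro σ T w L hT href
    have hL : 1 ≤ L := by
      obtain ⟨f, -, k, hk, -⟩ := href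
      omega
    obtain ⟨k, hk1, hka, hkT, hk4⟩ := exists_k h7 hN1 h4' hT
    have hfin : ((W : ℝ) - 5 * b * κ) * Real.logb 2 N ≤
        1000000 * (κ : ℝ) ^ 2 * (k : ℝ) * Real.logb 2 ((max w L : ℕ) + 1) := by
      refine hNUS (Fintype.card I) a N W κ w L k b hn2 hb1 ha h3' h4' hWn hκ hL hk1 ?_
      rcases Nat.lt_or_ge 256 (Fintype.card I) with hbig | hsmall
      · right
        rcases Nat.lt_or_ge W (b * max κ 2) with hW3 | hW3
        · exact Or.inl hW3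
        right
        rcases Nat.lt_or_ge (2 ^ (Fintype.card I * a)) ((L + 1) *
          2 ^ ((max κ 2 + 1) * ((2 * k + 1) * Nat.clog 2 w) + 1)) with hlt | hge
        · exact Or.inl hlt
        right
        obtain ⟨hi1, hi2⟩ := hNUI (Fintype.card I) a
          (Fintype.card I * (4 * a) + 3 * Fintype.card I + 1 + Fintype.card I * a) hbig.le ha rfl
        have hr : (max κ 2 + 1) * ((W - b * max κ 2) / (max κ 2 + 1)) + b * max κ 2 ≤ W := by
          have := Nat.mul_div_le (W - b * max κ 2) (max κ 2 + 1)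
          omega
        have h9k : 2 ^ (2 * k + 3) * (2 * Fintype.card I * (2 ^ (4 * a) + 1)) ≤
            2 ^ (3 * (4 * a)) :=
          (Nat.mul_le_mul_right _ (Nat.pow_le_pow_right (by norm_num) (by omega))).trans h9
        exact hREZ I (3 * (4 * a)) k T w L a
          (Fintype.card I * (4 * a) + 3 * Fintype.card I + 1 + Fintype.card I * a)
          ((W - b * max κ 2) / (max κ 2 + 1)) W (Fintype.card I * a) (max κ 2) b
          G H σ (by omega) hkT h9k (le_trans (by norm_num) hbig.le) hi1 hi2 rfl hge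
          (le_max_right _ _) hne hstr hr hC3 (DAP.ref_mono (le_max_left _ _) (fun _ h => h) href)
      · exact Or.inl hsmall
    have hs0 : 0 ≤ Real.logb 2 (((max w L : ℕ) : ℝ) + 1) :=
      Real.logb_nonneg (by norm_num) (by
        have : (0 : ℝ) ≤ ((max w L : ℕ) : ℝ) := Nat.cast_nonneg _
        linarith)
    calc ((W : ℝ) - 5 * b * κ) * Real.logb 2 N
        ≤ 1000000 * (κ : ℝ) ^ 2 * (k : ℝ) * Real.logb 2 ((max w L : ℕ) + 1) := hfin
      _ ≤ 1000000 * (κ : ℝ) ^ 2 * (4 * (1 + (T : ℝ) / N)) *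
          Real.logb 2 ((max w L : ℕ) + 1) := by gcongr
      _ = 4000000 * (κ : ℝ) ^ 2 * (1 + (T : ℝ) / N) * Real.logb 2 ((max w L : ℕ) + 1) := by
          ring
  refine ⟨fun σ T w L hT href => hpart1 σ T w L hT (ref_dap le_rfl (fun _ h => prog_dap h) href),
    fun l s L ord hl href => ?_⟩
  have hL : 1 ≤ L := by
    obtain ⟨f, -, k, hk, -⟩ := href
    omega
  have hVpos : 0 < Fintype.card (LV I) := by rw [← hN]; omega
  let ord' : Fin (l + 1) → (LV I ≃ Fin (Fintype.card (LV I))) :=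
    Fin.cons (Fintype.equivFin (LV I)) ord
  let σ : ℕ → LV I := fun τ =>
    (ord' (Fin.ofNat (l + 1) (τ / Fintype.card (LV I)))).symm
      ⟨τ % Fintype.card (LV I), Nat.mod_lt _ hVpos⟩
  have hσ : ∀ (k : Fin (l + 1)) (j : Fin (Fintype.card (LV I))),
      σ (k * Fintype.card (LV I) + j) = (ord' k).symm j := by
    intro k j
    have e1 : ((k : ℕ) * Fintype.card (LV I) + j) / Fintype.card (LV I) = k := by
      rw [Nat.mul_comm, Nat.mul_add_div hVpos, Nat.div_eq_of_lt j.2, Nat.add_zero]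
    have e2 : ((k : ℕ) * Fintype.card (LV I) + j) % Fintype.card (LV I) = j := by
      rw [Nat.mul_comm, Nat.mul_add_mod, Nat.mod_eq_of_lt j.2]
    have e3 : Fin.ofNat (l + 1) (((k : ℕ) * Fintype.card (LV I) + j) / Fintype.card (LV I)) = k := by
      rw [e1]
      exact DAO.ofNat_val k
    have e4 : (⟨((k : ℕ) * Fintype.card (LV I) + j) % Fintype.card (LV I),
        Nat.mod_lt _ hVpos⟩ : Fin (Fintype.card (LV I))) = j := Fin.ext e2
    show (ord' (Fin.ofNat (l + 1) (((k : ℕ) * Fintype.card (LV I) + j) /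
      Fintype.card (LV I)))).symm _ = _
    rw [e3, e4]
  have href' : DAP.Ref (lift G) κ (DAP.Prog σ ((l + 1) * Fintype.card (LV I)) (max s 1)) L := by
    refine ref_dap le_rfl (fun f hf => ?_) href
    rcases hf with ⟨i, s', hs', hob⟩ | hin
    · refine DAP.prog_of_obl (hOBM _ σ _ s (max s 1) f (le_max_left _ _) ?_)
      exact hOBD _ (l + 1) s s' ord' i.succ f σ hs'
        (by rw [show ord' i.succ = ord i from Fin.cons_succ _ _ _]; exact hob) hσ
    · exact DAP.prog_of_ineq (le_max_right _ _) hin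
  have hT := hbl l hl
  have key := hpart1 σ ((l + 1) * Fintype.card (LV I)) (max s 1) L
    (by rw [← hN]; exact hT) href'
  have hmax : max (max s 1) L = max s L := by omega
  rw [hmax] at key
  have hNpos : (0 : ℝ) < N := by exact_mod_cast hN1
  have hdiv : (((l + 1) * Fintype.card (LV I) : ℕ) : ℝ) / N = l + 1 := by
    rw [← hN]
    push_cast
    field_simp
  rw [hdiv] at key
  have hs0 : 0 ≤ Real.logb 2 (((max s L : ℕ) : ℝ) + 1) :=
    Real.logb_nonneg (by norm_num) (by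
      have : (0 : ℝ) ≤ ((max s L : ℕ) : ℝ) := Nat.cast_nonneg _
      linarith)
  have hl2 : 1 + ((l : ℝ) + 1) ≤ 2 * (1 + (l : ℝ)) := by
    have : (0 : ℝ) ≤ l := Nat.cast_nonneg _
    linarith
  calc ((W : ℝ) - 5 * b * κ) * Real.logb 2 N
      ≤ 4000000 * (κ : ℝ) ^ 2 * (1 + ((l : ℝ) + 1)) * Real.logb 2 ((max s L : ℕ) + 1) := key
    _ ≤ 4000000 * (κ : ℝ) ^ 2 * (2 * (1 + (l : ℝ))) * Real.logb 2 ((max s L : ℕ) + 1) := by
        gcongr
    _ = 8000000 * (κ : ℝ) ^ 2 * (1 + (l : ℝ)) * Real.logb 2 ((max s L : ℕ) + 1) := by ring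

end Pool.Agent.DAQ
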