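import Pool.Agent.DAQ.Hard

/-!
# Project DAQ: the statement of the theorem
-/

set_option autoImplicit false

namespace Pool.Agent.DAQ

open Finset Pool.Agent.OB

/-- The theorem. -/
def S_MAIN : Prop := ∃ (c ε : ℝ) (K : ℕ), 0 < c ∧ 0 < ε ∧
  (∀ (I : Type) [Fintype I] [DecidableEq I] (G : CNF I) (n N b : ℕ), n = Fintype.card I →
    N = Fintype.card (LV I) → 2 ≤ n → 2 ≤ b → Unsat G → (∀ C ∈ G, C.card ≤ b) →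
    (n ≤ N ∧ N ≤ n ^ K ∧ Unsat (lift G) ∧ (lift G).card ≤ (G.card + 1) * N ^ (K * b) ∧
      ∀ C ∈ lift G, C.card ≤ K * b * Nat.log 2 N ∧ ¬ Taut C) ∧
    (∀ W : ℕ, Refutable G W → ∃ L ≤ N ^ (K * (W + 1)), Ref (lift G) 2 Ineq L) ∧
    ∀ W κ : ℕ, ¬ Refutable G W → 1 ≤ κ →
      Hard G κ ε fun x => (N : ℝ) ^ ((W - K * b * κ) / (K * κ ^ 2 * (1 + x)) : ℝ) - 1) ∧
  ∀ m ≥ K, ∀ N : ℕ, N = Fintype.card (LV (Fin (m + 1) × (Fin m ⊕ Fin (m + 1)))) →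
    m ≤ N ∧ N ≤ m ^ K ∧ Unsat (lift (php m)) ∧ (lift (php m)).card ≤ N ^ K ∧
    ∀ κ : ℕ, (κ : ℝ) ≤ (N : ℝ) ^ c → Hard (php m) κ ε fun _ => (2 : ℝ) ^ ((N : ℝ) ^ c)

end Pool.Agent.DAQ
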