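import Pool.Agent.DAQ.UPC
import Pool.Agent.DAQ.NUG
import Pool.Agent.DAQ.Main0

/-!
# Project DAQ, module UPD: the upper bound in terms of the number of the variables
-/

set_option autoImplicit false

namespace Pool.Agent.DAQ

open Finset Pool.Agent.OB

theorem upd_numbers {g A N W : ℕ} (hb : 1 ≤ g) (hN : N = 2 ^ g + A * g) (h4 : 4 ≤ N) :
    (A * (2 ^ g * ((g + 1) * 3)) + 1) ^ (2 * W + 3) ≤ N ^ (12 * (W + 1)) := by
  have hg : g + 1 ≤ 2 ^ g := Nat.lt_two_pow_self
  have hA : A ≤ N := by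
    rw [hN]
    exact (Nat.le_mul_of_pos_right A hb).trans (Nat.le_add_left _ _)
  have h2 : 2 ^ g ≤ N := by
    rw [hN]
    exact Nat.le_add_right _ _
  have h5 : A * (2 ^ g * ((g + 1) * 3)) + 1 ≤ N ^ 4 := by
    calc A * (2 ^ g * ((g + 1) * 3)) + 1 ≤ N * (N * (N * 3)) + 1 := by
          refine Nat.add_le_add_right (Nat.mul_le_mul hA (Nat.mul_le_mul h2
            (Nat.mul_le_mul_right _ (hg.trans h2)))) 1
      _ ≤ N ^ 4 := by
          have h6 : 1 ≤ N ^ 3 := Nat.one_le_pow _ _ (by omega)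
          calc N * (N * (N * 3)) + 1 = 3 * N ^ 3 + 1 := by ring
            _ ≤ 4 * N ^ 3 := by omega
            _ ≤ N * N ^ 3 := Nat.mul_le_mul_right _ h4
            _ = N ^ 4 := by ring
  calc (A * (2 ^ g * ((g + 1) * 3)) + 1) ^ (2 * W + 3) ≤ (N ^ 4) ^ (2 * W + 3) :=
        Nat.pow_le_pow_left h5 _
    _ = N ^ (4 * (2 * W + 3)) := (pow_mul _ _ _).symm
    _ ≤ N ^ (12 * (W + 1)) := Nat.pow_le_pow_right (by omega) (by omega)

theorem t_UPD {I : Type} [Fintype I] [DecidableEq I] (G : CNF I) (N W : ℕ)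
    (hN : N = Fintype.card (LV I)) (hn : 2 ≤ Fintype.card I) (h : Refutable G W) :
    ∃ L ≤ N ^ (12 * (W + 1)), Ref (lift G) 2 Ineq L := by
  classical
  obtain ⟨L, hL, hr⟩ := MUPC.upper (M := 2 ^ bits (Fintype.card I))
    (g := 3 * bits (Fintype.card I)) h
  refine ⟨L, hL.trans ?_, hr⟩
  have hN' : N = 2 ^ (3 * bits (Fintype.card I)) +
      3 * (Fintype.card I * (2 ^ bits (Fintype.card I) + 1)) * (3 * bits (Fintype.card I)) := by
    rw [hN, card_LV]
  obtain ⟨-, -, -, -, -, -, h1, -, -, h128⟩ := t_NUG (Fintype.card I)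
    (Nat.clog 2 (2 ^ 16 * Fintype.card I ^ 8)) (bits (Fintype.card I)) N 0 hn rfl rfl hN'
  have hb : 1 ≤ 3 * bits (Fintype.card I) := by
    have h2 : bits (Fintype.card I) = 4 * Nat.clog 2 (2 ^ 16 * Fintype.card I ^ 8) := rfl
    omega
  have hcard : Fintype.card (MUPB.Slot (Fin 3 × I × Fin (2 ^ bits (Fintype.card I) + 1))
      (3 * bits (Fintype.card I))) =
      (3 * (Fintype.card I * (2 ^ bits (Fintype.card I) + 1))) *
        (2 ^ (3 * bits (Fintype.card I)) * ((3 * bits (Fintype.card I) + 1) * 3)) := by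
    simp only [Fintype.card_prod, Fintype.card_fin, Fintype.card_fun,
      Fintype.card_bool, Fintype.card_option]
  rw [hcard]
  exact upd_numbers hb hN' (le_trans (by norm_num) h128)

end Pool.Agent.DAQ
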