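import Pool.Agent.DAQ.Main
import Pool.Agent.DAQ.Main1
import Pool.Agent.DAQ.St2
import Pool.Agent.DAQ.UPD
import Pool.Agent.DAQ.LIB

/-!
# Project DAQ: the theorem, final form
-/

set_option autoImplicit false

namespace Pool.Agent.DAQ

open Finset Pool.Agent.OB Pool.Agent.DGO

theorem cob : S_COB :=
  t_COB (DAP.t_SMW t_CLC t_HOF t_MOM) DAP.t_SMM (DAP.t_CHM t_CHD t_SWP) (DAP.t_GOM t_CHD)
    DAP.t_PSM (t_WLB t_CHD t_FR t_BAD (t_EXT t_CHD)) (t_STA t_CHD t_BAD t_ALL (t_EXT t_CHD))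

theorem rez : S_REZ :=
  t_REZ t_RAO t_OBZ (DAP.t_RDH DAO.t_BIT) DAO.t_EMB DAO.t_AXI DAO.t_PLC cob

theorem cors : S_CORS :=
  t_CORS rez t_NUG t_NUI t_NUS DAO.t_NUB (DAO.t_OBD t_OST) DAO.t_OBM

/-- The bound as a power of `N`. -/
theorem power {N κ W M K b : ℕ} {Y : ℝ} (hN : 1 < N) (hK : 8000000 ≤ K) (hκ : 1 ≤ κ) (hY : 1 ≤ Y)
    (h : ((W : ℝ) - 5 * b * κ) * Real.logb 2 N ≤
      8000000 * (κ : ℝ) ^ 2 * Y * Real.logb 2 ((M : ℝ) + 1)) :
    (N : ℝ) ^ ((W - K * b * κ) / (K * κ ^ 2 * Y) : ℝ) ≤ (M : ℝ) + 1 := by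
  have hNR : (1 : ℝ) < N := by exact_mod_cast hN
  have hNpos : (0 : ℝ) < N := by linarith
  have hKR : (8000000 : ℝ) ≤ K := by exact_mod_cast hK
  have hκR : (1 : ℝ) ≤ κ := by exact_mod_cast hκ
  have hMR : (0 : ℝ) ≤ M := Nat.cast_nonneg _
  have hl : 0 < Real.logb 2 (N : ℝ) := Real.logb_pos (by norm_num) hNR
  have hs : 0 ≤ Real.logb 2 ((M : ℝ) + 1) := Real.logb_nonneg (by norm_num) (by linarith)
  have hden : (0 : ℝ) < K * κ ^ 2 * Y := by positivity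
  have h1 : ((W : ℝ) - K * b * κ) * Real.logb 2 N ≤
      (K * κ ^ 2 * Y) * Real.logb 2 ((M : ℝ) + 1) := by
    calc ((W : ℝ) - K * b * κ) * Real.logb 2 N ≤ ((W : ℝ) - 5 * b * κ) * Real.logb 2 N := by
          refine mul_le_mul_of_nonneg_right ?_ hl.le
          have hbκ : (0 : ℝ) ≤ b * κ := by positivity
          have h5 : 5 * ((b : ℝ) * κ) ≤ K * (b * κ) :=
            mul_le_mul_of_nonneg_right (by linarith) hbκ
          linarith
      _ ≤ 8000000 * (κ : ℝ) ^ 2 * Y * Real.logb 2 ((M : ℝ) + 1) := h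
      _ ≤ (K * κ ^ 2 * Y) * Real.logb 2 ((M : ℝ) + 1) := by gcongr
  have h2 : ((W - K * b * κ) / (K * κ ^ 2 * Y) : ℝ) * Real.logb 2 N ≤
      Real.logb 2 ((M : ℝ) + 1) := by
    rw [div_mul_eq_mul_div, div_le_iff₀ hden]
    linarith
  have h3 : (N : ℝ) = (2 : ℝ) ^ Real.logb 2 (N : ℝ) :=
    (Real.rpow_logb (by norm_num) (by norm_num) hNpos).symm
  have h4 : (M : ℝ) + 1 = (2 : ℝ) ^ Real.logb 2 ((M : ℝ) + 1) :=
    (Real.rpow_logb (by norm_num) (by norm_num) (by linarith)).symm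
  calc (N : ℝ) ^ ((W - K * b * κ) / (K * κ ^ 2 * Y) : ℝ)
      = ((2 : ℝ) ^ Real.logb 2 (N : ℝ)) ^ ((W - K * b * κ) / (K * κ ^ 2 * Y) : ℝ) := by rw [← h3]
    _ = (2 : ℝ) ^ (Real.logb 2 (N : ℝ) * ((W - K * b * κ) / (K * κ ^ 2 * Y) : ℝ)) := by
        rw [← Real.rpow_mul (by norm_num)]
    _ ≤ (2 : ℝ) ^ Real.logb 2 ((M : ℝ) + 1) := by
        refine Real.rpow_le_rpow_of_exponent_le (by norm_num) ?_
        rw [mul_comm]
        exact h2
    _ = (M : ℝ) + 1 := h4.symm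

theorem main2 : S_MAIN := by
  classical
  obtain ⟨m₀, hm₀⟩ := part2
  obtain ⟨K, hK1, hK2⟩ : ∃ K : ℕ, 8000000 ≤ K ∧ m₀ ≤ K :=
    ⟨max 8000000 m₀, le_max_left _ _, le_max_right _ _⟩
  have hK500 : 500 ≤ K := le_trans (by norm_num) hK1
  refine ⟨1 / 8000, 1 / 128, K, by norm_num, by norm_num,
    fun I _ _ G n N b hn hN hn2 hb hu hCb => ?_, fun m hm N hN => ?_⟩
  · obtain ⟨h1, h2, h3, h4, h5⟩ := t_LIB I G n N b hn hN hn2 hb hu hCb
    have hN1 : 1 < N := by omega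
    have hK3 : 3 ≤ K := le_trans (by norm_num) hK1
    have hK4 : 4 ≤ K := le_trans (by norm_num) hK1
    refine ⟨⟨h1, h2.trans (Nat.pow_le_pow_right (by omega) hK500), h3,
      h4.trans (Nat.mul_le_mul_left _ (Nat.pow_le_pow_right (by omega)
        (Nat.mul_le_mul_right _ hK3))),
      fun C hC => ⟨(h5 C hC).1.trans (Nat.mul_le_mul_right _ (Nat.mul_le_mul_right _ hK4)),
        (h5 C hC).2⟩⟩,
      fun W hW => ?_, fun W κ hW hκ => ?_⟩
    · obtain ⟨L, hL, hr⟩ := t_UPD G N W hN (by rw [← hn]; exact hn2) hW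
      refine ⟨L, hL.trans (Nat.pow_le_pow_right (by omega) (Nat.mul_le_mul_right _ ?_)), hr⟩
      exact le_trans (by norm_num) hK1
    obtain ⟨H, hH⟩ := t_STR I G W hW
    have hWn : W ≤ n := by
      rw [hn]
      exact (t_FUL I G W H hH hu).le
    obtain ⟨hc1, hc2⟩ := cors I G H n N W κ b hn hN hn2 (by omega) hu hCb hH hWn hκ
    have hNr : (0 : ℝ) ≤ N * Real.logb 2 N :=
      mul_nonneg (Nat.cast_nonneg _)
        (Real.logb_nonneg (by norm_num) (by exact_mod_cast hN1.le))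
    intro N' hN'
    obtain rfl : N' = N := hN'.trans hN.symm
    refine ⟨fun σ T w L hT href => sub_le_iff_le_add.mpr ?_,
      fun l s L ord hl href => sub_le_iff_le_add.mpr ?_⟩
    · have hx : (0 : ℝ) ≤ (T : ℝ) / N' := by positivity
      refine power hN1 hK1 hκ (by linarith) ((hc1 σ T w L (hT.trans ?_) href).trans ?_)
      · linarith
      · have hs : 0 ≤ Real.logb 2 (((max w L : ℕ) : ℝ) + 1) :=
          Real.logb_nonneg (by norm_num) (by
            have : (0 : ℝ) ≤ ((max w L : ℕ) : ℝ) := Nat.cast_nonneg _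
            linarith)
        gcongr
        norm_num
    · have hx : (0 : ℝ) ≤ (l : ℝ) := Nat.cast_nonneg _
      exact power hN1 hK1 hκ (by linarith) (hc2 l s L ord hl href)
  · obtain ⟨h1, h2, h3, h4, -, h6⟩ := hm₀ m (hK2.trans hm) N hN
    have hm1 : 1 ≤ m := le_trans (le_trans (by norm_num) hK1) hm
    have hN1 : 1 ≤ N := hm1.trans h1
    have hNr : (0 : ℝ) ≤ N * Real.logb 2 N :=
      mul_nonneg (Nat.cast_nonneg _)
        (Real.logb_nonneg (by norm_num) (by exact_mod_cast hN1))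
    refine ⟨h1, h2.trans (Nat.pow_le_pow_right hm1 hK500), h3,
      h4.trans (Nat.pow_le_pow_right hN1 hK500), fun κ hκ => ?_⟩
    obtain ⟨q1, q2⟩ := h6 κ hκ
    intro N' hN'
    obtain rfl : N' = N := hN'.trans hN.symm
    exact ⟨fun σ T w L hT href => q1 σ T w L (hT.trans (by linarith)) href, q2⟩

end Pool.Agent.DAQ
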