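import Mathlib

/-!
# Project DAQ, module RAN: two large sets with few alternations (Alon, Maass)
-/

set_option autoImplicit false

namespace Pool.Agent.DAQ

open Finset

/-- The times `t₀ ≤ t < T` at which `v` is read. -/
def occ {V : Type} [DecidableEq V] (σ : ℕ → V) (t₀ T : ℕ) (v : V) : Finset ℕ :=
  (Ico t₀ T).filter fun t => σ t = v

/-- The times from `t₀` to `T` are cut into at most `s + 1` intervals, `A` is read only in those with
`own = true`, `B` only in those with `own = false`. -/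
def Alt {V : Type} (σ : ℕ → V) (T s t₀ : ℕ) (A₀ B₀ : Finset V) : Prop :=
  ∃ (J : ℕ) (tm : ℕ → ℕ) (own : ℕ → Bool) (A B : Finset V), A ⊆ A₀ ∧ B ⊆ B₀ ∧ J ≤ s + 1 ∧
    A₀.card ≤ 2 ^ s * A.card ∧ B₀.card ≤ 2 ^ s * B.card ∧ tm 0 = t₀ ∧ tm J = T ∧ Monotone tm ∧
    ∀ e < J, ∀ t, tm e ≤ t → t < tm (e + 1) →
      (σ t ∈ A → own e = true) ∧ (σ t ∈ B → own e = false)

namespace MRAN

variable {V : Type} [DecidableEq V] {σ : ℕ → V} {T : ℕ}

omit [DecidableEq V] in
theorem swap {s t₀ : ℕ} {A₀ B₀ : Finset V} (h : Alt σ T s t₀ A₀ B₀) : Alt σ T s t₀ B₀ A₀ := by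
  obtain ⟨J, tm, own, A, B, h1, h2, h3, h4, h5, h6, h7, h8, h9⟩ := h
  refine ⟨J, tm, fun e => !own e, B, A, h2, h1, h3, h5, h4, h6, h7, h8, fun e he t ht1 ht2 => ?_⟩
  obtain ⟨q1, q2⟩ := h9 e he t ht1 ht2
  exact ⟨fun h => by simp [q2 h], fun h => by simp [q1 h]⟩

omit [DecidableEq V] in
/-- One interval. -/
theorem one {s t₀ : ℕ} {A₀ B₀ A B : Finset V} (o : Bool) (ht : t₀ ≤ T) (hA : A ⊆ A₀) (hB : B ⊆ B₀)
    (hA2 : A₀.card ≤ 2 ^ s * A.card) (hB2 : B₀.card ≤ 2 ^ s * B.card)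
    (h : ∀ t, t₀ ≤ t → t < T → (σ t ∈ A → o = true) ∧ (σ t ∈ B → o = false)) :
    Alt σ T s t₀ A₀ B₀ := by
  refine ⟨1, fun e => if e = 0 then t₀ else T, fun _ => o, A, B, hA, hB, by omega, hA2, hB2,
    by simp, by simp, ?_, ?_⟩
  · intro e e' hee
    by_cases h1 : e = 0
    · by_cases h2 : e' = 0
      · simp [h1, h2]
      · simp [h1, h2, ht]
    · have h2 : e' ≠ 0 := by omega
      simp [h1, h2]
  · intro e he t ht1 ht2
    obtain rfl : e = 0 := by omega
    simp only [if_true, Nat.zero_add, one_ne_zero, if_false] at ht1 ht2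
    exact h t ht1 ht2

omit [DecidableEq V] in
/-- One more interval at the beginning. -/
theorem cons {s t₀ t : ℕ} {A₀ B₀ A₁ B₁ : Finset V} (o : Bool) (ht : t₀ ≤ t) (hA : A₁ ⊆ A₀)
    (hB : B₁ ⊆ B₀) (hA2 : A₀.card ≤ 2 * A₁.card) (hB2 : B₀.card ≤ 2 * B₁.card)
    (h : ∀ t', t₀ ≤ t' → t' < t → (σ t' ∈ A₁ → o = true) ∧ (σ t' ∈ B₁ → o = false))
    (hr : Alt σ T s t A₁ B₁) : Alt σ T (s + 1) t₀ A₀ B₀ := by
  obtain ⟨J, tm, own, A, B, h1, h2, h3, h4, h5, h6, h7, h8, h9⟩ := hr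
  refine ⟨J + 1, fun e => if e = 0 then t₀ else tm (e - 1),
    fun e => if e = 0 then o else own (e - 1), A, B, h1.trans hA, h2.trans hB, by omega, ?_, ?_,
    by simp, by simp [h7], ?_, ?_⟩
  · calc A₀.card ≤ 2 * A₁.card := hA2
      _ ≤ 2 * (2 ^ s * A.card) := Nat.mul_le_mul_left _ h4
      _ = 2 ^ (s + 1) * A.card := by rw [pow_succ]; ring
  · calc B₀.card ≤ 2 * B₁.card := hB2
      _ ≤ 2 * (2 ^ s * B.card) := Nat.mul_le_mul_left _ h5
      _ = 2 ^ (s + 1) * B.card := by rw [pow_succ]; ring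
  · intro e e' hee
    by_cases h1 : e = 0
    · by_cases h2 : e' = 0
      · simp [h1, h2]
      · simp only [h1, h2, if_true, if_false]
        refine ht.trans ?_
        rw [← h6]
        exact h8 (Nat.zero_le _)
    · have h2 : e' ≠ 0 := by omega
      simp only [h1, h2, if_false]
      exact h8 (by omega)
  · intro e he t' ht1 ht2
    rcases Nat.eq_zero_or_pos e with h0 | h0
    · subst h0
      simp only [if_true, Nat.zero_add, one_ne_zero, if_false, Nat.sub_self] at ht1 ht2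
      rw [h6] at ht2
      obtain ⟨q1, q2⟩ := h t' ht1 ht2
      exact ⟨fun hm => by simp [q1 (h1 hm)], fun hm => by simp [q2 (h2 hm)]⟩
    · have hne : e ≠ 0 := by omega
      have hne' : e + 1 ≠ 0 := by omega
      simp only [hne, hne', if_false] at ht1 ht2 ⊢
      have he1 : e - 1 + 1 = e := by omega
      refine h9 (e - 1) (by omega) t' ht1 ?_
      rw [he1]
      rw [Nat.add_sub_cancel] at ht2
      exact ht2

/-- The members of `S` read before the time `t`. -/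
def rd (σ : ℕ → V) (t₀ t : ℕ) (S : Finset V) : Finset V :=
  S.filter fun v => (occ σ t₀ t v).Nonempty

theorem rd_subset (t₀ t : ℕ) (S : Finset V) : rd σ t₀ t S ⊆ S := Finset.filter_subset _ _

theorem rd_zero (t₀ t : ℕ) (S : Finset V) (h : t ≤ t₀) : rd σ t₀ t S = ∅ := by
  unfold rd occ
  rw [Finset.Ico_eq_empty (by omega)]
  simp

/-- The number of the readings after `t`. -/
theorem occ_card {t₀ t : ℕ} (h1 : t₀ ≤ t) (h2 : t ≤ T) (v : V) :
    (occ σ t₀ T v).card = (occ σ t₀ t v).card + (occ σ t T v).card := by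
  unfold occ
  rw [← Finset.Ico_union_Ico_eq_Ico h1 h2, Finset.filter_union, Finset.card_union_of_disjoint]
  exact Finset.disjoint_filter_filter (Finset.Ico_disjoint_Ico_consecutive _ _ _)

/-- One step of the induction. -/
theorem caseA {s i j t₀ t : ℕ} {A₀ B₀ : Finset V}
    (ih : ∀ (i j t₀ : ℕ) (A₀ B₀ : Finset V), i + j = s → t₀ ≤ T → Disjoint A₀ B₀ →
      (∀ v ∈ A₀, (occ σ t₀ T v).card ≤ i) → (∀ v ∈ B₀, (occ σ t₀ T v).card ≤ j) →
      Alt σ T s t₀ A₀ B₀)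
    (hij : i + j = s + 1) (ht : t₀ ≤ t) (htT : t ≤ T) (hdis : Disjoint A₀ B₀)
    (hA : ∀ v ∈ A₀, (occ σ t₀ T v).card ≤ i) (hB : ∀ v ∈ B₀, (occ σ t₀ T v).card ≤ j)
    (hne : A₀.Nonempty) (hA2 : A₀.card ≤ 2 * (rd σ t₀ t A₀).card)
    (hB2 : 2 * (rd σ t₀ t B₀).card < B₀.card) : Alt σ T (s + 1) t₀ A₀ B₀ := by
  classical
  have hcard : (B₀ \ rd σ t₀ t B₀).card = B₀.card - (rd σ t₀ t B₀).card :=
    Finset.card_sdiff_of_subset (rd_subset _ _ _)
  have hne' : (rd σ t₀ t A₀).Nonempty := by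
    rw [← Finset.card_pos]
    have := Finset.card_pos.2 hne
    omega
  have hocc : ∀ v ∈ rd σ t₀ t A₀, 1 ≤ (occ σ t₀ t v).card := fun v hv =>
    Finset.card_pos.2 (Finset.mem_filter.1 hv).2
  have hi : 1 ≤ i := by
    obtain ⟨v, hv⟩ := hne'
    have h1 := hocc v hv
    have h2 := hA v (rd_subset _ _ _ hv)
    rw [occ_card ht htT] at h2
    omega
  refine cons true ht (rd_subset t₀ t A₀) Finset.sdiff_subset hA2 (by omega) ?_
    (ih (i - 1) j t (rd σ t₀ t A₀) (B₀ \ rd σ t₀ t B₀) (by omega) htT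
      (hdis.mono (rd_subset _ _ _) Finset.sdiff_subset) ?_ ?_)
  · intro t' h1 h2
    refine ⟨fun _ => rfl, fun hm => ?_⟩
    exfalso
    obtain ⟨q1, q2⟩ := Finset.mem_sdiff.1 hm
    refine q2 (Finset.mem_filter.2 ⟨q1, ⟨t', ?_⟩⟩)
    exact Finset.mem_filter.2 ⟨Finset.mem_Ico.2 ⟨h1, h2⟩, rfl⟩
  · intro v hv
    have h1 := hocc v hv
    have h2 := hA v (rd_subset _ _ _ hv)
    rw [occ_card ht htT] at h2
    omega
  · intro v hv
    have h2 := hB v (Finset.mem_sdiff.1 hv).1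
    rw [occ_card ht htT] at h2
    omega

/-- One more letter. -/
theorem rd_succ {t₀ t : ℕ} {A B : Finset V} (hdis : Disjoint A B)
    (h : (rd σ t₀ (t + 1) A).card ≠ (rd σ t₀ t A).card) :
    (rd σ t₀ (t + 1) B).card = (rd σ t₀ t B).card := by
  classical
  have key : ∀ S : Finset V, σ t ∉ S → rd σ t₀ (t + 1) S = rd σ t₀ t S := by
    intro S hS
    ext v
    simp only [rd, Finset.mem_filter]
    refine and_congr_right fun hv => ?_
    have hne : σ t ≠ v := fun h => hS (h ▸ hv)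
    constructor
    · rintro ⟨t', ht'⟩
      obtain ⟨h1, h2⟩ := Finset.mem_filter.1 ht'
      obtain ⟨h3, h4⟩ := Finset.mem_Ico.1 h1
      refine ⟨t', Finset.mem_filter.2 ⟨Finset.mem_Ico.2 ⟨h3, ?_⟩, h2⟩⟩
      rcases Nat.lt_or_ge t' t with h5 | h5
      · exact h5
      · exfalso
        have : t' = t := by omega
        rw [this] at h2
        exact hne h2
    · rintro ⟨t', ht'⟩
      obtain ⟨h1, h2⟩ := Finset.mem_filter.1 ht'
      obtain ⟨h3, h4⟩ := Finset.mem_Ico.1 h1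
      exact ⟨t', Finset.mem_filter.2 ⟨Finset.mem_Ico.2 ⟨h3, by omega⟩, h2⟩⟩
  have hA : σ t ∈ A := by
    by_contra hA
    exact h (by rw [key A hA])
  rw [key B fun hB => (Finset.disjoint_left.1 hdis) hA hB]

end MRAN

open MRAN

/-- HALF: two sets whose members are read at most `i` and at most `j` times. -/
theorem half {V : Type} [DecidableEq V] (σ : ℕ → V) (T : ℕ) : ∀ (s i j t₀ : ℕ) (A₀ B₀ : Finset V),
    i + j = s → t₀ ≤ T → Disjoint A₀ B₀ → (∀ v ∈ A₀, (occ σ t₀ T v).card ≤ i) →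
    (∀ v ∈ B₀, (occ σ t₀ T v).card ≤ j) → Alt σ T s t₀ A₀ B₀ := by
  classical
  intro s
  induction s with
  | zero =>
    intro i j t₀ A₀ B₀ hij ht hdis hA hB
    obtain ⟨rfl, rfl⟩ : i = 0 ∧ j = 0 := by omega
    refine one true ht (Subset.refl _) (Subset.refl _) (by simp) (by simp) fun t h1 h2 =>
      ⟨fun _ => rfl, fun hs => ?_⟩
    exfalso
    have := hB _ hs
    rw [Nat.le_zero, Finset.card_eq_zero] at this
    have hmem : t ∈ occ σ t₀ T (σ t) :=
      Finset.mem_filter.2 ⟨Finset.mem_Ico.2 ⟨h1, h2⟩, rfl⟩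
    rw [this] at hmem
    exact absurd hmem (Finset.notMem_empty _)
  | succ s ih =>
    intro i j t₀ A₀ B₀ hij ht hdis hA hB
    rcases A₀.eq_empty_or_nonempty with hA0 | hA0
    · subst hA0
      exact one false ht (Subset.refl _) (Subset.refl _) (by simp)
        (Nat.le_mul_of_pos_left _ (by positivity))
        fun t _ _ => ⟨fun h => absurd h (Finset.notMem_empty _), fun _ => rfl⟩
    rcases B₀.eq_empty_or_nonempty with hB0 | hB0
    · subst hB0
      exact one true ht (Subset.refl _) (Subset.refl _)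
        (Nat.le_mul_of_pos_left _ (by positivity)) (by simp)
        fun t _ _ => ⟨fun _ => rfl, fun h => absurd h (Finset.notMem_empty _)⟩
    have hA1 := Finset.card_pos.2 hA0
    have hB1 := Finset.card_pos.2 hB0
    by_cases hex : ∃ t, t ≤ T ∧ (A₀.card ≤ 2 * (rd σ t₀ t A₀).card ∨
        B₀.card ≤ 2 * (rd σ t₀ t B₀).card)
    · obtain ⟨t, ⟨htT, hhalf⟩, hmin⟩ : ∃ t, (t ≤ T ∧ (A₀.card ≤ 2 * (rd σ t₀ t A₀).card ∨
          B₀.card ≤ 2 * (rd σ t₀ t B₀).card)) ∧ ∀ t' < t, ¬ (t' ≤ T ∧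
            (A₀.card ≤ 2 * (rd σ t₀ t' A₀).card ∨ B₀.card ≤ 2 * (rd σ t₀ t' B₀).card)) :=
        ⟨Nat.find hex, Nat.find_spec hex, fun t' h => Nat.find_min hex h⟩
      have htt : t₀ < t := by
        by_contra hle
        rw [not_lt] at hle
        rw [rd_zero t₀ t A₀ hle, rd_zero t₀ t B₀ hle, Finset.card_empty] at hhalf
        omega
      obtain ⟨t', rfl⟩ : ∃ t', t = t' + 1 := ⟨t - 1, by omega⟩
      have hm := hmin t' (Nat.lt_succ_self _)
      rw [not_and, not_or, not_le, not_le] at hm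
      obtain ⟨hm1, hm2⟩ := hm (by omega)
      rcases hhalf with hh | hh
      · have hB2 : (rd σ t₀ (t' + 1) B₀).card = (rd σ t₀ t' B₀).card :=
          rd_succ hdis (by omega)
        exact caseA ih hij htt.le htT hdis hA hB hA0 hh (by omega)
      · have hA2 : (rd σ t₀ (t' + 1) A₀).card = (rd σ t₀ t' A₀).card :=
          rd_succ hdis.symm (by omega)
        exact swap (caseA ih (by omega : j + i = s + 1) htt.le htT hdis.symm hB hA hB0 hh
          (by omega))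
    · push Not at hex
      obtain ⟨h1, h2⟩ := hex T le_rfl
      have hcA : (A₀ \ rd σ t₀ T A₀).card = A₀.card - (rd σ t₀ T A₀).card :=
        Finset.card_sdiff_of_subset (rd_subset _ _ _)
      have hcB : (B₀ \ rd σ t₀ T B₀).card = B₀.card - (rd σ t₀ T B₀).card :=
        Finset.card_sdiff_of_subset (rd_subset _ _ _)
      have h2s : 2 ≤ 2 ^ (s + 1) := by
        calc 2 = 2 ^ 1 := by norm_num
          _ ≤ 2 ^ (s + 1) := Nat.pow_le_pow_right (by norm_num) (by omega)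
      have hnot : ∀ (S : Finset V) (t : ℕ), t₀ ≤ t → t < T → σ t ∈ S \ rd σ t₀ T S → False := by
        intro S t h3 h4 hm
        obtain ⟨q1, q2⟩ := Finset.mem_sdiff.1 hm
        refine q2 (Finset.mem_filter.2 ⟨q1, ⟨t, ?_⟩⟩)
        exact Finset.mem_filter.2 ⟨Finset.mem_Ico.2 ⟨h3, h4⟩, rfl⟩
      refine one (A := A₀ \ rd σ t₀ T A₀) (B := B₀ \ rd σ t₀ T B₀) true ht Finset.sdiff_subset
        Finset.sdiff_subset ?_ ?_ fun t h3 h4 =>
        ⟨fun _ => rfl, fun hm => (hnot B₀ t h3 h4 hm).elim⟩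
      · calc A₀.card ≤ 2 * (A₀ \ rd σ t₀ T A₀).card := by omega
          _ ≤ 2 ^ (s + 1) * (A₀ \ rd σ t₀ T A₀).card := Nat.mul_le_mul_right _ h2s
      · calc B₀.card ≤ 2 * (B₀ \ rd σ t₀ T B₀).card := by omega
          _ ≤ 2 ^ (s + 1) * (B₀ \ rd σ t₀ T B₀).card := Nat.mul_le_mul_right _ h2s

end Pool.Agent.DAQ
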