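import Pool.Agent.DAQ.RAN

/-!
# Project DAQ, module RAO: two large sets with few alternations, in a pool
-/

set_option autoImplicit false

namespace Pool.Agent.DAQ

open Finset

/-- Two large sets with few alternations. -/
def S_RAO : Prop := ∀ (V : Type) [DecidableEq V] (U : Finset V) (σ : ℕ → V) (T k : ℕ),
  8 ≤ U.card → 2 * T ≤ k * U.card →
  ∃ (J : ℕ) (tm : ℕ → ℕ) (own : ℕ → Bool) (A B : Finset V), A ⊆ U ∧ B ⊆ U ∧ Disjoint A B ∧
    J ≤ 2 * k + 1 ∧ U.card ≤ 2 ^ (2 * k + 3) * A.card ∧ U.card ≤ 2 ^ (2 * k + 3) * B.card ∧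
    tm 0 = 0 ∧ tm J = T ∧ Monotone tm ∧
    ∀ e < J, ∀ t, tm e ≤ t → t < tm (e + 1) →
      (σ t ∈ A → own e = true) ∧ (σ t ∈ B → own e = false)

theorem t_RAO : S_RAO := by
  classical
  intro V _ U σ T k h8 h2T
  -- the members which are read at most `k` times
  have hsum : ∑ v ∈ U, (occ σ 0 T v).card ≤ T := by
    have h1 : ∑ v ∈ U, (occ σ 0 T v).card = (U.biUnion fun v => occ σ 0 T v).card := by
      refine (Finset.card_biUnion ?_).symm
      intro v _ v' _ hne
      rw [Function.onFun, Finset.disjoint_left]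
      intro t h1 h2
      exact hne ((Finset.mem_filter.1 h1).2.symm.trans (Finset.mem_filter.1 h2).2)
    rw [h1]
    refine (Finset.card_le_card (t := Ico 0 T) ?_).trans (by simp)
    intro t ht
    obtain ⟨v, -, hv⟩ := Finset.mem_biUnion.1 ht
    exact (Finset.mem_filter.1 hv).1
  obtain ⟨U', hU'⟩ : ∃ U' : Finset V, U' = U.filter fun v => (occ σ 0 T v).card ≤ k := ⟨_, rfl⟩
  have hlarge : (k + 1) * (U.filter fun v => ¬ (occ σ 0 T v).card ≤ k).card ≤ T := by
    refine le_trans ?_ hsum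
    calc (k + 1) * (U.filter fun v => ¬ (occ σ 0 T v).card ≤ k).card
        = ∑ v ∈ U.filter fun v => ¬ (occ σ 0 T v).card ≤ k, (k + 1) := by
          rw [Finset.sum_const, smul_eq_mul, Nat.mul_comm]
      _ ≤ ∑ v ∈ U.filter fun v => ¬ (occ σ 0 T v).card ≤ k, (occ σ 0 T v).card := by
          refine Finset.sum_le_sum fun v hv => ?_
          have := (Finset.mem_filter.1 hv).2
          omega
      _ ≤ ∑ v ∈ U, (occ σ 0 T v).card :=
          Finset.sum_le_sum_of_subset (Finset.filter_subset _ _)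
  have hsplit : U'.card + (U.filter fun v => ¬ (occ σ 0 T v).card ≤ k).card = U.card := by
    rw [hU']
    exact Finset.card_filter_add_card_filter_not _
  have hU2 : U.card ≤ 2 * U'.card := by
    obtain ⟨x, hx⟩ : ∃ x, x = (U.filter fun v => ¬ (occ σ 0 T v).card ≤ k).card := ⟨_, rfl⟩
    rw [← hx] at hlarge hsplit
    have h1 : 2 * ((k + 1) * x) ≤ (k + 1) * U.card := by
      calc 2 * ((k + 1) * x) ≤ 2 * T := Nat.mul_le_mul_left _ hlarge
        _ ≤ k * U.card := h2T
        _ ≤ (k + 1) * U.card := Nat.mul_le_mul_right _ (Nat.le_succ _)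
    have h2 : (k + 1) * (2 * x) ≤ (k + 1) * U.card := by
      refine le_trans (le_of_eq ?_) h1
      ring
    have h3 : 2 * x ≤ U.card := Nat.le_of_mul_le_mul_left h2 (Nat.succ_pos k)
    omega
  -- two halves
  obtain ⟨A₀, hA₀, hcA⟩ := Finset.exists_subset_card_eq (s := U') (n := U'.card / 2) (by omega)
  have hcB : (U' \ A₀).card = U'.card - U'.card / 2 := by
    rw [Finset.card_sdiff_of_subset hA₀, hcA]
  have hocc : ∀ v ∈ U', (occ σ 0 T v).card ≤ k := by
    intro v hv
    rw [hU'] at hv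
    exact (Finset.mem_filter.1 hv).2
  have hUU : U' ⊆ U := by
    rw [hU']
    exact Finset.filter_subset _ _
  obtain ⟨J, tm, own, A, B, h1, h2, h3, h4, h5, h6, h7, h8', h9⟩ :=
    half σ T (2 * k) k k 0 A₀ (U' \ A₀) (by ring) (Nat.zero_le _) Finset.disjoint_sdiff
      (fun v hv => hocc v (hA₀ hv)) (fun v hv => hocc v (Finset.mem_sdiff.1 hv).1)
  refine ⟨J, tm, own, A, B, (h1.trans hA₀).trans hUU, (h2.trans Finset.sdiff_subset).trans hUU,
    Finset.disjoint_sdiff.mono h1 h2, h3, ?_, ?_, h6, h7, h8', h9⟩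
  · have : U.card ≤ 8 * A₀.card := by omega
    calc U.card ≤ 8 * A₀.card := this
      _ ≤ 8 * (2 ^ (2 * k) * A.card) := Nat.mul_le_mul_left _ h4
      _ = 2 ^ (2 * k + 3) * A.card := by rw [pow_add]; ring
  · have : U.card ≤ 8 * (U' \ A₀).card := by omega
    calc U.card ≤ 8 * (U' \ A₀).card := this
      _ ≤ 8 * (2 ^ (2 * k) * B.card) := Nat.mul_le_mul_left _ h5
      _ = 2 ^ (2 * k + 3) * B.card := by rw [pow_add]; ring

end Pool.Agent.DAQ
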