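import Pool.Agent.DAQ.Defs
import Pool.Agent.DGO.CDefs

/-!
# Project DAQ, module STQ: a strategy with memory `W + 1` excludes resolution refutations of width `W`
-/

set_option autoImplicit false

namespace Pool.Agent.DAQ

open Finset Pool.Agent.OB Pool.Agent.DGO

theorem t_STQ {V : Type} [Fintype V] [DecidableEq V] (G : CNF V) (W : ℕ)
    (H : Finset V → (V → Bool) → Prop) (hH : Strat G (W + 1) H) : ¬ Refutable G W := by
  classical
  have key : ∀ C, Res G W C → ∀ Q z, H Q z → (∀ l ∈ C, l.1 ∈ Q) → Sat z C := by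
    intro C hC
    induction hC with
    | ax h => exact fun Q z hQ hv => hH.good Q z _ hQ h hv
    | @res C D v hC hD hvC hvD hcard ihC ihD =>
      intro Q z hQ hv
      obtain ⟨R, hR⟩ : ∃ R : Clause V, R = C.erase (v, true) ∪ D.erase (v, false) := ⟨_, rfl⟩
      rw [← hR] at hcard hv ⊢
      have hQ'1 : (R.image Prod.fst).card ≤ W := Finset.card_image_le.trans hcard
      have hQ'2 : H (R.image Prod.fst) z := hH.mono Q _ z hQ (by
        intro i hi
        obtain ⟨l, hl, rfl⟩ := Finset.mem_image.1 hi
        exact hv l hl)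
      obtain ⟨Q₂, z₂, h1, h2, h3, h4⟩ : ∃ (Q₂ : Finset V) (z₂ : V → Bool), H Q₂ z₂ ∧
          R.image Prod.fst ⊆ Q₂ ∧ v ∈ Q₂ ∧ ∀ i ∈ R.image Prod.fst, z₂ i = z i := by
        by_cases hvQ : v ∈ R.image Prod.fst
        · exact ⟨_, z, hQ'2, Subset.refl _, hvQ, fun _ _ => rfl⟩
        · obtain ⟨b, hb⟩ := hH.ext _ z v hQ'2 (by omega) hvQ
          refine ⟨_, _, hb, Finset.subset_insert _ _, Finset.mem_insert_self _ _, fun i hi => ?_⟩
          refine Function.update_of_ne (fun h => hvQ ?_) _ _
          rw [← h]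
          exact hi
      have hmemR : ∀ l ∈ R, Sat z₂ {l} → Sat z R := by
        intro l hl hs
        obtain ⟨l', hl', hs'⟩ := hs
        rw [Finset.mem_singleton] at hl'
        subst hl'
        exact ⟨l', hl, by rw [← h4 l'.1 (Finset.mem_image_of_mem _ hl)]; exact hs'⟩
      have hCv : ∀ l ∈ C, l.1 ∈ Q₂ := by
        intro l hl
        by_cases he : l = (v, true)
        · rw [he]
          exact h3
        · refine h2 (Finset.mem_image_of_mem _ ?_)
          rw [hR]
          exact Finset.mem_union_left _ (Finset.mem_erase.2 ⟨he, hl⟩)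
      have hDv : ∀ l ∈ D, l.1 ∈ Q₂ := by
        intro l hl
        by_cases he : l = (v, false)
        · rw [he]
          exact h3
        · refine h2 (Finset.mem_image_of_mem _ ?_)
          rw [hR]
          exact Finset.mem_union_right _ (Finset.mem_erase.2 ⟨he, hl⟩)
      obtain ⟨l, hl, hs⟩ := ihC Q₂ z₂ h1 hCv
      by_cases he : l = (v, true)
      · obtain ⟨l', hl', hs'⟩ := ihD Q₂ z₂ h1 hDv
        by_cases he' : l' = (v, false)
        · rw [he] at hs
          rw [he'] at hs'
          simp only at hs hs'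
          rw [hs] at hs'
          exact absurd hs' (by simp)
        · refine hmemR l' ?_ ⟨l', Finset.mem_singleton_self _, hs'⟩
          rw [hR]
          exact Finset.mem_union_right _ (Finset.mem_erase.2 ⟨he', hl'⟩)
      · refine hmemR l ?_ ⟨l, Finset.mem_singleton_self _, hs⟩
        rw [hR]
        exact Finset.mem_union_left _ (Finset.mem_erase.2 ⟨he, hl⟩)
  intro hr
  obtain ⟨l, hl, -⟩ := key ∅ hr ∅ (fun _ => false) (hH.emp _) fun l hl =>
    absurd hl (Finset.notMem_empty _)
  exact absurd hl (Finset.notMem_empty _)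

end Pool.Agent.DAQ
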