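import Pool.Agent.DAQ.Defs
import Pool.Agent.DAP.St

/-!
# Project DAQ: statements

Every `S_XXX` is proved in `Pool/Agent/DAQ/XXX.lean` as `theorem Pool.Agent.DAQ.t_XXX : S_XXX`.
`Strat` is `Pool.Agent.DGO.Strat` (file Pool/Agent/DGO/CDefs.lean).
-/

set_option autoImplicit false

namespace Pool.Agent.DAQ

open Finset Pool.Agent.OB Pool.Agent.DGO

/-! ## Resolution width and strategies -/

/-- STR: a formula without a resolution refutation of width `W` has a strategy with memory `W`.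
Proof. `H Q z := ∀ C, Res G W C → (∀ l ∈ C, l.1 ∈ Q) → Sat z C`. `emp`: a clause `C` with
`∀ l ∈ C, l.1 ∈ ∅` is `∅`, and `Refutable G W` is `Res G W ∅`. `mono`, `congr`: clear. `good`: `Res.ax`.
`ext`: let `H Q z`, `Q.card < W`, `i ∉ Q`, and suppose that both values of `b` fail: there are `C`, `D`
with `Res G W C`, `Res G W D`, all variables in `insert i Q`, `C` is not satisfied by
`update z i true`, `D` is not satisfied by `update z i false`. So `(i, true) ∉ C` and `(i, false) ∉ D`.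
If `(i, false) ∉ C` then all variables of `C` are in `Q`, so `Sat z C` by `H Q z`, and then
`Sat (update z i true) C` as `i ∉ Q`: a contradiction. So `(i, false) ∈ C`, in the same way
`(i, true) ∈ D`. Let `R = D.erase (i, true) ∪ C.erase (i, false)`. All its literals `l` have `l.1 ∈ Q` and
are falsified by `z` (`z l.1 = !l.2`), so `R ⊆ Q.image fun j => (j, !z j)` and `R.card ≤ Q.card ≤ W`. So
`Res G W R` (`Res.res`, with `C := D`, `D := C`), so `Sat z R` by `H Q z`, a contradiction. -/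
def S_STR : Prop := ∀ (V : Type) [Fintype V] [DecidableEq V] (G : CNF V) (W : ℕ),
  ¬ Refutable G W → ∃ H : Finset V → (V → Bool) → Prop, Strat G W H

/-- FUL: an unsatisfiable formula has no strategy with full memory.
Proof. Let `card I ≤ W`. By induction on `k ≤ card I` there are `Q`, `z` with `Q.card = k` and `H Q z`
(`emp`; `ext` with `i ∉ Q`, which exists as `Q.card < card I`, and `Finset.card_insert_of_notMem`). For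
`k = card I` it is `Q = univ`, and by `good` all clauses of `G` are satisfied by `z`. -/
def S_FUL : Prop := ∀ (I : Type) [Fintype I] [DecidableEq I] (G : CNF I) (W : ℕ)
  (H : Finset I → (I → Bool) → Prop), Strat G W H → Unsat G → W < Fintype.card I

/-! ## Numbers -/

/-- NUG: the numbers, part 1.
Proof. As `Pool.Agent.DAP.t_NUE` (file Pool/Agent/DAP/NUE.lean), with `n ≥ 2` instead of `m ≥ 10`.
`2 ^ 16 n ^ 8 ≤ 2 ^ a` (`Nat.le_pow_clog`), `2 ^ a ≤ 2 ^ 17 n ^ 8` (`Nat.pow_pred_clog_lt_self`), so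
`a ≥ 24`. `2 ^ (3 t + 1) = 2 (2 ^ a) ^ 12 ≤ 2 ^ 205 n ^ 96 ≤ n ^ 301`. With `X = 2 ^ t`: `n ≤ X`,
`2 n + n X + g (X + 1) ^ 3 ≤ (g + 1) (2 X + X ^ 2 + 8 X ^ 3) ≤ (g + 1) X ^ 4`, and
`X ^ 4 * X ^ 18 ≤ (X ^ 3) ^ 500`. -/
def S_NUG : Prop := ∀ n a t N g : ℕ, 2 ≤ n → a = Nat.clog 2 (2 ^ 16 * n ^ 8) → t = 4 * a →
  N = 2 ^ (3 * t) + 3 * (n * (2 ^ t + 1)) * (3 * t) →
  n ≤ N ∧ N ≤ n ^ 500 ∧ 2 ^ (3 * t) ≤ N ∧ N ≤ 2 ^ (3 * t + 1) ∧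
  (2 * n + n * 2 ^ t + g * (2 ^ t + 1) ^ 3) * 2 ^ (6 * (3 * t)) ≤ (g + 1) * N ^ 500 ∧
  6 * (3 * t + 1) ≤ 500 * Nat.log 2 N ∧ 1 ≤ a ∧ 8 * a ≤ 2 ^ (3 * t) ∧
  2 ^ (2 * a + 5) * (2 * n * (2 ^ t + 1)) ≤ 2 ^ (3 * t) ∧ 2 ^ 128 ≤ N

/-- NUI: the numbers, part 2.
Proof. As `small` and `protocols` in Pool/Agent/DAP/NUE.lean. With `F = Nat.log 2 n ≥ 8`:
`n < 2 ^ (F + 1)`, `2 ^ 16 n ^ 8 ≤ 2 ^ (24 + 8 F)`, so `a ≤ 24 + 8 F`, and `10 a + 7 ≤ 247 + 80 F ≤ 4 * 2 ^ F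
≤ 4 n` (`F = 8`: `887 ≤ 1024`; induction). So `2 d + 1 = 10 a n + 6 n + 3 ≤ n (10 a + 7) ≤ 4 n²`. -/
def S_NUI : Prop := ∀ n a d : ℕ, 256 ≤ n → a = Nat.clog 2 (2 ^ 16 * n ^ 8) →
  d = n * (4 * a) + 3 * n + 1 + n * a →
  2 ^ 14 * n ^ 6 * (2 * d + 1) ≤ 2 ^ a ∧
  16 * n * (2 ^ 11 * n ^ 6 * (2 * d + 1)) ^ n * 4 ^ d ≤ 2 ^ ((2 ^ a) ^ 2 / 2)

/-- NUK: the numbers, part 3.
Proof. Let `S = max w L + 1 ≥ 2`, `s = logb 2 S ≥ 1`, `l = logb 2 N ≥ 12 a`, `a ≥ 24`; it is enough to show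
`W ≤ 2409 κ² a s`, as `2409 / 12 ≤ 500`. `n ≤ 256`: `W ≤ n ≤ 256 ≤ 500 l`. `W < 3 max κ 2 ≤ 6 κ`: clear. Let `M`
be the large number. `Nat.clog 2 w ≤ 2 s` (`2 ^ (clog 2 w - 1) < w ≤ S` if `2 ≤ w`; `clog 2 w = 0` if
`w ≤ 1`), `L + 1 ≤ S`, `max κ 2 + 1 ≤ 3 κ`, `4 a² + 1 ≤ 5 a²`, so
`logb 2 M ≤ s + 3 κ * 5 a² * 2 s + 1 ≤ 32 κ a² s`. If `2 ^ (n a) < M` then `n a ≤ 32 κ a² s`, so
`W ≤ n ≤ 32 κ a s`. If `n ^ r ≤ M` with `r = (W - 3 max κ 2) / (max κ 2 + 1)` then `r logb 2 n ≤ 32 κ a² s`.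
`2 ^ a ≤ 2 ^ 17 n ^ 8`, so `a ≤ 17 + 8 logb 2 n ≤ 25 logb 2 n`, so `r a ≤ 800 κ a² s`, `r ≤ 800 κ a s`, and
`W ≤ (max κ 2 + 1) (r + 1) + 3 max κ 2 ≤ 3 κ r + 9 κ ≤ 2409 κ² a s`. -/
def S_NUK : Prop := ∀ n a N W κ w L : ℕ, 2 ≤ n → a = Nat.clog 2 (2 ^ 16 * n ^ 8) →
  2 ^ (12 * a) ≤ N → W ≤ n → 1 ≤ κ → 1 ≤ L →
  (n ≤ 256 ∨ W < 3 * max κ 2 ∨
    2 ^ (n * a) < (L + 1) * 2 ^ ((max κ 2 + 1) * ((4 * a ^ 2 + 1) * Nat.clog 2 w) + 1) ∨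
    n ^ ((W - 3 * max κ 2) / (max κ 2 + 1)) ≤
      (L + 1) * 2 ^ ((max κ 2 + 1) * ((4 * a ^ 2 + 1) * Nat.clog 2 w) + 1)) →
  (W : ℝ) ≤ 500 * (κ : ℝ) ^ 2 * Real.logb 2 N * Real.logb 2 ((max w L : ℕ) + 1)

/-- NUJ: the numbers for the pigeonhole principle.
Proof. Let `E = N ^ (1 / 8000)`, so `1 ≤ E ≤ m ^ (1 / 16)`, `logb 2 N ≤ 500 logb 2 m`, `κ² ≤ E²`. So
`logb 2 (S + 1) ≥ m / (250000 E² logb 2 m) ≥ 2 E`, if `m ^ (13 / 16) ≥ 500000 logb 2 m`: true for large `m`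
(e.g. `Real.isLittleO_log_rpow_atTop`, or `log x ≤ x ^ ε / ε` (`Real.log_le_rpow_div`)). So
`S + 1 ≥ 2 ^ (2 E) ≥ 2 * 2 ^ E ≥ 2 ^ E + 1`. -/
def S_NUJ : Prop := ∃ m₀ : ℕ, ∀ m ≥ m₀, ∀ N κ S : ℕ, m ≤ N → N ≤ m ^ 500 → 1 ≤ S →
  (κ : ℝ) ≤ (N : ℝ) ^ (1 / 8000 : ℝ) →
  (m : ℝ) ≤ 500 * (κ : ℝ) ^ 2 * Real.logb 2 N * Real.logb 2 ((S : ℝ) + 1) →
  (2 : ℝ) ^ ((N : ℝ) ^ (1 / 8000 : ℝ)) ≤ (S : ℝ)

/-! ## The theorem -/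

/-- The lower bound for a formula with a strategy (assembled by the architect). -/
def S_CORE : Prop := ∀ (I : Type) [Fintype I] [DecidableEq I] (G : CNF I)
  (H : Finset I → (I → Bool) → Prop) (n N W κ : ℕ), n = Fintype.card I → N = Fintype.card (LV I) →
  2 ≤ n → Unsat G → (∀ C ∈ G, C.card ≤ 3) → Strat G W H → W ≤ n → 1 ≤ κ →
  (∀ (σ : ℕ → LV I) (T w L : ℕ), (T : ℝ) ≤ 1 / 64 * N * Real.logb 2 N →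
    Ref (lift G) κ (Prog σ T w) L →
    (W : ℝ) ≤ 500 * (κ : ℝ) ^ 2 * Real.logb 2 N * Real.logb 2 ((max w L : ℕ) + 1)) ∧
  ∀ (l s L : ℕ) (ord : Fin l → (LV I ≃ Fin (Fintype.card (LV I)))),
    (l : ℝ) ≤ 1 / 128 * Real.logb 2 N → Ref (lift G) κ (Mixed ord s) L →
    (W : ℝ) ≤ 500 * (κ : ℝ) ^ 2 * Real.logb 2 N * Real.logb 2 ((max s L : ℕ) + 1)

/-- Part 1: lifting. -/
def S_LIFT : Prop := ∀ (I : Type) [Fintype I] [DecidableEq I] (G : CNF I) (n N : ℕ),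
  n = Fintype.card I → N = Fintype.card (LV I) → 2 ≤ n → Unsat G → (∀ C ∈ G, C.card ≤ 3) →
  n ≤ N ∧ N ≤ n ^ 500 ∧ Unsat (lift G) ∧ (lift G).card ≤ (G.card + 1) * N ^ 500 ∧
  (∀ C ∈ lift G, C.card ≤ 500 * Nat.log 2 N ∧ ¬ Taut C) ∧
  ∀ W : ℕ, ¬ Refutable G W → ∀ κ : ℕ, 1 ≤ κ →
    (∀ (σ : ℕ → LV I) (T w L : ℕ), (T : ℝ) ≤ 1 / 64 * N * Real.logb 2 N →
      Ref (lift G) κ (Prog σ T w) L →
      (W : ℝ) ≤ 500 * (κ : ℝ) ^ 2 * Real.logb 2 N * Real.logb 2 ((max w L : ℕ) + 1)) ∧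
    ∀ (l s L : ℕ) (ord : Fin l → (LV I ≃ Fin (Fintype.card (LV I)))),
      (l : ℝ) ≤ 1 / 128 * Real.logb 2 N → Ref (lift G) κ (Mixed ord s) L →
      (W : ℝ) ≤ 500 * (κ : ℝ) ^ 2 * Real.logb 2 N * Real.logb 2 ((max s L : ℕ) + 1)

/-- Part 2: the pigeonhole principle. -/
def S_PART2 : Prop := ∃ m₀ : ℕ, ∀ m ≥ m₀, ∀ N : ℕ,
  N = Fintype.card (LV (Fin (m + 1) × (Fin m ⊕ Fin (m + 1)))) →
  m ≤ N ∧ N ≤ m ^ 500 ∧ Unsat (lift (php m)) ∧ (lift (php m)).card ≤ N ^ 500 ∧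
  (∀ C ∈ lift (php m), C.card ≤ 500 * Nat.log 2 N ∧ ¬ Taut C) ∧
  ∀ κ : ℕ, (κ : ℝ) ≤ (N : ℝ) ^ (1 / 8000 : ℝ) →
  (∀ (σ : ℕ → LV (Fin (m + 1) × (Fin m ⊕ Fin (m + 1)))) (T w L : ℕ),
    (T : ℝ) ≤ 1 / 64 * N * Real.logb 2 N → Ref (lift (php m)) κ (Prog σ T w) L →
      (2 : ℝ) ^ ((N : ℝ) ^ (1 / 8000 : ℝ)) ≤ (max w L : ℕ)) ∧
  ∀ (l s L : ℕ) (ord : Fin l → (LV (Fin (m + 1) × (Fin m ⊕ Fin (m + 1))) ≃
      Fin (Fintype.card (LV (Fin (m + 1) × (Fin m ⊕ Fin (m + 1))))))),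
    (l : ℝ) ≤ 1 / 128 * Real.logb 2 N → Ref (lift (php m)) κ (Mixed ord s) L →
      (2 : ℝ) ^ ((N : ℝ) ^ (1 / 8000 : ℝ)) ≤ (max s L : ℕ)

end Pool.Agent.DAQ
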