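import Pool.Agent.DAQ.Defs

/-!
# Project DAQ, module UPA: refutations from closure under semantic branching
-/

set_option autoImplicit false

namespace Pool.Agent.DAQ

open Finset Pool.Agent.OB

namespace MUPA

/-- All literals of `ρ` are true. -/
def Hold {V : Type} (x : V → Bool) (ρ : Finset (Lit V)) : Prop := ∀ l ∈ ρ, x l.1 = l.2

/-- The refutable records. -/
inductive Rf {V R : Type} (F : CNF V) (hold : R → (V → Bool) → Prop) (𝒜 : Finset R) : R → Prop
  | triv {ρ : R} : ρ ∈ 𝒜 → (∀ x, ¬ hold ρ x) → Rf F hold 𝒜 ρ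
  | ax {ρ : R} {C : Clause V} : ρ ∈ 𝒜 → C ∈ F → (∀ x, hold ρ x → ¬ Sat x C) → Rf F hold 𝒜 ρ
  | br {ρ ρ₀ ρ₁ : R} : ρ ∈ 𝒜 → Rf F hold 𝒜 ρ₀ → Rf F hold 𝒜 ρ₁ →
      (∀ x, hold ρ x → hold ρ₀ x ∨ hold ρ₁ x) → Rf F hold 𝒜 ρ

variable {V R : Type} {F : CNF V} {hold : R → (V → Bool) → Prop} {𝒜 : Finset R}

theorem Rf.mem {ρ : R} (h : Rf F hold 𝒜 ρ) : ρ ∈ 𝒜 := by
  cases h with
  | triv h _ => exact h
  | ax h _ _ => exact h
  | br h _ _ _ => exact h

/-- The record `ρ` can be added to the list. -/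
def Add (F : CNF V) (hold : R → (V → Bool) → Prop) (ℓ : List R) (ρ : R) : Prop :=
  (∀ x, ¬ hold ρ x) ∨ (∃ C ∈ F, ∀ x, hold ρ x → ¬ Sat x C) ∨
    ∃ ρ₀ ∈ ℓ, ∃ ρ₁ ∈ ℓ, ∀ x, hold ρ x → hold ρ₀ x ∨ hold ρ₁ x

/-- Derivation sequences. -/
inductive Sq (F : CNF V) (hold : R → (V → Bool) → Prop) (𝒜 : Finset R) : List R → Prop
  | nil : Sq F hold 𝒜 []
  | snoc {ℓ : List R} {ρ : R} : Sq F hold 𝒜 ℓ → ρ ∈ 𝒜 → ρ ∉ ℓ → Add F hold ℓ ρ →
      Sq F hold 𝒜 (ℓ ++ [ρ])

theorem Sq.nodup {ℓ : List R} (h : Sq F hold 𝒜 ℓ) : ℓ.Nodup ∧ ∀ ρ ∈ ℓ, ρ ∈ 𝒜 := by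
  induction h with
  | nil => exact ⟨List.nodup_nil, fun ρ h => absurd h (List.not_mem_nil)⟩
  | snoc _ h1 h2 _ ih =>
    refine ⟨List.nodup_append.2 ⟨ih.1, List.nodup_singleton _, ?_⟩, ?_⟩
    · intro a ha b hb hab
      rw [List.mem_singleton] at hb
      rw [hb] at hab
      exact h2 (hab ▸ ha)
    · intro ρ hρ
      rcases List.mem_append.1 hρ with h | h
      · exact ih.2 ρ h
      · rw [List.mem_singleton.1 h]
        exact h1

theorem Sq.length_le {ℓ : List R} (h : Sq F hold 𝒜 ℓ) : ℓ.length ≤ 𝒜.card := by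
  classical
  obtain ⟨h1, h2⟩ := h.nodup
  rw [← List.toFinset_card_of_nodup h1]
  exact Finset.card_le_card fun ρ hρ => h2 ρ (List.mem_toFinset.1 hρ)

theorem Sq.idx {ℓ : List R} (h : Sq F hold 𝒜 ℓ) (d : R) : ∀ k < ℓ.length,
    (∀ x, ¬ hold (ℓ.getD k d) x) ∨ (∃ C ∈ F, ∀ x, hold (ℓ.getD k d) x → ¬ Sat x C) ∨
      ∃ i < k, ∃ j < k, ∀ x, hold (ℓ.getD k d) x → hold (ℓ.getD i d) x ∨ hold (ℓ.getD j d) x := by
  induction h with
  | nil => intro k hk; exact absurd hk (Nat.not_lt_zero _)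
  | @snoc ℓ ρ hs h1 h2 h3 ih =>
    intro k hk
    have hget : ∀ i < ℓ.length, (ℓ ++ [ρ]).getD i d = ℓ.getD i d := fun i hi =>
      List.getD_append _ _ _ _ hi
    rw [List.length_append, List.length_singleton] at hk
    rcases Nat.lt_or_ge k ℓ.length with hk' | hk'
    · rw [hget k hk']
      rcases ih k hk' with h | h | ⟨i, hi, j, hj, h⟩
      · exact Or.inl h
      · exact Or.inr (Or.inl h)
      · refine Or.inr (Or.inr ⟨i, hi, j, hj, ?_⟩)
        rw [hget i (by omega), hget j (by omega)]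
        exact h
    · obtain rfl : k = ℓ.length := by omega
      have hlast : (ℓ ++ [ρ]).getD ℓ.length d = ρ := by
        rw [List.getD_append_right _ _ _ _ le_rfl, Nat.sub_self]
        rfl
      rw [hlast]
      rcases h3 with h | h | ⟨ρ₀, hρ₀, ρ₁, hρ₁, h⟩
      · exact Or.inl h
      · exact Or.inr (Or.inl h)
      · obtain ⟨i, hi, rfl⟩ := List.mem_iff_getElem.1 hρ₀
        obtain ⟨j, hj, rfl⟩ := List.mem_iff_getElem.1 hρ₁
        refine Or.inr (Or.inr ⟨i, hi, j, hj, ?_⟩)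
        rw [hget i hi, hget j hj, List.getD_eq_getElem _ _ hi, List.getD_eq_getElem _ _ hj]
        exact h

/-- A list which contains all refutable records. -/
theorem exists_complete (F : CNF V) (hold : R → (V → Bool) → Prop) (𝒜 : Finset R) :
    ∃ ℓ, Sq F hold 𝒜 ℓ ∧ ∀ ρ, Rf F hold 𝒜 ρ → ρ ∈ ℓ := by
  classical
  by_contra hcon
  push Not at hcon
  have key : ∀ k : ℕ, ∃ ℓ, Sq F hold 𝒜 ℓ ∧ ℓ.length = k := by
    intro k
    induction k with
    | zero => exact ⟨[], Sq.nil, rfl⟩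
    | succ k ih =>
      obtain ⟨ℓ, h1, h2⟩ := ih
      obtain ⟨ρ, hρ, hρℓ⟩ := hcon ℓ h1
      have hadd : ∀ ρ, Rf F hold 𝒜 ρ → ρ ∈ ℓ ∨ ∃ ρ', ρ' ∈ 𝒜 ∧ ρ' ∉ ℓ ∧ Add F hold ℓ ρ' := by
        intro ρ hρ
        induction hρ with
        | @triv ρ hm h =>
          by_cases hl : ρ ∈ ℓ
          · exact Or.inl hl
          · exact Or.inr ⟨ρ, hm, hl, Or.inl h⟩
        | @ax ρ C hm hC h =>
          by_cases hl : ρ ∈ ℓ
          · exact Or.inl hl
          · exact Or.inr ⟨ρ, hm, hl, Or.inr (Or.inl ⟨C, hC, h⟩)⟩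
        | @br ρ ρ₀ ρ₁ hm _ _ h ih0 ih1 =>
          rcases ih0 with h0 | h0
          · rcases ih1 with h1 | h1
            · by_cases hl : ρ ∈ ℓ
              · exact Or.inl hl
              · exact Or.inr ⟨ρ, hm, hl, Or.inr (Or.inr ⟨ρ₀, h0, ρ₁, h1, h⟩)⟩
            · exact Or.inr h1
          · exact Or.inr h0
      rcases hadd ρ hρ with h | ⟨ρ', h3, h4, h5⟩
      · exact absurd h hρℓ
      · exact ⟨ℓ ++ [ρ'], Sq.snoc h1 h3 h4 h5, by simp [h2]⟩
  obtain ⟨ℓ, h1, h2⟩ := key (𝒜.card + 1)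
  have := h1.length_le
  omega

/-- A clause is a linear inequality. -/
theorem ineq [Fintype V] [DecidableEq V] (ρ : Finset (Lit V)) (f : (V → Bool) → Bool)
    (hf : ∀ x, f x = true ↔ ¬ Hold x ρ) : Ineq f := by
  classical
  refine ⟨fun v => (if (v, false) ∈ ρ then 1 else 0) - (if (v, true) ∈ ρ then 1 else 0),
    1 - ((univ.filter fun v : V => (v, true) ∈ ρ).card : ℝ), fun x => ?_⟩
  rw [hf x]
  obtain ⟨A, hA⟩ : ∃ A, A = (univ.filter fun v : V => (v, false) ∈ ρ ∧ x v = true).card :=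
    ⟨_, rfl⟩
  obtain ⟨B, hB⟩ : ∃ B, B = (univ.filter fun v : V => (v, true) ∈ ρ ∧ x v = true).card :=
    ⟨_, rfl⟩
  obtain ⟨B', hB'⟩ : ∃ B', B' = (univ.filter fun v : V => (v, true) ∈ ρ ∧ ¬ x v = true).card :=
    ⟨_, rfl⟩
  have hsum : (∑ v : V, if x v = true then
      ((if (v, false) ∈ ρ then (1 : ℝ) else 0) - (if (v, true) ∈ ρ then 1 else 0)) else 0) =
      (A : ℝ) - B := by
    have h1 : ∀ v : V, (if x v = true then
        ((if (v, false) ∈ ρ then (1 : ℝ) else 0) - (if (v, true) ∈ ρ then 1 else 0)) else 0) =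
        (if (v, false) ∈ ρ ∧ x v = true then (1 : ℝ) else 0) -
          (if (v, true) ∈ ρ ∧ x v = true then 1 else 0) := by
      intro v
      by_cases hx : x v = true
      · simp [hx]
      · simp [hx]
    rw [Finset.sum_congr rfl fun v _ => h1 v, Finset.sum_sub_distrib, Finset.sum_boole,
      Finset.sum_boole, hA, hB]
  have hP : (univ.filter fun v : V => (v, true) ∈ ρ).card = B + B' := by
    rw [hB, hB', ← Finset.card_filter_add_card_filter_not (s := univ.filter fun v : V =>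
      (v, true) ∈ ρ) (fun v => x v = true), Finset.filter_filter, Finset.filter_filter]
  rw [hsum, hP]
  push_cast
  have hiff : (1 - ((B : ℝ) + B') ≤ A - B) ↔ 1 ≤ A + B' := by
    constructor
    · intro h
      have : (1 : ℝ) ≤ ((A + B' : ℕ) : ℝ) := by
        push_cast
        linarith
      exact_mod_cast this
    · intro h
      have : (1 : ℝ) ≤ ((A + B' : ℕ) : ℝ) := by exact_mod_cast h
      push_cast at this
      linarith
  rw [hiff]
  constructor
  · intro h
    by_contra hlt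
    have hA0 : A = 0 := by omega
    have hB0 : B' = 0 := by omega
    apply h
    rintro ⟨v, b⟩ hl
    cases b with
    | true =>
      by_contra hx
      rw [hB', Finset.card_eq_zero, Finset.eq_empty_iff_forall_notMem] at hB0
      exact hB0 v (Finset.mem_filter.2 ⟨Finset.mem_univ _, hl, hx⟩)
    | false =>
      by_contra hx
      rw [hA, Finset.card_eq_zero, Finset.eq_empty_iff_forall_notMem] at hA0
      refine hA0 v (Finset.mem_filter.2 ⟨Finset.mem_univ _, hl, ?_⟩)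
      simpa using hx
  · intro h hH
    have hA0 : A = 0 := by
      rw [hA, Finset.card_eq_zero, Finset.eq_empty_iff_forall_notMem]
      intro v hv
      obtain ⟨-, h1, h2⟩ := Finset.mem_filter.1 hv
      have := hH _ h1
      simp only at this
      rw [this] at h2
      exact absurd h2 (by simp)
    have hB0 : B' = 0 := by
      rw [hB', Finset.card_eq_zero, Finset.eq_empty_iff_forall_notMem]
      intro v hv
      obtain ⟨-, h1, h2⟩ := Finset.mem_filter.1 hv
      exact h2 (hH _ h1)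
    omega

/-- A refutation from a refutable record which always holds. -/
theorem ref_of_rf [Fintype V] (hin : ∀ ρ ∈ 𝒜, ∀ f : (V → Bool) → Bool,
    (∀ x, f x = true ↔ ¬ hold ρ x) → Ineq f) (e : R) (he : Rf F hold 𝒜 e)
    (hall : ∀ x, hold e x) : ∃ L ≤ 𝒜.card, Ref F 2 Ineq L := by
  classical
  obtain ⟨ℓ, h1, h2⟩ := exists_complete F hold 𝒜
  refine ⟨ℓ.length, h1.length_le, fun k x => decide (¬ hold (ℓ.getD k e) x), fun k hk => ?_, ?_⟩
  · have hmem : ℓ.getD k e ∈ 𝒜 := by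
      rw [List.getD_eq_getElem _ _ hk]
      exact h1.nodup.2 _ (List.getElem_mem hk)
    refine ⟨hin _ hmem _ fun x => decide_eq_true_iff, ?_⟩
    rcases h1.idx e k hk with h | ⟨C, hC, h⟩ | ⟨i, hi, j, hj, h⟩
    · exact ⟨∅, ∅, Finset.empty_subset _, by simp, by simp, fun i hi =>
        absurd hi (Finset.notMem_empty _), fun x _ _ => decide_eq_true (h x)⟩
    · refine ⟨{C}, ∅, Finset.singleton_subset_iff.2 hC, by simp, by simp, fun i hi =>
        absurd hi (Finset.notMem_empty _), fun x hx _ => decide_eq_true fun hh => ?_⟩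
      exact h x hh (hx C (Finset.mem_singleton_self _))
    · refine ⟨∅, {i, j}, Finset.empty_subset _, by simp, Finset.card_le_two, ?_,
        fun x _ hx => decide_eq_true fun hh => ?_⟩
      · intro a ha
        rcases Finset.mem_insert.1 ha with ha | ha
        · rw [ha]
          exact hi
        · rw [Finset.mem_singleton.1 ha]
          exact hj
      · have hxi := hx i (Finset.mem_insert_self _ _)
        have hxj := hx j (Finset.mem_insert_of_mem (Finset.mem_singleton_self _))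
        rw [decide_eq_true_iff] at hxi hxj
        rcases h x hh with h3 | h3
        · exact hxi h3
        · exact hxj h3
  · obtain ⟨k, hk, hke⟩ := List.mem_iff_getElem.1 (h2 e he)
    refine ⟨k, hk, fun x => decide_eq_false ?_⟩
    rw [not_not, List.getD_eq_getElem _ _ hk, hke]
    exact hall x

end MUPA

end Pool.Agent.DAQ
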