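import Pool.Agent.DAQ.UPA

/-!
# Project DAQ, module UPB: records with slots, and asking for a variable
-/

set_option autoImplicit false

namespace Pool.Agent.DAQ

open Finset Pool.Agent.OB

namespace MUPB

open MUPA

/-- A slot: the first `j` bits of the address of `a`, and perhaps the value at the address. -/
abbrev Slot (A : Type) (g : ℕ) := A × (Fin g → Bool) × Fin (g + 1) × Option Bool

variable {A : Type} {g : ℕ}

/-- The slot is correct. -/
def HS (d : Slot A g) (x : (Fin g → Bool) ⊕ (A × Fin g) → Bool) : Prop :=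
  (∀ i : Fin g, (i : ℕ) < (d.2.2.1 : ℕ) → x (Sum.inr (d.1, i)) = d.2.1 i) ∧
    ∀ b, d.2.2.2 = some b → x (Sum.inl d.2.1) = b

/-- All slots are correct. -/
def HD (D : Finset (Slot A g)) (x : (Fin g → Bool) ⊕ (A × Fin g) → Bool) : Prop :=
  ∀ d ∈ D, HS d x

/-- The slot of a variable whose value is known. -/
def full (a : A) (s : Fin g → Bool) (b : Bool) : Slot A g := (a, s, Fin.last g, some b)

theorem HD_mono {D D' : Finset (Slot A g)} (h : D' ⊆ D) {x : (Fin g → Bool) ⊕ (A × Fin g) → Bool}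
    (hx : HD D x) : HD D' x := fun d hd => hx d (h hd)

theorem HD_insert [DecidableEq A] {D : Finset (Slot A g)} {d : Slot A g}
    {x : (Fin g → Bool) ⊕ (A × Fin g) → Bool} : HD (insert d D) x ↔ HS d x ∧ HD D x := by
  unfold HD
  rw [Finset.forall_mem_insert]

/-- The records with at most `S` slots. -/
def rcd (A : Type) [Fintype A] [DecidableEq A] (g S : ℕ) : Finset (Finset (Slot A g)) :=
  (univ : Finset (Finset (Slot A g))).filter fun D => D.card ≤ S

theorem mem_rcd [Fintype A] [DecidableEq A] {S : ℕ} {D : Finset (Slot A g)} :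
    D ∈ rcd A g S ↔ D.card ≤ S := by
  unfold rcd
  rw [Finset.mem_filter]
  exact and_iff_right (Finset.mem_univ _)

/-- The record is alive. -/
def Al [Fintype A] [DecidableEq A] (F : CNF ((Fin g → Bool) ⊕ (A × Fin g))) (S : ℕ)
    (D : Finset (Slot A g)) : Prop := D.card ≤ S ∧ ¬ Rf F HD (rcd A g S) D

section

variable [Fintype A] [DecidableEq A] {F : CNF ((Fin g → Bool) ⊕ (A × Fin g))} {S : ℕ}

theorem al_br {D D₀ D₁ : Finset (Slot A g)} (h : Al F S D) (h0 : D₀.card ≤ S) (h1 : D₁.card ≤ S)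
    (himp : ∀ x, HD D x → HD D₀ x ∨ HD D₁ x) : Al F S D₀ ∨ Al F S D₁ := by
  by_contra hcon
  rw [not_or] at hcon
  have h2 : Rf F HD (rcd A g S) D₀ := by
    by_contra h3
    exact hcon.1 ⟨h0, h3⟩
  have h3 : Rf F HD (rcd A g S) D₁ := by
    by_contra h4
    exact hcon.2 ⟨h1, h4⟩
  exact h.2 (Rf.br (mem_rcd.2 h.1) h2 h3 himp)

theorem al_imp {D D₀ : Finset (Slot A g)} (h : Al F S D) (h0 : D₀.card ≤ S)
    (himp : ∀ x, HD D x → HD D₀ x) : Al F S D₀ := by
  rcases al_br h h0 h0 (fun x hx => Or.inl (himp x hx)) with h1 | h1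
  · exact h1
  · exact h1

theorem al_mono {D D₀ : Finset (Slot A g)} (h : Al F S D) (h0 : D₀ ⊆ D) : Al F S D₀ :=
  al_imp h ((Finset.card_le_card h0).trans h.1) fun _ hx => HD_mono h0 hx

/-- ASK: the address and the value of `a`. -/
theorem ask {D : Finset (Slot A g)} (h : Al F S D) (hS : D.card + 1 ≤ S) (a : A) :
    ∃ (s : Fin g → Bool) (b : Bool), Al F S (insert (full a s b) D) := by
  have hc : ∀ d : Slot A g, (insert d D).card ≤ S := fun d =>
    (Finset.card_insert_le _ _).trans hS
  have key : ∀ (j : ℕ) (hj : j < g + 1), ∃ s : Fin g → Bool,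
      Al F S (insert ((a, s, ⟨j, hj⟩, none) : Slot A g) D) := by
    intro j
    induction j with
    | zero =>
      intro hj
      refine ⟨fun _ => false, al_imp h (hc _) fun x hx => HD_insert.2 ⟨⟨fun i hi => ?_, ?_⟩, hx⟩⟩
      · exact absurd hi (Nat.not_lt_zero _)
      · intro b hb
        exact absurd hb (by simp)
    | succ j ih =>
      intro hj
      obtain ⟨s, hs⟩ := ih (by omega)
      have hjg : j < g := by omega
      have hup : ∀ (b : Bool) (x : (Fin g → Bool) ⊕ (A × Fin g) → Bool),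
          x (Sum.inr (a, ⟨j, hjg⟩)) = b →
          HD (insert ((a, s, ⟨j, by omega⟩, none) : Slot A g) D) x →
          HD (insert ((a, Function.update s ⟨j, hjg⟩ b, ⟨j + 1, hj⟩, none) : Slot A g) D) x := by
        intro b x hb hx
        obtain ⟨⟨h1, -⟩, h2⟩ := HD_insert.1 hx
        refine HD_insert.2 ⟨⟨fun i hi => ?_, fun b hb => absurd hb (by simp)⟩, h2⟩
        change (i : ℕ) < j + 1 at hi
        change x (Sum.inr (a, i)) = Function.update s ⟨j, hjg⟩ b i
        by_cases hij : i = ⟨j, hjg⟩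
        · rw [hij, Function.update_self]
          exact hb
        · rw [Function.update_of_ne hij]
          refine h1 i ?_
          change (i : ℕ) < j
          have : (i : ℕ) ≠ j := fun h => hij (Fin.ext h)
          omega
      rcases al_br hs (hc _) (hc _) (D₀ := insert ((a, Function.update s ⟨j, hjg⟩ false,
          ⟨j + 1, hj⟩, none) : Slot A g) D) (D₁ := insert ((a, Function.update s ⟨j, hjg⟩ true,
          ⟨j + 1, hj⟩, none) : Slot A g) D) (fun x hx => by
            cases hb : x (Sum.inr (a, ⟨j, hjg⟩)) with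
            | false => exact Or.inl (hup false x hb hx)
            | true => exact Or.inr (hup true x hb hx)) with h1 | h1
      · exact ⟨_, h1⟩
      · exact ⟨_, h1⟩
  obtain ⟨s, hs⟩ := key g (Nat.lt_succ_self g)
  have hval : ∀ (b : Bool) (x : (Fin g → Bool) ⊕ (A × Fin g) → Bool), x (Sum.inl s) = b →
      HD (insert ((a, s, ⟨g, Nat.lt_succ_self g⟩, none) : Slot A g) D) x →
      HD (insert (full a s b) D) x := by
    intro b x hb hx
    obtain ⟨⟨h1, -⟩, h2⟩ := HD_insert.1 hx
    refine HD_insert.2 ⟨⟨h1, fun b' hb' => ?_⟩, h2⟩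
    have : b = b' := Option.some.inj hb'
    rw [← this]
    exact hb
  rcases al_br hs (hc _) (hc _) (D₀ := insert (full a s false) D)
      (D₁ := insert (full a s true) D) (fun x hx => by
        cases hb : x (Sum.inl s) with
        | false => exact Or.inl (hval false x hb hx)
        | true => exact Or.inr (hval true x hb hx)) with h1 | h1
  · exact ⟨_, _, h1⟩
  · exact ⟨_, _, h1⟩

/-- FALS: no clause is falsified by a record which is alive. -/
theorem fals {H' : CNF A} {D : Finset (Slot A g)} (h : Al (adr g H') S D) {D₀ : Clause A}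
    (hD₀ : D₀ ∈ H') (s : A → Fin g → Bool) (hs : ∀ l ∈ D₀, full l.1 (s l.1) (!l.2) ∈ D) :
    False := by
  classical
  obtain ⟨C, hC⟩ : ∃ C : Clause ((Fin g → Bool) ⊕ (A × Fin g)),
      C = (D₀.biUnion fun l => univ.image fun j : Fin g => (Sum.inr (l.1, j), !(s l.1 j))) ∪
        D₀.image fun l => (Sum.inl (s l.1), l.2) := ⟨_, rfl⟩
  have hfal : ∀ x, HD D x → ¬ Sat x C := by
    rintro x hx ⟨l, hl, hsat⟩
    rw [hC, Finset.mem_union] at hl
    rcases hl with hl | hl
    · obtain ⟨l', hl', hl2⟩ := Finset.mem_biUnion.1 hl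
      obtain ⟨j, -, rfl⟩ := Finset.mem_image.1 hl2
      have h1 := (hx _ (hs l' hl')).1 j (by
        change (j : ℕ) < (Fin.last g : ℕ)
        rw [Fin.val_last]
        exact j.2)
      change x (Sum.inr (l'.1, j)) = s l'.1 j at h1
      simp only at hsat
      rw [h1] at hsat
      exact absurd hsat (by cases s l'.1 j <;> simp)
    · obtain ⟨l', hl', rfl⟩ := Finset.mem_image.1 hl
      have h1 := (hx _ (hs l' hl')).2 (!l'.2) rfl
      change x (Sum.inl (s l'.1)) = !l'.2 at h1
      simp only at hsat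
      rw [h1] at hsat
      exact absurd hsat (by cases l'.2 <;> simp)
  by_cases ht : Taut C
  · refine h.2 (Rf.triv (mem_rcd.2 h.1) fun x hx => hfal x hx ?_)
    obtain ⟨v, hv1, hv2⟩ := ht
    cases hb : x v with
    | true => exact ⟨_, hv1, hb⟩
    | false => exact ⟨_, hv2, hb⟩
  · refine h.2 (Rf.ax (mem_rcd.2 h.1) (C := C) ?_ hfal)
    unfold adr
    rw [Finset.mem_filter]
    refine ⟨?_, ht⟩
    rw [Finset.mem_biUnion]
    refine ⟨D₀, hD₀, ?_⟩
    rw [Finset.mem_image]
    exact ⟨s, Finset.mem_univ _, hC.symm⟩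

/-- The lines are linear inequalities. -/
theorem ineqHD (D : Finset (Slot A g)) (f : ((Fin g → Bool) ⊕ (A × Fin g) → Bool) → Bool)
    (hf : ∀ x, f x = true ↔ ¬ HD D x) : Ineq f := by
  classical
  refine ineq (D.biUnion fun d =>
    ((univ : Finset (Fin g)).filter fun i : Fin g => (i : ℕ) < (d.2.2.1 : ℕ)).image
      (fun i : Fin g => ((Sum.inr (d.1, i), d.2.1 i) : Lit ((Fin g → Bool) ⊕ (A × Fin g)))) ∪
      ((univ : Finset Bool).filter fun b => d.2.2.2 = some b).image
        fun b => (Sum.inl d.2.1, b)) f fun x => ?_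
  rw [hf x]
  refine not_congr ⟨fun h => ?_, fun h d hd => ⟨fun i hi => ?_, fun b hb => ?_⟩⟩
  · intro l hl
    obtain ⟨d, hd, hl⟩ := Finset.mem_biUnion.1 hl
    rcases Finset.mem_union.1 hl with hl | hl
    · obtain ⟨i, hi, rfl⟩ := Finset.mem_image.1 hl
      exact (h d hd).1 i (Finset.mem_filter.1 hi).2
    · obtain ⟨b, hb, rfl⟩ := Finset.mem_image.1 hl
      exact (h d hd).2 b (Finset.mem_filter.1 hb).2
  · exact h (Sum.inr (d.1, i), d.2.1 i) (Finset.mem_biUnion.2 ⟨d, hd, Finset.mem_union_left _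
      (Finset.mem_image.2 ⟨i, Finset.mem_filter.2 ⟨Finset.mem_univ _, hi⟩, rfl⟩)⟩)
  · exact h (Sum.inl d.2.1, b) (Finset.mem_biUnion.2 ⟨d, hd, Finset.mem_union_right _
      (Finset.mem_image.2 ⟨b, Finset.mem_filter.2 ⟨Finset.mem_univ _, hb⟩, rfl⟩)⟩)

/-- The number of the records. -/
theorem card_rcd (X : Type) [Fintype X] [DecidableEq X] (S : ℕ) :
    ((univ : Finset (Finset X)).filter fun D => D.card ≤ S).card ≤ (Fintype.card X + 1) ^ S := by
  classical
  have h1 : Fintype.card (Fin S → Option X) = (Fintype.card X + 1) ^ S := by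
    rw [Fintype.card_fun, Fintype.card_option, Fintype.card_fin]
  rw [← h1, ← Finset.card_univ]
  refine (Finset.card_le_card (t := (univ : Finset (Fin S → Option X)).image fun c =>
    univ.filter fun d : X => ∃ k, c k = some d) ?_).trans Finset.card_image_le
  intro D hD
  have hc := (Finset.mem_filter.1 hD).2
  refine Finset.mem_image.2 ⟨fun k => if h : (k : ℕ) < D.card then
    some (D.equivFin.symm ⟨k, h⟩ : X) else none, Finset.mem_univ _, ?_⟩
  ext d
  rw [Finset.mem_filter]
  constructor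
  · rintro ⟨-, k, hk⟩
    by_cases h : (k : ℕ) < D.card
    · simp only [h, dif_pos] at hk
      rw [← Option.some.inj hk]
      exact (D.equivFin.symm ⟨k, h⟩).2
    · simp only [h, dif_neg, not_false_eq_true] at hk
      exact absurd hk (by simp)
  · intro hd
    refine ⟨Finset.mem_univ _, ⟨D.equivFin ⟨d, hd⟩, lt_of_lt_of_le (Fin.is_lt _) hc⟩, ?_⟩
    have hlt : ((D.equivFin ⟨d, hd⟩ : Fin D.card) : ℕ) < D.card := Fin.is_lt _
    simp

end

end MUPB

end Pool.Agent.DAQ
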