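import Pool.Agent.DAQ.UPB
import Pool.Agent.DAQ.STQ

/-!
# Project DAQ, module UPC: a strategy for `G` from records which are alive
-/

set_option autoImplicit false

namespace Pool.Agent.DAQ

open Finset Pool.Agent.OB Pool.Agent.DGO

namespace MUPC

open MUPA MUPB

variable {I : Type} [Fintype I] [DecidableEq I] {M g : ℕ}

/-- The slots for the variables in `Q`. -/
def sl (Q : Finset I) (z : I → Bool) (q : I → Fin (M + 1)) (s s' : I → Fin g → Bool) :
    Finset (Slot (Fin 3 × I × Fin (M + 1)) g) :=
  (Q.image fun i => full (0, i, q i) (s i) true) ∪ Q.image fun i => full (2, i, q i) (s' i) (z i)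

theorem sl_card (Q : Finset I) (z : I → Bool) (q : I → Fin (M + 1)) (s s' : I → Fin g → Bool) :
    (sl Q z q s s').card ≤ 2 * Q.card := by
  refine (Finset.card_union_le _ _).trans ?_
  have h1 : (Q.image fun i => full (A := Fin 3 × I × Fin (M + 1)) (0, i, q i) (s i) true).card ≤
    Q.card := Finset.card_image_le
  have h2 : (Q.image fun i => full (A := Fin 3 × I × Fin (M + 1)) (2, i, q i) (s' i) (z i)).card ≤
    Q.card := Finset.card_image_le
  omega

theorem sl_mono {Q Q' : Finset I} (h : Q' ⊆ Q) (z : I → Bool) (q : I → Fin (M + 1))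
    (s s' : I → Fin g → Bool) : sl Q' z q s s' ⊆ sl Q z q s s' :=
  Finset.union_subset_union (Finset.image_subset_image h) (Finset.image_subset_image h)

theorem sl_congr {Q : Finset I} {z z' : I → Bool} {q q' : I → Fin (M + 1)}
    {s s' r r' : I → Fin g → Bool} (hz : ∀ i ∈ Q, z i = z' i) (hq : ∀ i ∈ Q, q i = q' i)
    (hs : ∀ i ∈ Q, s i = r i) (hs' : ∀ i ∈ Q, s' i = r' i) : sl Q z q s s' = sl Q z' q' r r' := by
  unfold sl
  congr 1
  · refine Finset.image_congr fun i hi => ?_
    rw [hq i hi, hs i hi]
  · refine Finset.image_congr fun i hi => ?_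
    rw [hq i hi, hs' i hi, hz i hi]

omit [Fintype I] in
theorem sl_insert (Q : Finset I) (i : I) (z : I → Bool) (q : I → Fin (M + 1))
    (s s' : I → Fin g → Bool) : sl (insert i Q) z q s s' =
      insert (full (2, i, q i) (s' i) (z i)) (insert (full (0, i, q i) (s i) true)
        (sl Q z q s s')) := by
  ext d
  simp only [sl, Finset.mem_union, Finset.mem_image, Finset.mem_insert]
  constructor
  · rintro (⟨j, hj, rfl⟩ | ⟨j, hj, rfl⟩)
    · rcases hj with rfl | hj
      · exact Or.inr (Or.inl rfl)
      · exact Or.inr (Or.inr (Or.inl ⟨j, hj, rfl⟩))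
    · rcases hj with rfl | hj
      · exact Or.inl rfl
      · exact Or.inr (Or.inr (Or.inr ⟨j, hj, rfl⟩))
  · rintro (rfl | rfl | ⟨j, hj, rfl⟩ | ⟨j, hj, rfl⟩)
    · exact Or.inr ⟨i, Or.inl rfl, rfl⟩
    · exact Or.inl ⟨i, Or.inl rfl, rfl⟩
    · exact Or.inl ⟨j, Or.inr hj, rfl⟩
    · exact Or.inr ⟨j, Or.inr hj, rfl⟩

section

variable {G : CNF I} {S : ℕ}

/-- The pointer of a further variable. -/
theorem pointer {D : Finset (Slot (Fin 3 × I × Fin (M + 1)) g)} (i : I)
    (h : Al (adr g (idx M G)) S D) (hS : D.card + 3 ≤ S) :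
    ∃ (q : Fin (M + 1)) (s : Fin g → Bool),
      Al (adr g (idx M G)) S (insert (full (0, i, q) s true) D) := by
  classical
  have hc1 : ∀ d : Slot (Fin 3 × I × Fin (M + 1)) g, (insert d D).card ≤ D.card + 1 := fun d =>
    Finset.card_insert_le _ _
  have hc2 : ∀ d d' : Slot (Fin 3 × I × Fin (M + 1)) g,
      (insert d (insert d' D)).card ≤ D.card + 2 := fun d d' =>
    (Finset.card_insert_le _ _).trans (Nat.add_le_add_right (hc1 _) 1)
  -- the walk on the ladder
  have key : ∀ (k : ℕ) (hk : k < M + 1),
      (∃ s : Fin g → Bool, Al (adr g (idx M G)) S (insert (full (1, i, ⟨k, hk⟩) s false) D)) ∨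
      ∃ (q : Fin (M + 1)) (s : Fin g → Bool),
        Al (adr g (idx M G)) S (insert (full (0, i, q) s true) D) := by
    intro k
    induction k with
    | zero =>
      intro hk
      obtain ⟨s, b, hb⟩ := ask h (by omega) ((1, i, ⟨0, hk⟩) : Fin 3 × I × Fin (M + 1))
      cases b with
      | false => exact Or.inl ⟨s, hb⟩
      | true =>
        exfalso
        refine fals hb (D₀ := {((1, i, 0), false)}) ?_ (fun _ => s) ?_
        · unfold idx
          simp only [Finset.mem_union]
          exact Or.inl (Or.inl (Or.inl (Finset.mem_image.2 ⟨i, Finset.mem_univ _, rfl⟩)))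
        · intro l hl
          rw [Finset.mem_singleton] at hl
          subst hl
          exact Finset.mem_insert_self _ _
    | succ k ih =>
      intro hk
      rcases ih (by omega) with ⟨s, hs⟩ | hr
      · obtain ⟨s₁, b, hb⟩ := ask hs (by have := hc1 (full (1, i, ⟨k, by omega⟩) s false); omega)
          ((1, i, ⟨k + 1, hk⟩) : Fin 3 × I × Fin (M + 1))
        cases b with
        | false =>
          left
          refine ⟨s₁, al_mono hb ?_⟩
          exact Finset.insert_subset_insert _ (Finset.subset_insert _ _)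
        | true =>
          right
          -- the two ladder slots are known
          obtain ⟨s₂, b, hb'⟩ := ask hb (by
            have := hc2 (full (1, i, ⟨k + 1, hk⟩) s₁ true) (full (1, i, ⟨k, by omega⟩) s false)
            omega) ((0, i, ⟨k, by omega⟩) : Fin 3 × I × Fin (M + 1))
          cases b with
          | true =>
            refine ⟨⟨k, by omega⟩, s₂, al_mono hb' ?_⟩
            exact Finset.insert_subset_insert _
              ((Finset.subset_insert _ _).trans (Finset.subset_insert _ _))
          | false =>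
            exfalso
            have hkM : k < M := by omega
            refine fals hb' (D₀ := {((1, i, (⟨k, hkM⟩ : Fin M).succ), false),
              ((1, i, (⟨k, hkM⟩ : Fin M).castSucc), true),
              ((0, i, (⟨k, hkM⟩ : Fin M).castSucc), true)}) ?_
              (fun a => if a.1 = 0 then s₂ else if (a.2.2 : ℕ) = k then s else s₁) ?_
            · unfold idx
              simp only [Finset.mem_union]
              exact Or.inl (Or.inr (Finset.mem_image.2 ⟨(i, ⟨k, hkM⟩), Finset.mem_univ _, rfl⟩))
            · intro l hl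
              simp only [Finset.mem_insert, Finset.mem_singleton] at hl
              rcases hl with rfl | rfl | rfl
              · refine Finset.mem_insert_of_mem (Finset.mem_insert.2 (Or.inl ?_))
                have h1 : ¬ ((1 : Fin 3) = 0) := by decide
                simp only [h1, if_false, Fin.val_succ]
                rw [if_neg (by omega)]
                rfl
              · refine Finset.mem_insert_of_mem (Finset.mem_insert_of_mem
                  (Finset.mem_insert.2 (Or.inl ?_)))
                have h1 : ¬ ((1 : Fin 3) = 0) := by decide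
                simp only [h1, if_false, Fin.val_castSucc, if_true]
                rfl
              · refine Finset.mem_insert.2 (Or.inl ?_)
                simp only [if_true]
                rfl
      · exact Or.inr hr
  rcases key M (Nat.lt_succ_self M) with ⟨s, hs⟩ | hr
  · exfalso
    refine fals hs (D₀ := {((1, i, Fin.last M), true)}) ?_ (fun _ => s) ?_
    · unfold idx
      simp only [Finset.mem_union]
      exact Or.inl (Or.inl (Or.inr (Finset.mem_image.2 ⟨i, Finset.mem_univ _, rfl⟩)))
    · intro l hl
      rw [Finset.mem_singleton] at hl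
      subst hl
      exact Finset.mem_insert_self _ _
  · exact hr

/-- The strategy. -/
theorem strat {W : ℕ} (hS : 2 * W + 3 ≤ S) (h : Al (adr g (idx M G)) S ∅) :
    Strat G (W + 1) fun Q z => ∃ (q : I → Fin (M + 1)) (s s' : I → Fin g → Bool),
      Al (adr g (idx M G)) S (sl Q z q s s') := by
  classical
  refine ⟨?_, ?_, ?_, ?_, ?_⟩
  · intro z
    refine ⟨fun _ => 0, fun _ _ => false, fun _ _ => false, ?_⟩
    have : sl (∅ : Finset I) z (fun _ => (0 : Fin (M + 1))) (fun _ (_ : Fin g) => false)
        (fun _ _ => false) = ∅ := rfl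
    rw [this]
    exact h
  · rintro Q Q' z ⟨q, s, s', hq⟩ hQ
    exact ⟨q, s, s', al_mono hq (sl_mono hQ _ _ _ _)⟩
  · rintro Q z z' ⟨q, s, s', hq⟩ hz
    refine ⟨q, s, s', ?_⟩
    rw [← sl_congr hz (fun _ _ => rfl) (fun _ _ => rfl) fun _ _ => rfl]
    exact hq
  · rintro Q z i ⟨q, s, s', hq⟩ hQ hi
    have hcard := sl_card Q z q s s'
    obtain ⟨q₀, s₀, h1⟩ := pointer i hq (by omega)
    have hcard' : (insert (full (0, i, q₀) s₀ true) (sl Q z q s s')).card ≤
        (sl Q z q s s').card + 1 := Finset.card_insert_le _ _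
    obtain ⟨s₁, b, h2⟩ := ask h1 (by omega) ((2, i, q₀) : Fin 3 × I × Fin (M + 1))
    refine ⟨b, Function.update q i q₀, Function.update s i s₀, Function.update s' i s₁, ?_⟩
    rw [sl_insert, Function.update_self, Function.update_self, Function.update_self,
      Function.update_self]
    have hne : ∀ j ∈ Q, j ≠ i := fun j hj he => hi (he ▸ hj)
    rw [sl_congr (z' := z) (q' := q) (r := s) (r' := s')
      (fun j hj => Function.update_of_ne (hne j hj) _ _)
      (fun j hj => Function.update_of_ne (hne j hj) _ _)
      (fun j hj => Function.update_of_ne (hne j hj) _ _)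
      (fun j hj => Function.update_of_ne (hne j hj) _ _)]
    exact h2
  · rintro Q z C ⟨q, s, s', hq⟩ hC hv
    by_contra hns
    have hz : ∀ l ∈ C, z l.1 = !l.2 := by
      intro l hl
      by_contra hne
      apply hns
      refine ⟨l, hl, ?_⟩
      revert hne
      cases z l.1 <;> cases l.2 <;> simp
    refine fals hq (D₀ := (C.image fun l => ((0, l.1, q l.1), false)) ∪
      C.image fun l => ((2, l.1, q l.1), l.2)) ?_
      (fun a => if a.1 = 0 then s a.2.1 else s' a.2.1) ?_
    · unfold idx
      simp only [Finset.mem_union]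
      refine Or.inr (Finset.mem_biUnion.2 ⟨C, hC, Finset.mem_image.2 ⟨q, Finset.mem_univ _, rfl⟩⟩)
    · intro l hl
      rcases Finset.mem_union.1 hl with hl | hl
      · obtain ⟨l', hl', rfl⟩ := Finset.mem_image.1 hl
        refine Finset.mem_union_left _ (Finset.mem_image.2 ⟨l'.1, hv l' hl', ?_⟩)
        simp only [if_true]
        rfl
      · obtain ⟨l', hl', rfl⟩ := Finset.mem_image.1 hl
        refine Finset.mem_union_right _ (Finset.mem_image.2 ⟨l'.1, hv l' hl', ?_⟩)
        have h1 : ¬ ((2 : Fin 3) = 0) := by decide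
        simp only [h1, if_false]
        rw [hz l' hl']

end

/-- The upper bound. -/
theorem upper {G : CNF I} {W : ℕ} (h : Refutable G W) :
    ∃ L ≤ (Fintype.card (Slot (Fin 3 × I × Fin (M + 1)) g) + 1) ^ (2 * W + 3),
      Ref (adr g (idx M G)) 2 Ineq L := by
  classical
  have hrf : Rf (adr g (idx M G)) HD (rcd (Fin 3 × I × Fin (M + 1)) g (2 * W + 3)) ∅ := by
    by_contra hcon
    exact t_STQ G W _ (strat (S := 2 * W + 3) le_rfl ⟨by simp, hcon⟩) h
  obtain ⟨L, hL, hr⟩ := ref_of_rf (hold := HD) (fun ρ _ f hf => ineqHD ρ f hf) ∅ hrf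
    (fun x d hd => absurd hd (Finset.notMem_empty _))
  exact ⟨L, hL.trans (card_rcd _ _), hr⟩

end MUPC

end Pool.Agent.DAQ
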